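import Pool.Agent.McF.Defs

set_option autoImplicit false

/-! McF12. The equation `4^a (p^u - 1) = p^(2r+u) - 1`. -/

namespace Pool.Agent.McF

/-- `p^u - 1 ∣ p^(2r+u) - 1` gives `u ∣ 2r + u` (for instance from `gcd(p^m - 1, p^n - 1) = p^gcd(m,n) - 1`, `Nat.pow_sub_one_gcd_pow_sub_one`), so `u ∣ 2r`; let
`2r + u = u N`, `N ≥ 2`, `x = p^u ≥ 3`. `4^a = (x^N - 1) / (x - 1) = 1 + x + ... + x^(N-1)`. `N` odd: this is odd (a sum of `N` odd numbers) and `> 1`: a
contradiction. `N` even: `2r = u (N - 1)`, so `u` is even, `x = 1` mod 8, and `4^a = ((x^(N/2) - 1) / (x - 1)) (x^(N/2) + 1)`, so `x^(N/2) + 1` is a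
power of 2, `= 2` mod 8, so it is 2: a contradiction. -/
theorem no_pow {p a u r : ℕ} (hp : p.Prime) (hp2 : p ≠ 2) (hu : 1 ≤ u) (hr : 1 ≤ r)
    (h : ((2 : ℤ) ^ a) ^ 2 * ((p : ℤ) ^ u - 1) = (p : ℤ) ^ (2 * r + u) - 1) : False := by
  have hp3 : 3 ≤ p := by
    have := hp.two_le
    omega
  have hpo : Odd p := hp.odd_of_ne_two hp2
  -- the divisibility
  have hdvd : p ^ u - 1 ∣ p ^ (2 * r + u) - 1 := by
    have h1 : ((p ^ u - 1 : ℕ) : ℤ) ∣ ((p ^ (2 * r + u) - 1 : ℕ) : ℤ) := by
      rw [Nat.cast_sub (Nat.one_le_pow _ _ (by omega)),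
        Nat.cast_sub (Nat.one_le_pow _ _ (by omega))]
      push_cast
      exact ⟨((2 : ℤ) ^ a) ^ 2, by rw [← h]; ring⟩
    exact_mod_cast h1
  have hu2 : u ∣ 2 * r + u := by
    have h1 := Nat.gcd_eq_left hdvd
    rw [Nat.pow_sub_one_gcd_pow_sub_one] at h1
    have h2 : p ^ (u.gcd (2 * r + u)) = p ^ u := by
      have e1 : 1 ≤ p ^ (u.gcd (2 * r + u)) := Nat.one_le_pow _ _ (by omega)
      have e2 : 1 ≤ p ^ u := Nat.one_le_pow _ _ (by omega)
      omega
    have h3 := Nat.pow_right_injective (show 2 ≤ p by omega) h2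
    have h4 := Nat.gcd_dvd_right u (2 * r + u)
    have h5 : u.gcd (2 * r + u) = u := h3
    rwa [h5] at h4
  obtain ⟨N, hN⟩ := hu2
  have hN2 : 2 ≤ N := by
    by_contra hlt
    have : N = 0 ∨ N = 1 := by omega
    rcases this with rfl | rfl
    · omega
    · omega
  -- the number `x = p ^ u`
  set x : ℤ := (p : ℤ) ^ u with hx
  have hx3 : 3 ≤ x := by
    have h1 : p ^ 1 ≤ p ^ u := Nat.pow_le_pow_right (by omega) hu
    rw [pow_one] at h1
    have h2 : 3 ≤ p ^ u := by omega
    rw [hx]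
    exact_mod_cast h2
  have hxN : (p : ℤ) ^ (2 * r + u) = x ^ N := by rw [hN, pow_mul]
  rw [hxN] at h
  rcases Nat.even_or_odd N with he | ho
  · obtain ⟨m, hm⟩ := he
    have hm1 : 1 ≤ m := by omega
    have hg := geom_sum_mul x m
    have h1 : ((2 : ℤ) ^ a) ^ 2 = (∑ i ∈ Finset.range m, x ^ i) * (x ^ m + 1) := by
      have h2 : ((2 : ℤ) ^ a) ^ 2 * (x - 1) =
          ((∑ i ∈ Finset.range m, x ^ i) * (x ^ m + 1)) * (x - 1) := by
        rw [h, hm, pow_add]
        linear_combination (-(x ^ m + 1)) * hg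
      exact mul_right_cancel₀ (by omega : x - 1 ≠ 0) h2
    have hxm : x ^ m = ((p ^ u) ^ m : ℕ) := by rw [hx]; push_cast; rfl
    have h3 : (p ^ u) ^ m + 1 ∣ 2 ^ (a * 2) := by
      have h4 : (((p ^ u) ^ m + 1 : ℕ) : ℤ) ∣ ((2 ^ (a * 2) : ℕ) : ℤ) := by
        push_cast
        rw [pow_mul, h1]
        exact Dvd.intro_left _ rfl
      exact_mod_cast h4
    obtain ⟨k, -, hk⟩ := (Nat.dvd_prime_pow Nat.prime_two).1 h3
    have hue : Even u := by
      have h5 : 2 * r = u * (N - 1) := by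
        obtain ⟨N', rfl⟩ : ∃ N', N = N' + 1 := ⟨N - 1, by omega⟩
        rw [Nat.add_sub_cancel]
        have : u * (N' + 1) = u * N' + u := by ring
        omega
      have h6 : Even (u * (N - 1)) := by
        rw [← h5]
        exact even_two_mul r
      rcases Nat.even_mul.1 h6 with h7 | h7
      · exact h7
      · exfalso
        obtain ⟨c, hc⟩ := h7
        omega
    obtain ⟨v, hv⟩ := hue
    have h8 : (p ^ u) ^ m % 4 = 1 := by
      have h9 : p ^ u = (p ^ v) ^ 2 := by rw [hv, ← pow_mul]; congr 1; omega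
      have h10 : p ^ v % 2 = 1 := Nat.odd_iff.1 hpo.pow
      have h11 : (p ^ v) ^ 2 % 4 = 1 := by
        have h12 : p ^ v % 4 = 1 ∨ p ^ v % 4 = 3 := by omega
        rcases h12 with h12 | h12 <;> rw [Nat.pow_mod, h12]
      rw [h9, Nat.pow_mod, h11, one_pow, Nat.one_mod]
    have h13 : 3 ≤ (p ^ u) ^ m := by
      have h14 : 3 ≤ p ^ u := by
        have : ((3 : ℕ) : ℤ) ≤ ((p ^ u : ℕ) : ℤ) := by push_cast; exact hx3
        exact_mod_cast this
      calc 3 ≤ (p ^ u) ^ 1 := by rw [pow_one]; exact h14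
        _ ≤ (p ^ u) ^ m := Nat.pow_le_pow_right (by omega) hm1
    have hk2 : 2 ≤ k := by
      by_contra hlt
      have : k = 0 ∨ k = 1 := by omega
      rcases this with rfl | rfl
      · simp at hk
        omega
      · simp at hk
        omega
    have h15 : 4 ∣ 2 ^ k := by
      have : (2 : ℕ) ^ 2 ∣ 2 ^ k := pow_dvd_pow 2 hk2
      exact this
    omega
  · have hg := geom_sum_mul x N
    have h1 : ((2 : ℤ) ^ a) ^ 2 = ∑ i ∈ Finset.range N, x ^ i :=
      mul_right_cancel₀ (by omega : x - 1 ≠ 0) (by rw [h, hg])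
    rcases Nat.eq_zero_or_pos a with ha | ha
    · subst ha
      have h2 : x ^ N = x := by
        simp only [pow_zero, one_pow, one_mul] at h
        linarith
      have h3 : x ^ 2 ≤ x ^ N := pow_le_pow_right₀ (by omega) hN2
      nlinarith
    · have h2 := congrArg (fun z : ℤ => (z : ZMod 2)) h1
      have hx1 : ((x : ℤ) : ZMod 2) = 1 := by
        have h3 : Odd x := by
          rw [hx]
          exact Odd.pow (by exact_mod_cast hpo)
        obtain ⟨c, hc⟩ := h3
        rw [hc]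
        push_cast
        have : (2 : ZMod 2) = 0 := by decide
        rw [this]
        ring
      push_cast at h2
      rw [hx1] at h2
      have h4 : (2 : ZMod 2) = 0 := by decide
      rw [h4, zero_pow (by omega), zero_pow (by omega)] at h2
      simp only [one_pow, Finset.sum_const, Finset.card_range, nsmul_eq_mul, mul_one] at h2
      have h5 : (N : ZMod 2) = 1 := by
        obtain ⟨c, hc⟩ := ho
        rw [hc]
        push_cast
        rw [h4]
        ring
      rw [h5] at h2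
      exact absurd h2 (by decide)

end Pool.Agent.McF
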