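import Pool.Agent.McF.Desc
import Pool.Agent.McF.PowEq

set_option autoImplicit false

/-! McF13. Case I (elementary number theory). -/

namespace Pool.Agent.McF

private theorem caseI_aux {p a u r : ℕ} (hp : p.Prime) (hp2 : p ≠ 2) (hr : 1 ≤ r) (hu : 1 ≤ u)
    {Z s d : ℤ} (hd : d = 1 ∨ d = -1) (hZ : 1 ≤ Z) (hs : 1 ≤ s)
    (h1 : ((2 : ℤ) ^ a) ^ 2 * Z - d = (p : ℤ) ^ (2 * r + u) * s)
    (h2 : Z * s = (p : ℤ) ^ u - 1) : False := by
  have hp3 : 3 ≤ p := by
    have := hp.two_le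
    omega
  have hpo : Odd p := hp.odd_of_ne_two hp2
  obtain ⟨P, hP⟩ : ∃ P : ℤ, P = (p : ℤ) ^ r := ⟨_, rfl⟩
  have hPodd : Odd P := by
    rw [hP]
    exact Odd.pow (by exact_mod_cast hpo)
  have hP3 : 3 ≤ P := by
    have h3 : p ^ 1 ≤ p ^ r := Nat.pow_le_pow_right (by omega) hr
    rw [pow_one] at h3
    have h4 : 3 ≤ p ^ r := by omega
    rw [hP]
    exact_mod_cast h4
  have hpow : (p : ℤ) ^ (2 * r + u) = P ^ 2 * (1 + Z * s) := by
    rw [h2, hP, pow_add, mul_comm 2 r, pow_mul]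
    ring
  obtain ⟨M, hM⟩ : ∃ M : ℤ, M = (2 : ℤ) ^ a := ⟨_, rfl⟩
  have hM0 : 0 < M := by rw [hM]; positivity
  rw [← hM] at h1
  rw [hpow] at h1
  have h3 : Z * (M ^ 2 - P ^ 2 * s ^ 2) = P ^ 2 * s + d := by
    linear_combination h1
  have hd1 : -1 ≤ d := by rcases hd with h | h <;> omega
  have h4 : 0 < P ^ 2 * s + d := by
    have h5 : 9 ≤ P ^ 2 := by nlinarith
    have h6 : 9 ≤ P ^ 2 * s := by nlinarith
    omega
  have h5 : 0 < M ^ 2 - P ^ 2 * s ^ 2 := by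
    by_contra hneg
    push Not at hneg
    have h6 : Z * (M ^ 2 - P ^ 2 * s ^ 2) ≤ 0 :=
      mul_nonpos_of_nonneg_of_nonpos (by omega) hneg
    omega
  have h6 : P * s < M := by
    by_contra hneg
    push Not at hneg
    have h7 : M ^ 2 ≤ (P * s) ^ 2 := pow_le_pow_left₀ hM0.le hneg 2
    have h8 : (P * s) ^ 2 = P ^ 2 * s ^ 2 := by ring
    omega
  obtain ⟨e, he⟩ : ∃ e : ℤ, e = M - P * s := ⟨_, rfl⟩
  have he1 : 1 ≤ e := by omega
  have hMe : M = P * s + e := by omega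
  have h7 : s * P ^ 2 - 2 * s * Z * P * e - Z * e ^ 2 = -d := by
    rw [hMe] at h3
    linear_combination -h3
  obtain ⟨hs1, hdm⟩ := descent hs hZ he1 (by omega) hPodd hd h7
  refine no_pow hp hp2 hu hr (a := a) ?_
  rw [← h2, hpow, ← hM]
  rw [hs1, hdm] at h1
  rw [hs1]
  linear_combination h1

/-- Let `M = 2^a`. `M ∣ Z` (`M ∣ Z (M Z - d)`, and `M Z - d` is prime to `M`): `Z = M Z'`, `Z' (M² Z' - d) = p^b (p^b - p^r)`.
`b < r`: the left side is `M² Z'² - d Z' ≥ 0`, the right side is negative. Suppose `b > r`, `u = b - r`: the right side is `p^(b+r) (p^u - 1)`, not 0. `Z'`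
and `M² Z' - d` are coprime, so `p^(b+r)` divides one of them. It does not divide `Z'`: `0 < |Z'| ≤ |Z| ≤ p^b < p^(b+r)`. So
`M² Z' - d = p^(b+r) s`, `Z' s = p^u - 1 > 0`. Replacing `(Z', s, d)` by `(-Z', -s, -d)` we may assume `Z', s > 0` (the equations are kept). Let
`P = p^r`. Since `p^u = 1 + Z' s`: `M² Z' = d + P² p^u s = d + P² s + P² s² Z'`, i.e. `Z' (M² - P² s²) = P² s + d > 0`, so `M > P s`; `M = P s + e`,
`e ≥ 1`: `Z' e (2 P s + e) = P² s + d`, i.e. `s P² - 2 s Z' P e - Z' e² = -d`. `descent`: `s = 1`, `d = -1`; so `Z' = p^u - 1` and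
`M² Z' + 1 = p^(b+r) = p^(2r+u)`: `no_pow`. -/
theorem caseI {p a b r : ℕ} (hp : p.Prime) (hp2 : p ≠ 2) (hr : 1 ≤ r) {Z d : ℤ}
    (hd : d = 1 ∨ d = -1) (hZ : |Z| ≤ (p : ℤ) ^ b)
    (h : Z * (2 ^ a * Z - d) = 2 ^ a * (p : ℤ) ^ b * ((p : ℤ) ^ b - (p : ℤ) ^ r)) : b = r := by
  have hp3 : 3 ≤ p := by
    have := hp.two_le
    omega
  have hdd : d * d = 1 := by rcases hd with h | h <;> rw [h] <;> norm_num
  obtain ⟨M, hM⟩ : ∃ M : ℤ, M = (2 : ℤ) ^ a := ⟨_, rfl⟩
  have hM1 : 1 ≤ M := by rw [hM]; exact one_le_pow₀ (by norm_num)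
  rw [← hM] at h
  -- `M` divides `Z`
  have hco : IsCoprime M (M * Z - d) := ⟨Z * d, -d, by linear_combination hdd⟩
  have hMZ : M ∣ Z := by
    refine hco.dvd_of_dvd_mul_right ?_
    rw [h]
    exact ⟨(p : ℤ) ^ b * ((p : ℤ) ^ b - (p : ℤ) ^ r), by ring⟩
  obtain ⟨Y, hY⟩ := hMZ
  have hY1 : Y * (M ^ 2 * Y - d) = (p : ℤ) ^ b * ((p : ℤ) ^ b - (p : ℤ) ^ r) := by
    have h1 : M * (Y * (M ^ 2 * Y - d)) = M * ((p : ℤ) ^ b * ((p : ℤ) ^ b - (p : ℤ) ^ r)) := by
      rw [hY] at h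
      linear_combination h
    exact mul_left_cancel₀ (by omega) h1
  have hpb : (0 : ℤ) < (p : ℤ) ^ b := by
    have : (0 : ℤ) < p := by exact_mod_cast hp.pos
    positivity
  have hYle : |Y| ≤ (p : ℤ) ^ b := by
    refine le_trans ?_ hZ
    rw [hY, abs_mul, abs_of_pos (by omega : (0 : ℤ) < M)]
    nlinarith [abs_nonneg Y]
  have hp1 : (1 : ℤ) < p := by exact_mod_cast hp.one_lt
  rcases lt_trichotomy b r with hlt | heq | hgt
  · exfalso
    have h1 : (p : ℤ) ^ b < (p : ℤ) ^ r := pow_lt_pow_right₀ hp1 hlt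
    have h2 : (p : ℤ) ^ b * ((p : ℤ) ^ b - (p : ℤ) ^ r) < 0 :=
      mul_neg_of_pos_of_neg hpb (by omega)
    have h3 : 0 ≤ Y * (M ^ 2 * Y - d) := by
      have h4 : |Y| ≤ Y ^ 2 := by
        rw [← sq_abs]
        rcases eq_or_ne Y 0 with h0 | h0
        · rw [h0]
          simp
        · have h5 : 1 ≤ |Y| := Int.one_le_abs h0
          nlinarith
      have h5 : Y ^ 2 ≤ M ^ 2 * Y ^ 2 := by
        have h6 : 1 ≤ M ^ 2 := by nlinarith
        nlinarith [sq_nonneg Y]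
      have h6 : d * Y ≤ |Y| := by
        rcases hd with h | h
        · rw [h, one_mul]
          exact le_abs_self Y
        · rw [h, neg_one_mul]
          exact neg_le_abs Y
      have h7 : Y * (M ^ 2 * Y - d) = M ^ 2 * Y ^ 2 - d * Y := by ring
      omega
    omega
  · exact heq
  · exfalso
    obtain ⟨u, rfl⟩ : ∃ u, b = r + u := ⟨b - r, by omega⟩
    have hu : 1 ≤ u := by omega
    have hQ : (p : ℤ) ^ (r + u) * ((p : ℤ) ^ (r + u) - (p : ℤ) ^ r) =
        (p : ℤ) ^ (2 * r + u) * ((p : ℤ) ^ u - 1) := by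
      have h1 : (p : ℤ) ^ (2 * r + u) = (p : ℤ) ^ (r + u) * (p : ℤ) ^ r := by
        rw [← pow_add]
        congr 1
        omega
      rw [h1, pow_add]
      ring
    rw [hQ] at hY1
    have hpu : (1 : ℤ) < (p : ℤ) ^ u := one_lt_pow₀ hp1 (by omega)
    have hbig : (0 : ℤ) < (p : ℤ) ^ (2 * r + u) := by
      have : (0 : ℤ) < p := by exact_mod_cast hp.pos
      positivity
    have hYne : Y ≠ 0 := by
      rintro rfl
      rw [zero_mul] at hY1
      have h1 : 0 < (p : ℤ) ^ (2 * r + u) * ((p : ℤ) ^ u - 1) := mul_pos hbig (by omega)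
      omega
    have hco2 : IsCoprime Y (M ^ 2 * Y - d) := ⟨M ^ 2 * d, -d, by linear_combination hdd⟩
    have hpZ : Prime (p : ℤ) := Nat.prime_iff_prime_int.1 hp
    have hdvd : (p : ℤ) ^ (2 * r + u) ∣ Y * (M ^ 2 * Y - d) := by
      rw [hY1]
      exact Dvd.intro _ rfl
    have hdvd2 : (p : ℤ) ^ (2 * r + u) ∣ M ^ 2 * Y - d := by
      by_cases hpY : (p : ℤ) ∣ Y
      · exfalso
        have h1 : IsCoprime (p : ℤ) (M ^ 2 * Y - d) := by
          obtain ⟨c, hc⟩ := hpY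
          rw [hc] at hco2 ⊢
          exact hco2.of_mul_left_left
        have h2 : (p : ℤ) ^ (2 * r + u) ∣ Y := h1.pow_left.dvd_of_dvd_mul_right hdvd
        have h3 : (p : ℤ) ^ (2 * r + u) ≤ |Y| :=
          Int.le_of_dvd (abs_pos.2 hYne) ((dvd_abs _ _).2 h2)
        have h4 : (p : ℤ) ^ (r + u) < (p : ℤ) ^ (2 * r + u) :=
          pow_lt_pow_right₀ hp1 (by omega)
        omega
      · have h1 : IsCoprime (p : ℤ) Y := (Irreducible.coprime_iff_not_dvd hpZ.irreducible).2 hpY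
        exact h1.pow_left.dvd_of_dvd_mul_left hdvd
    obtain ⟨s, hs⟩ := hdvd2
    have hYs : Y * s = (p : ℤ) ^ u - 1 := by
      have h1 : (p : ℤ) ^ (2 * r + u) * (Y * s) = (p : ℤ) ^ (2 * r + u) * ((p : ℤ) ^ u - 1) := by
        rw [← hY1, hs]
        ring
      exact mul_left_cancel₀ hbig.ne' h1
    have hYs0 : 0 < Y * s := by omega
    rw [hM] at hs
    rcases lt_or_gt_of_ne hYne with hneg | hpos
    · have hsneg : s < 0 := by
        by_contra h1
        push Not at h1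
        have : Y * s ≤ 0 := mul_nonpos_of_nonpos_of_nonneg hneg.le h1
        omega
      refine caseI_aux hp hp2 hr hu (a := a) (Z := -Y) (s := -s) (d := -d) ?_ (by omega)
        (by omega) ?_ ?_
      · rcases hd with h | h
        · right; rw [h]
        · left; rw [h]; norm_num
      · linear_combination -hs
      · linear_combination hYs
    · have hspos : 0 < s := by
        by_contra h1
        push Not at h1
        have : Y * s ≤ 0 := mul_nonpos_of_nonneg_of_nonpos hpos.le h1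
        omega
      exact caseI_aux hp hp2 hr hu hd (by omega) (by omega) hs hYs

end Pool.Agent.McF
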