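import Pool.Agent.McF.Defs

set_option autoImplicit false

/-! McF14. Case II (elementary number theory). -/

namespace Pool.Agent.McF

/-- `b = 0`: `φ` is `0` or `1`, the left side is `± 1`, the right side `≥ 3`. `b ≥ 1`: modulo `p^b` the equation says
`p^b ∣ 2 φ (2^(c-1) φ + sg)`, `p` is odd and the factors `φ`, `2^(c-1) φ + sg` are coprime, so `p^b ∣ φ` or `p^b ∣ 2^(c-1) φ + sg`. `φ = 0` or `p^b`: the
left side is `± p^b`, the right side is `p^(r+b) > p^b`: impossible. So `1 ≤ φ ≤ p^b - 1` and `p^b ∣ 2^(c-1) φ + sg`. `c = 1`: `φ + sg` is `0` or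
`p^b`, in both cases the left side is `p^b`: impossible. So `c ≥ 3`. -/
theorem caseII {p c b r : ℕ} (hp : p.Prime) (hp2 : p ≠ 2) (hr : 1 ≤ r) (hc : 1 ≤ c) (hc2 : c ≠ 2)
    {φ sg : ℤ} (hsg : sg = 1 ∨ sg = -1) (h0 : 0 ≤ φ) (h1 : φ ≤ (p : ℤ) ^ b) (h2 : 0 ≤ φ + sg)
    (h3 : φ + sg ≤ (p : ℤ) ^ b)
    (h : 2 ^ c * φ * ((p : ℤ) ^ b - φ) + sg * ((p : ℤ) ^ b - 2 * φ) = (p : ℤ) ^ (r + b)) :
    3 ≤ c ∧ 1 ≤ b ∧ 1 ≤ φ ∧ φ + 1 ≤ (p : ℤ) ^ b := by
  have hp3 : 3 ≤ p := by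
    have := hp.two_le
    omega
  have hP1 : (1 : ℤ) ≤ (p : ℤ) ^ b := by
    have : 0 < (p : ℤ) ^ b := by positivity
    omega
  have hR : 3 * (p : ℤ) ^ b ≤ (p : ℤ) ^ (r + b) := by
    rw [pow_add]
    have h4 : (3 : ℤ) ≤ (p : ℤ) ^ r := by
      have h5 : (p : ℤ) ^ 1 ≤ (p : ℤ) ^ r := pow_le_pow_right₀ (by exact_mod_cast hp.one_le) hr
      have h6 : (3 : ℤ) ≤ (p : ℤ) := by exact_mod_cast hp3
      linarith [pow_one (p : ℤ)]
    nlinarith
  have hφ1 : 1 ≤ φ := by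
    rcases lt_or_ge 0 φ with hh | hh
    · omega
    · have : φ = 0 := by omega
      subst this
      rcases hsg with rfl | rfl <;> nlinarith
  have hφ2 : φ + 1 ≤ (p : ℤ) ^ b := by
    rcases lt_or_ge φ ((p : ℤ) ^ b) with hh | hh
    · omega
    · have h7 : φ = (p : ℤ) ^ b := le_antisymm h1 hh
      rw [← h7] at h
      rcases hsg with rfl | rfl <;> nlinarith
  have hb : 1 ≤ b := by
    rcases Nat.eq_zero_or_pos b with rfl | hh
    · simp at hφ2
      omega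
    · exact hh
  refine ⟨?_, hb, hφ1, hφ2⟩
  by_contra hcc
  have hc1 : c = 1 := by omega
  subst hc1
  have hdvd : (p : ℤ) ^ b ∣ 2 * (φ * (φ + sg)) := by
    refine ⟨2 * φ + sg - (p : ℤ) ^ r, ?_⟩
    have h8 : (p : ℤ) ^ (r + b) = (p : ℤ) ^ r * (p : ℤ) ^ b := pow_add _ _ _
    rw [h8] at h
    linear_combination -h
  have hco : IsCoprime ((p : ℤ) ^ b) 2 := by
    apply IsCoprime.pow_left
    rw [Int.isCoprime_iff_gcd_eq_one]
    have := (Nat.coprime_primes hp Nat.prime_two).2 hp2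
    exact_mod_cast this
  have hdvd2 : (p : ℤ) ^ b ∣ φ * (φ + sg) := hco.dvd_of_dvd_mul_left hdvd
  have hpp : Prime (p : ℤ) := Nat.prime_iff_prime_int.1 hp
  have hcop2 : IsCoprime φ (φ + sg) := by
    rcases hsg with rfl | rfl
    · exact ⟨-1, 1, by ring⟩
    · exact ⟨1, -1, by ring⟩
  have hdiv : (p : ℤ) ^ b ∣ φ ∨ (p : ℤ) ^ b ∣ φ + sg := by
    by_cases hpd : (p : ℤ) ∣ φ
    · left
      have h9 : IsCoprime ((p : ℤ) ^ b) (φ + sg) := by
        apply IsCoprime.pow_left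
        exact hcop2.of_isCoprime_of_dvd_left hpd
      exact h9.dvd_of_dvd_mul_right hdvd2
    · right
      have h9 : IsCoprime ((p : ℤ) ^ b) φ := by
        apply IsCoprime.pow_left
        exact (Prime.coprime_iff_not_dvd hpp).2 hpd
      exact h9.dvd_of_dvd_mul_left hdvd2
  rcases hdiv with hd | hd
  · have := Int.le_of_dvd (by omega) hd
    omega
  · rcases lt_or_ge 0 (φ + sg) with hh | hh
    · have h10 := Int.le_of_dvd hh hd
      have h11 : φ + sg = (p : ℤ) ^ b := le_antisymm h3 h10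
      rcases hsg with rfl | rfl
      · rw [← h11] at h hR
        nlinarith
      · omega
    · have h12 : φ + sg = 0 := by omega
      rcases hsg with rfl | rfl
      · omega
      · have h13 : φ = 1 := by omega
        subst h13
        nlinarith

end Pool.Agent.McF
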