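import Mathlib

set_option autoImplicit false

/-! # McFarland's conjecture on abelian difference sets with multiplier -1 (MP_6085d6_co): definitions

Paper proof: `/team-store/McF_Proof.md` (helper54). Functions `F : G → ℤ` on finite abelian groups, their character sums, `Flat F m` =
all nontrivial character sums are `m` or `-m`. Everything is used for indicator functions (`IsInd`). -/

namespace Pool.Agent.McF

open Finset

/-- `F` is the indicator function of a set. -/
def IsInd {X : Type} (F : X → ℤ) : Prop := ∀ x, F x = 0 ∨ F x = 1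

/-- The indicator function of a finite set. -/
def ind {X : Type} [DecidableEq X] (D : Finset X) : X → ℤ := fun x => if x ∈ D then 1 else 0

section

variable {G : Type} [AddCommGroup G] [Fintype G]

/-- The character sum `∑ F(x) χ(x)`. -/
noncomputable def hat (F : G → ℤ) (χ : AddChar G ℂ) : ℂ := ∑ x, (F x : ℂ) * χ x

/-- All nontrivial character sums of `F` are `m` or `-m`. -/
def Flat (F : G → ℤ) (m : ℕ) : Prop :=
  ∀ χ : AddChar G ℂ, χ ≠ 0 → hat F χ = (m : ℂ) ∨ hat F χ = -(m : ℂ)

end

/-- **Equation (B)** with its side conditions. -/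
structure EqB (p b r c A B : ℕ) : Prop where
  prime : p.Prime
  odd : p ≠ 2
  hb : 1 ≤ b
  hr : 1 ≤ r
  hc : 3 ≤ c
  hA : 1 ≤ A
  hB : 1 ≤ B
  sum : A + B = p ^ b
  eq : 2 ^ c * A * B + A = p ^ (r + b) + B

end Pool.Agent.McF
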