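import Pool.Agent.McF.Defs

set_option autoImplicit false

/-! McF11. A descent. -/

namespace Pool.Agent.McF

private theorem descent_aux {s Z d : ℤ} (hs : 1 ≤ s) (hZ : 1 ≤ Z) (hd : d = 1 ∨ d = -1) (N : ℕ) :
    ∀ P e : ℤ, 1 ≤ e → e ≤ N → 1 ≤ P → Odd P →
      s * P ^ 2 - 2 * s * Z * P * e - Z * e ^ 2 = -d → s = 1 ∧ d = -1 := by
  induction N with
  | zero =>
    intro P e he heN
    have h0 : e ≤ 0 := by exact_mod_cast heN
    omega
  | succ N ih =>
    intro P e he heN hP hodd h
    have hd1 : d ≤ 1 := by rcases hd with h | h <;> omega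
    have hd2 : -1 ≤ d := by rcases hd with h | h <;> omega
    have hsp : 0 < s := by omega
    have hZp : 0 < Z := by omega
    have hep : 0 < e := by omega
    have hPp : 0 < P := by omega
    obtain ⟨q, hq⟩ : ∃ q : ℤ, q = P - 2 * e * Z := ⟨_, rfl⟩
    have hqodd : Odd q := by
      rw [hq]
      refine hodd.sub_even ⟨e * Z, by ring⟩
    have h1 : s * P * q = Z * e ^ 2 - d := by
      rw [hq]
      linear_combination h
    have h2 : 1 ≤ Z * e ^ 2 := by
      have : 0 < Z * e ^ 2 := by positivity
      omega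
    have h3 : 0 ≤ s * P * q := by rw [h1]; omega
    have hq0 : 0 ≤ q := by
      by_contra hneg
      push Not at hneg
      have h4 : s * P * q < 0 := mul_neg_of_pos_of_neg (by positivity) hneg
      omega
    have hq1 : 1 ≤ q := by
      rcases hqodd with ⟨k, hk⟩
      omega
    have hqp : 0 < q := by omega
    obtain ⟨f, hf⟩ : ∃ f : ℤ, f = e - 2 * s * q := ⟨_, rfl⟩
    have hPq : P = q + 2 * e * Z := by omega
    have h5 : Z * e * f = s * q ^ 2 + d := by
      rw [hf]
      rw [hPq] at h1
      linear_combination -h1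
    have h6 : 1 ≤ s * q ^ 2 := by
      have : 0 < s * q ^ 2 := by positivity
      omega
    have hf0 : 0 ≤ f := by
      by_contra hneg
      push Not at hneg
      have h4 : Z * e * f < 0 := mul_neg_of_pos_of_neg (by positivity) hneg
      omega
    have hsq : 1 ≤ s * q := by
      have : 0 < s * q := by positivity
      omega
    have hfe : f ≤ N := by
      have h7 : e ≤ N + 1 := by exact_mod_cast heN
      have h8 : 2 * s * q = 2 * (s * q) := by ring
      omega
    have h7 : s * q ^ 2 - 2 * s * Z * q * f - Z * f ^ 2 = -d := by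
      have h8 : e = f + 2 * s * q := by omega
      rw [h8] at h5
      linear_combination -h5
    rcases eq_or_lt_of_le hf0 with hz | hpos
    · rw [← hz] at h5
      have h8 : s * q ^ 2 = -d := by
        linear_combination -h5
      have h9 : d = -1 := by
        rcases hd with h | h
        · omega
        · exact h
      refine ⟨?_, h9⟩
      rw [h9] at h8
      have h10 : s ≤ s * q ^ 2 := by
        have h11 : 1 ≤ q ^ 2 := by
          have : 0 < q ^ 2 := by positivity
          omega
        nlinarith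
      omega
    · exact ih q f hpos hfe hq1 hqodd h7

/-- Induction on `e` (strong, over natural numbers). `s P (P - 2 e Z) = Z e² - d ≥ 0`, so `q = P - 2 e Z ≥ 0`; `q` is odd, so `q ≥ 1`. Substituting
`P = q + 2 e Z`: `Z e (e - 2 s q) = s q² + d ≥ 0`, so `f = e - 2 s q ≥ 0`, and `s q² - 2 s Z q f - Z f² = -d`, `f < e`. If `f = 0` then `s q² = -d`, so
`s = 1` (and `q = 1`) and `d = -1`. If `f ≥ 1` use the induction hypothesis for `(q, f)`. -/
theorem descent {s Z P e d : ℤ} (hs : 1 ≤ s) (hZ : 1 ≤ Z) (he : 1 ≤ e) (hP : 1 ≤ P) (hodd : Odd P)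
    (hd : d = 1 ∨ d = -1) (h : s * P ^ 2 - 2 * s * Z * P * e - Z * e ^ 2 = -d) :
    s = 1 ∧ d = -1 :=
  descent_aux hs hZ hd e.toNat P e he (by omega) hP hodd h

end Pool.Agent.McF
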