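import Pool.Agent.McF.Four

set_option autoImplicit false

/-! McF02. Divisibility by algebraic integers. Values of characters of finite groups are roots of unity, hence integral over `ℤ`; a
rational number which is integral over `ℤ` is an integer (`IsIntegrallyClosed ℤ`, `IsIntegrallyClosed.isIntegral_iff` /
`IsIntegral` of an element of `ℚ` inside `ℂ`, `isIntegral_algebraMap_iff`). -/

namespace Pool.Agent.McF

open Finset

variable {G : Type} [AddCommGroup G] [Fintype G]

/-- If `a z = b` with integers `a ≠ 0`, `b` and an algebraic integer `z`, then `a ∣ b` (`z = b / a` is rational and integral). -/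
theorem dvd_of_integral {a b : ℤ} (ha : a ≠ 0) {z : ℂ} (hz : IsIntegral ℤ z)
    (h : (a : ℂ) * z = b) : a ∣ b := by
  have ha' : (a : ℂ) ≠ 0 := by exact_mod_cast ha
  have hz' : z = algebraMap ℚ ℂ ((b : ℚ) / a) := by
    rw [map_div₀, eq_div_iff (by simpa using ha')]
    simp only [map_intCast]
    rw [← h]
    ring
  rw [hz', isIntegral_algebraMap_iff (algebraMap ℚ ℂ).injective] at hz
  obtain ⟨n, hn⟩ := IsIntegrallyClosed.isIntegral_iff.1 hz
  refine ⟨n, ?_⟩
  have ha'' : (a : ℚ) ≠ 0 := by exact_mod_cast ha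
  rw [eq_div_iff ha''] at hn
  have h2 : (n : ℚ) * a = b := by simpa using hn
  have h3 : n * a = b := by exact_mod_cast h2
  rw [← h3]
  ring

/-- `χ(x) ^ |G| = χ(|G| x) = 1`. -/
theorem char_integral (χ : AddChar G ℂ) (x : G) : IsIntegral ℤ (χ x) := by
  have h : χ x ^ Fintype.card G = 1 := by
    rw [← AddChar.map_nsmul_eq_pow, card_nsmul_eq_zero, AddChar.map_zero_eq_one]
  refine IsIntegral.of_pow (Fintype.card_pos (α := G)) ?_
  rw [h]
  exact isIntegral_one

theorem hat_integral (F : G → ℤ) (χ : AddChar G ℂ) : IsIntegral ℤ (hat F χ) := by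
  unfold hat
  refine IsIntegral.sum _ fun x _ => IsIntegral.mul ?_ (char_integral χ x)
  exact isIntegral_algebraMap (R := ℤ) (A := ℂ) (x := F x)

/-- `inversion`: `|G| F x - ∑ F = ∑_{χ ≠ 0} hat F χ χ(-x) = m z`, `z` a sum of `± χ(-x)`, an algebraic integer (`m = 0`: all
the sums are zero). -/
theorem dvd_of_flat {F : G → ℤ} {m : ℕ} (h : Flat F m) (x : G) :
    (m : ℤ) ∣ (Fintype.card G : ℤ) * F x - ∑ y, F y := by
  classical
  have h1 : ∀ χ : AddChar G ℂ, ∃ e : ℤ, χ ≠ 0 → hat F χ = (m : ℂ) * e := by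
    intro χ
    by_cases hχ : χ = 0
    · exact ⟨0, fun h => absurd hχ h⟩
    · rcases h χ hχ with h | h
      · exact ⟨1, fun _ => by rw [h]; simp⟩
      · exact ⟨-1, fun _ => by rw [h]; simp⟩
  choose e he using h1
  set z : ℂ := ∑ χ ∈ (univ : Finset (AddChar G ℂ)).erase 0, (e χ : ℂ) * χ (-x) with hz
  have hzi : IsIntegral ℤ z := by
    refine IsIntegral.sum _ fun χ _ => IsIntegral.mul ?_ (char_integral χ (-x))
    exact isIntegral_algebraMap (R := ℤ) (A := ℂ) (x := e χ)
  have h2 := inversion F x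
  rw [← Finset.add_sum_erase univ _ (mem_univ (0 : AddChar G ℂ))] at h2
  have h3 : hat F (0 : AddChar G ℂ) * (0 : AddChar G ℂ) (-x) = ∑ y, (F y : ℂ) := by
    simp [hat]
  have h4 : ∑ χ ∈ (univ : Finset (AddChar G ℂ)).erase 0, hat F χ * χ (-x) = (m : ℂ) * z := by
    rw [hz, mul_sum]
    refine sum_congr rfl fun χ hχ => ?_
    rw [he χ (Finset.ne_of_mem_erase hχ)]
    ring
  rw [h3, h4] at h2
  have h5 : ((m : ℤ) : ℂ) * z = (((Fintype.card G : ℤ) * F x - ∑ y, F y : ℤ) : ℂ) := by
    push_cast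
    rw [← h2]
    ring
  rcases Nat.eq_zero_or_pos m with hm | hm
  · rw [hm] at h5 ⊢
    simp only [Nat.cast_zero, Int.cast_zero, zero_mul] at h5
    have h6 : ((Fintype.card G : ℤ) * F x - ∑ y, F y : ℤ) = 0 := by exact_mod_cast h5.symm
    rw [h6]
    simp
  · exact dvd_of_integral (by exact_mod_cast hm.ne') hzi h5

end Pool.Agent.McF
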