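import Pool.Agent.McF.Defs

set_option autoImplicit false

/-! McF22b. Equation (B) with `r = 4`, `b = 2`. -/

namespace Pool.Agent.McF

private theorem g_one {u y : ℤ} (hu : 1 ≤ u) (hy : 1 ≤ y)
    (h1 : u ^ 2 + y ^ 2 = 1 * ((u - 1) ^ 2 + u * y)) : u = 8 ∧ (y = 3 ∨ y = 5) := by
  have h : (y - 2) * (u - y - 2) = 3 := by linarith [h1]
  have hd : (y - 2) ∣ 3 := Dvd.intro _ h
  have h3 : y - 2 ≤ 3 := Int.le_of_dvd (by norm_num) hd
  have hy5 : y ≤ 5 := by linarith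
  interval_cases y
  · omega
  · omega
  · omega
  · omega
  · omega

private theorem four_neg {u y g K : ℤ} (hu : 1 ≤ u) (hy : 1 ≤ y) (hg : 1 ≤ g)
    (huy : 6 ≤ u + y) (hK : 4 ≤ K) (h4 : 4 ∣ K)
    (h1 : u ^ 2 + y ^ 2 = g * ((u - 1) ^ 2 + u * y))
    (h2 : K * y = g * (u + y - 2) - 2 * u) : False := by
  rcases eq_or_lt_of_le hg with hg1 | hg1
  · subst hg1
    obtain ⟨rfl, rfl | rfl⟩ := g_one hu hy h1 <;> omega
  have hg2 : 2 ≤ g := hg1
  rcases le_or_gt y u with hyu | hyu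
  · have e1 : 0 ≤ (g - 2) * ((u - 1) ^ 2 + u * y) :=
      mul_nonneg (by linarith)
        (add_nonneg (sq_nonneg _) (mul_nonneg (by linarith) (by linarith)))
    have e2 : 0 ≤ y * (u - y) := mul_nonneg (by linarith) (by linarith)
    have e3 : 0 ≤ u * (u + y - 6) := mul_nonneg (by linarith) (by linarith)
    nlinarith
  have hw : y * (y - g * u) = g * (u - 1) ^ 2 - u ^ 2 := by linarith [h1]
  obtain ⟨w, rfl⟩ : ∃ w, y = g * u + w := ⟨y - g * u, by ring⟩
  have hw' : (g * u + w) * w = g * (u - 1) ^ 2 - u ^ 2 := by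
    have : g * u + w - g * u = w := by ring
    rwa [this] at hw
  have hwu : w ≤ u - 2 := by
    by_contra hcon
    have hcon' : 0 ≤ w - (u - 1) := by linarith [not_le.1 hcon]
    have e0 : 0 ≤ u - 1 := by linarith
    have e1 : 0 ≤ (g * u + w) * (w - (u - 1)) := mul_nonneg (by linarith) hcon'
    have e2 : 0 ≤ (w - (u - 1)) * (u - 1) := mul_nonneg hcon' e0
    have e3 : 0 ≤ g * (u - 1) := mul_nonneg (by linarith) e0
    nlinarith [sq_nonneg (u - 1)]
  rcases le_or_gt 0 w with hw0 | hw0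
  · have hu2 : 2 ≤ u := by linarith
    have h5 : (g * u + w) * (K - g) = g * (u - 2) - 2 * u := by linarith [h2]
    rcases eq_or_lt_of_le hg2 with hg3 | hg3
    · subst hg3
      have e1 : 0 ≤ (2 * u + w) * (K - 4) := mul_nonneg (by linarith) (by linarith)
      nlinarith
    have hg3' : 3 ≤ g := hg3
    have e1 : 0 ≤ (u - 2) * (g - 3) := mul_nonneg (by linarith) (by linarith)
    have e2 : K - g = 0 := by
      by_contra hne
      rcases lt_or_gt_of_ne hne with hlt | hgt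
      · have : (g * u + w) * (K - g) ≤ (g * u + w) * (-1) :=
          mul_le_mul_of_nonneg_left (by linarith [Int.lt_iff_add_one_le.1 hlt]) (by linarith)
        nlinarith
      · have : (g * u + w) * 1 ≤ (g * u + w) * (K - g) :=
          mul_le_mul_of_nonneg_left (by linarith [Int.lt_iff_add_one_le.1 hgt]) (by linarith)
        nlinarith
    have e3 : (g - 2) * (u - 2) = 4 := by
      rw [e2, mul_zero] at h5
      linarith
    have e4 : K = g := by linarith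
    subst e4
    have e5 : (K - 2) ∣ 4 := Dvd.intro _ e3
    have e6 : K - 2 ≤ 4 := Int.le_of_dvd (by norm_num) e5
    have e7 : K = 4 := by omega
    subst e7
    have e8 : u = 4 := by linarith
    subst e8
    have e9 : w ≤ 2 := by linarith
    interval_cases w <;> omega
  · have e1 : (g * u + w) * w < 0 := mul_neg_of_pos_of_neg (by linarith) hw0
    have hu3 : u ≤ 3 := by
      by_contra hcon
      have hcon' : 4 ≤ u := by linarith [not_le.1 hcon]
      have e2 : 0 ≤ (g - 2) * (u - 1) ^ 2 := mul_nonneg (by linarith) (sq_nonneg _)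
      nlinarith
    interval_cases u
    · have e3 : (g * 1 + w) * w = -1 := by rw [hw']; ring
      nlinarith
    · have hg4 : g ≤ 3 := by nlinarith
      have e4 : 0 ≤ (g * 2 + w) * (K - 4) := mul_nonneg (by linarith) (by linarith)
      interval_cases g <;> nlinarith
    · have hg4 : g ≤ 2 := by nlinarith
      have e4 : 0 ≤ (g * 3 + w) * (K - 4) := mul_nonneg (by linarith) (by linarith)
      interval_cases g
      nlinarith

/-- Pure number theory. (G1): `g = 1` means `u (y - 2) = y² - 1`; `y = 1` gives `u = 0`, `y = 2` is impossible, `y ≥ 3`: `u = y + 2 + 3 / (y - 2)`, so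
`(u, y) = (8, 3)` or `(8, 5)`.
`κ > 0`, so `κ ≥ 4`: `4 y ≤ 2 u - g (u + y - 2)`, so `(2 - g) u ≥ (4 + g) y - 2 g ≥ 4 - g`, so `g = 1` (`g ≥ 2` gives `(2 - g) u ≤ 2 - g`), and (G1):
`κ y = u - y + 2`: `3 κ = 7`, or `5 κ = 5`: no.
`κ < 0`, `K = -κ ≥ 4`, `K y = g (u + y - 2) - 2 u`.
 `y ≤ u`: if `g ≥ 2` then `u² + u y ≥ u² + y² ≥ 2 (u - 1)² + 2 u y`, so `u (u + y - 4) + 2 ≤ 0`, `u + y ≤ 3`, against `u + y ≥ 6`. So `g = 1`: (G1): `K y = y - u - 2 < 0`: no.
 `y > u`: `g ≥ 2` by (G1). Let `w = y - g u`: `y w = g (u - 1)² - u²`, and `w ≤ u - 2` (if `w ≥ u - 1` then `y w ≥ (g u + u - 1) (u - 1) > g (u - 1)² - u²`).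
  `w ≥ 0` (so `u ≥ 2`): `y (K - g) = g (u - 2) - 2 u` =: num. `g ≥ 3`: `|num| < g u ≤ y`, so `num = 0`, `K = g`, `(g - 2) (u - 2) = 4`: `(g, u) = (3, 6), (4, 4), (6, 3)`,
  and `4 ∣ K = g`: `g = u = 4`, `y w = 20`, `y = 16 + w`: no. `g = 2`: `num = -4`, `y ∣ 4`, `K = 2 - 4 / y ≤ 1`: no.
  `w < 0`: `g (u - 1)² < u²`, `g ≥ 2`: `u = 1` (`y w = -1`, `y = 1 = u`: no), `(g, u) = (2, 2), (2, 3), (3, 2)`: `num = -4`, `y ∣ 4`, `y > u ≥ 2`, so `y = 4`,
  `K = g - 1 ≤ 2`: no. (`u ≥ 4`: `2 (u - 1)² ≥ u²`.) -/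
theorem four_nt {u y g κ : ℤ} (hu : 1 ≤ u) (hy : 1 ≤ y) (hg : 1 ≤ g) (huy : 6 ≤ u + y)
    (h4 : 4 ∣ κ) (h0 : κ ≠ 0) (h1 : u ^ 2 + y ^ 2 = g * ((u - 1) ^ 2 + u * y))
    (h2 : κ * y = 2 * u - g * (u + y - 2)) : False := by
  obtain ⟨c, rfl⟩ := h4
  rcases lt_or_gt_of_ne h0 with hneg | hpos
  · refine four_neg (K := -(4 * c)) hu hy hg huy ?_ ⟨-c, by ring⟩ h1 (by linarith)
    omega
  · have hc : 4 ≤ 4 * c := by omega
    have e1 : 0 ≤ (4 * c - 4) * y := mul_nonneg (by linarith) (by linarith)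
    rcases eq_or_lt_of_le hg with hg1 | hg1
    · subst hg1
      obtain ⟨rfl, rfl | rfl⟩ := g_one hu hy h1 <;> omega
    · have e2 : 0 ≤ (g - 2) * (u + y - 2) :=
        mul_nonneg (by linarith [Int.lt_iff_add_one_le.1 hg1]) (by linarith)
      nlinarith

end Pool.Agent.McF
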