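import Pool.Agent.McF.FourSet
import Pool.Agent.McF.FourNT

set_option autoImplicit false

/-! McF22c. Equation (B) with `r = 4`, `b = 2`. -/

namespace Pool.Agent.McF

variable {p c A B : ℕ}

/-- `four_setup`, `four_nt`; `u = 0` means `A = 1`, `B = p² - 1`, `2^c = p^4 + p^2 + 2 = 4` mod 8: a contradiction to `c ≥ 3`. -/
theorem EqB.four_two (h : EqB p 2 4 c A B) (hp : 5 ≤ p) (hd : (p - 1) ∣ B) : False := by
  obtain ⟨u, y, g, κ, hu, hy, hg, huy, h4, h0, hA, hB, h1, h2⟩ := four_setup h hd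
  have hpz : (5 : ℤ) ≤ p := by exact_mod_cast hp
  rcases hu.lt_or_eq with hu1 | hu0
  · exact four_nt (by omega) hy hg (by omega) h4 h0 h1 h2
  · subst hu0
    have hyp : y = p + 1 := by linarith
    have hA1 : (A : ℤ) = 1 := by rw [hA]; ring
    have hB1 : (B : ℤ) = (p : ℤ) ^ 2 - 1 := by rw [hB, hyp]; ring
    have heq : (2 : ℤ) ^ c * A * B + A = (p : ℤ) ^ (4 + 2) + B := by exact_mod_cast h.eq
    rw [hA1, hB1] at heq
    have hne : (p : ℤ) ^ 2 - 1 ≠ 0 := by nlinarith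
    have h3 : (2 : ℤ) ^ c = (p : ℤ) ^ 4 + (p : ℤ) ^ 2 + 2 := by
      apply mul_right_cancel₀ hne
      linear_combination heq
    obtain ⟨e, he⟩ : ∃ e, c = 3 + e := ⟨c - 3, by have := h.hc; omega⟩
    have hodd : Odd p := h.prime.odd_of_ne_two h.odd
    obtain ⟨a, ha⟩ := hodd
    rw [he, pow_add] at h3
    have ha2 : (p : ℤ) = 2 * a + 1 := by exact_mod_cast ha
    have h5 : ∃ z : ℤ, (p : ℤ) ^ 2 = 8 * z + 1 := by
      obtain ⟨b, hb⟩ : ∃ b : ℤ, (a : ℤ) * (a + 1) = 2 * b :=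
        (Int.even_mul_succ_self (a : ℤ)).two_dvd
      exact ⟨b, by rw [ha2]; linear_combination 4 * hb⟩
    obtain ⟨z, hz⟩ := h5
    have h6 : (p : ℤ) ^ 4 = (8 * z + 1) ^ 2 := by rw [← hz]; ring
    rw [h6, hz] at h3
    have h7 : (8 : ℤ) ∣ 4 := ⟨2 ^ e - 8 * z ^ 2 - 3 * z, by linear_combination -h3⟩
    norm_num at h7

end Pool.Agent.McF
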