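import Pool.Agent.McF.SixA

set_option autoImplicit false

/-! McF21. Equation (B): small exponents. -/

namespace Pool.Agent.McF

variable {p b r c A B : ℕ}

/-- `p = 3`: `b = 1` is impossible, so `4 ≤ 2 b ≤ r`. `b = 1`, `A + B = 3`: `A = 1`, `B = 2`: `2^(c+1) = 3^(r+1) + 1`, which is `2` or `4` mod 8, but `c ≥ 3`.
`A = 2`, `B = 1`: `2^(c+1) = 3^(r+1) - 1`, so `r + 1 = 2 t` is even (mod 4 or 8), `(3^t - 1) (3^t + 1)` is a power of 2, so both factors are, they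
differ by 2, so they are `2, 4`, `t = 1`, `r = 1 < 2 b`. -/
theorem EqB.four_le_of_three (h : EqB 3 b r c A B) (hb : 2 * b ≤ r) : 4 ≤ r := by
  rcases Nat.lt_or_ge b 2 with h1 | h1
  swap
  · omega
  have hb1 : b = 1 := by
    have := h.hb
    omega
  subst hb1
  exfalso
  obtain ⟨m, hm⟩ : ∃ m, c = m + 3 := ⟨c - 3, by have := h.hc; omega⟩
  have hsum := h.sum
  have heq := h.eq
  have h2c : 2 ^ c = 8 * 2 ^ m := by
    rw [hm, pow_add]
    ring
  have hmod : ∃ s < 4, 3 ^ (r + 1) % 80 = 3 ^ s % 80 := by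
    refine ⟨(r + 1) % 4, Nat.mod_lt _ (by norm_num), ?_⟩
    conv_lhs => rw [← Nat.div_add_mod (r + 1) 4]
    rw [pow_add, pow_mul, Nat.mul_mod, Nat.pow_mod]
    norm_num
  obtain ⟨s, hs, hmod⟩ := hmod
  have hA := h.hA
  have hB := h.hB
  have hAB : (A = 1 ∧ B = 2) ∨ (A = 2 ∧ B = 1) := by
    have : A + B = 3 := by simpa using hsum
    omega
  rw [h2c] at heq
  rcases hAB with ⟨rfl, rfl⟩ | ⟨rfl, rfl⟩
  · have h3 : 16 * 2 ^ m = 3 ^ (r + 1) + 1 := by omega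
    interval_cases s <;> norm_num at hmod <;> omega
  · have h3 : 16 * 2 ^ m + 1 = 3 ^ (r + 1) := by omega
    have h5 : ¬ 5 ∣ 2 ^ m := by
      intro h
      have := (Nat.Prime.dvd_of_dvd_pow (by norm_num) h)
      omega
    interval_cases s <;> norm_num at hmod <;> omega

/-- For `b = 1` and `(p - 1) ∣ B`: `A = 1`, `B = p - 1`. -/
private theorem EqB.one_eq (h : EqB p 1 r c A B) (hd : (p - 1) ∣ B) : A = 1 ∧ B = p - 1 := by
  have hsum := h.sum
  rw [pow_one] at hsum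
  have hA := h.hA
  have hB := h.hB
  have h1 := Nat.le_of_dvd hB hd
  omega

/-- `r = 2`, so `b = 1` (`2 b ≤ r`), `(p - 1) ∣ B < p`, so `B = p - 1`, `A = 1`, and the equation is `2^c (p - 1) = p³ + p - 2 = (p - 1) (p² + p + 2)`, so
`2^c = p² + p + 2`. `c ≥ 3`: modulo 8 this is `0` only if `p = 5` mod 8. `2 (2^(c-1) - 1) = p (p + 1)`, so `2^(c-1) = 1` mod `p`; if `c - 1` is odd then
2 is a square mod `p`, which is false for `p = 5` mod 8 (`ZMod.exists_sq_eq_two_iff`). So `c - 1 = 2 f`: `p ∣ (2^f - 1) (2^f + 1)`, `p ≤ 2^f + 1`,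
`2 (2^f - 1) (2^f + 1) = p (p + 1) ≤ (2^f + 1) (2^f + 2)`, so `2^f ≤ 4`, `f ≤ 2`. `f = 2`: `p (p + 1) = 30`, `p = 5`, `c = 5`. `f = 1`: `p (p + 1) = 6`,
`p = 2`: no. (`f = 0`: no.) -/
theorem EqB.two (h : EqB p b 2 c A B) (hp : 5 ≤ p) (hb : 2 * b ≤ 2) (hd : (p - 1) ∣ B) :
    p = 5 ∧ b = 1 ∧ c = 5 ∧ A = 1 ∧ B = 4 := by
  have hb1 : b = 1 := by
    have := h.hb
    omega
  subst hb1
  obtain ⟨hA, hB⟩ := h.one_eq hd
  have hpp := h.prime
  have hodd : p % 2 = 1 := (hpp.eq_two_or_odd).resolve_left h.odd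
  have heq := h.eq
  rw [hA, hB] at heq
  have h2 : 2 ^ c = p ^ 2 + p + 2 := by
    obtain ⟨q, rfl⟩ : ∃ q, p = q + 1 := ⟨p - 1, by omega⟩
    have hq : 0 < q := by omega
    rw [Nat.add_sub_cancel] at heq
    refine Nat.eq_of_mul_eq_mul_right hq ?_
    have h3 : 2 ^ c * q + 1 = (q + 1) ^ 3 + q := by
      have h4 : 2 + 1 = 3 := rfl
      rw [h4] at heq
      linarith
    have h4 : ((q + 1) ^ 2 + (q + 1) + 2) * q + 1 = (q + 1) ^ 3 + q := by ring
    omega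
  obtain ⟨m, hm⟩ : ∃ m, c = m + 3 := ⟨c - 3, by have := h.hc; omega⟩
  have h8 : 2 ^ c = 8 * 2 ^ m := by
    rw [hm, pow_add]
    ring
  have hp8 : p % 8 = 5 := by
    have h3 : (p ^ 2 + p + 2) % 8 = 0 := by
      rw [← h2, h8]
      omega
    have h4 : p % 8 = 1 ∨ p % 8 = 3 ∨ p % 8 = 5 ∨ p % 8 = 7 := by omega
    rcases h4 with h4 | h4 | h4 | h4 <;>
      (simp [Nat.pow_mod, Nat.add_mod, h4] at h3 ⊢)
  have h3 : 2 * 2 ^ (m + 2) = p * (p + 1) + 2 := by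
    have h4 : 2 * 2 ^ (m + 2) = 2 ^ c := by
      rw [hm]
      ring
    rw [h4, h2]
    ring
  have hfact : Fact p.Prime := ⟨hpp⟩
  -- the exponent is even
  have hev : ∃ f, m + 2 = 2 * f := by
    by_contra hne
    obtain ⟨f, hf⟩ : ∃ f, m + 2 = 2 * f + 1 := by
      rcases Nat.even_or_odd' (m + 2) with ⟨f, hf | hf⟩
      · exact (hne ⟨f, hf⟩).elim
      · exact ⟨f, hf⟩
    have h5 : (2 : ZMod p) * (2 ^ f * 2 ^ f * 2) = 2 := by
      have h6 := congrArg (Nat.cast : ℕ → ZMod p) h3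
      push_cast at h6
      rw [ZMod.natCast_self, zero_mul, zero_add, hf] at h6
      calc (2 : ZMod p) * (2 ^ f * 2 ^ f * 2) = 2 * 2 ^ (2 * f + 1) := by ring
        _ = 2 := h6
    have h20 : (2 : ZMod p) ≠ 0 := by
      intro h0
      have h7 : ((2 : ℕ) : ZMod p) = 0 := by exact_mod_cast h0
      rw [ZMod.natCast_eq_zero_iff] at h7
      have := Nat.le_of_dvd (by norm_num) h7
      omega
    have h8' : (2 : ZMod p) ^ f * 2 ^ f * 2 = 1 := by
      have h9 : (2 : ZMod p) * (2 ^ f * 2 ^ f * 2) = 2 * 1 := by rw [h5, mul_one]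
      exact mul_left_cancel₀ h20 h9
    have hsq : IsSquare (2 : ZMod p) := by
      refine ⟨((2 : ZMod p) ^ f)⁻¹, ?_⟩
      have h10 : (2 : ZMod p) ^ f ≠ 0 := pow_ne_zero _ h20
      field_simp
      linear_combination h8'
    rw [ZMod.exists_sq_eq_two_iff h.odd] at hsq
    omega
  obtain ⟨f, hf⟩ := hev
  have hf1 : 1 ≤ f := by omega
  obtain ⟨F, hF⟩ : ∃ F, 2 ^ f = F + 1 := ⟨2 ^ f - 1, by
    have := Nat.one_le_two_pow (n := f)
    omega⟩
  have hF1 : 1 ≤ F := by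
    have h4 : 2 ^ 1 ≤ 2 ^ f := Nat.pow_le_pow_right (by norm_num) hf1
    omega
  have h4 : p * (p + 1) = 2 * F * (F + 2) := by
    rw [hf, pow_mul', hF] at h3
    nlinarith
  have h5 : p ≤ F + 2 := by
    have h6 : p ∣ 2 * F * (F + 2) := ⟨p + 1, h4.symm⟩
    rcases (Nat.Prime.dvd_mul hpp).1 h6 with h7 | h7
    · rcases (Nat.Prime.dvd_mul hpp).1 h7 with h8 | h8
      · have := Nat.le_of_dvd (by norm_num) h8
        omega
      · have := Nat.le_of_dvd (by omega) h8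
        omega
    · exact Nat.le_of_dvd (by omega) h7
  have h6 : F ≤ 3 := by
    by_contra hc
    have h7 : 4 ≤ F := by omega
    nlinarith
  have hf2 : f ≤ 2 := by
    by_contra hc
    have h7 : 2 ^ 3 ≤ 2 ^ f := Nat.pow_le_pow_right (by norm_num) (by omega)
    omega
  have hf12 : f = 1 ∨ f = 2 := by omega
  rcases hf12 with rfl | rfl
  · have hFv : F = 1 := by omega
    subst hFv
    nlinarith
  · have hFv : F = 3 := by omega
    subst hFv
    have hp5 : p = 5 := by omega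
    subst hp5
    refine ⟨rfl, rfl, by omega, hA, hB⟩

/-- `r = 4`, `b = 1`: `B = p - 1`, `A = 1`, `2^c = p^4 + p^3 + p^2 + p + 2 = 2` mod 4: a contradiction. -/
theorem EqB.four_one (h : EqB p 1 4 c A B) (hd : (p - 1) ∣ B) : False := by
  obtain ⟨hA, hB⟩ := h.one_eq hd
  have hpp := h.prime
  have hodd : p % 2 = 1 := (hpp.eq_two_or_odd).resolve_left h.odd
  have hp2 := hpp.two_le
  have heq := h.eq
  rw [hA, hB] at heq
  have h2 : 2 ^ c = p ^ 4 + p ^ 3 + p ^ 2 + p + 2 := by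
    obtain ⟨q, rfl⟩ : ∃ q, p = q + 1 := ⟨p - 1, by omega⟩
    have hq : 0 < q := by omega
    rw [Nat.add_sub_cancel] at heq
    refine Nat.eq_of_mul_eq_mul_right hq ?_
    have h3 : 2 ^ c * q + 1 = (q + 1) ^ 5 + q := by
      have h4 : 4 + 1 = 5 := rfl
      rw [h4] at heq
      linarith
    have h4 : ((q + 1) ^ 4 + (q + 1) ^ 3 + (q + 1) ^ 2 + (q + 1) + 2) * q + 1 =
        (q + 1) ^ 5 + q := by ring
    omega
  obtain ⟨m, hm⟩ : ∃ m, c = m + 3 := ⟨c - 3, by have := h.hc; omega⟩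
  have h8 : 2 ^ c = 8 * 2 ^ m := by
    rw [hm, pow_add]
    ring
  have h3 : (p ^ 4 + p ^ 3 + p ^ 2 + p + 2) % 4 = 0 := by
    rw [← h2, h8]
    omega
  have h4 : p % 4 = 1 ∨ p % 4 = 3 := by omega
  rcases h4 with h4 | h4 <;> simp [Nat.pow_mod, Nat.add_mod, h4] at h3

end Pool.Agent.McF
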