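import Pool.Agent.McF.EightP3
import Pool.Agent.McF.EightTwo
import Pool.Agent.McF.EightFour

set_option autoImplicit false

/-! McF. Equation (B): parity and small exponents, assembled. -/

namespace Pool.Agent.McF

theorem eight {p b r c A B : ℕ} (h : EqB p b r c A B) (hb : 2 * b ≤ r)
    (h5 : 5 ≤ p → (p - 1) ∣ B) :
    (p = 5 ∧ b = 1 ∧ r = 2 ∧ c = 5 ∧ A = 1 ∧ B = 4) ∨
      ((p % 4 = 3 → Even (r + b)) ∧ (5 ≤ p → Even r ∧ 6 ≤ r) ∧ (p = 3 → 4 ≤ r)) := by
  have hp3 : p = 3 ∨ 5 ≤ p := by
    have h1 := h.prime.two_le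
    have h2 := h.odd
    have h4 : p ≠ 4 := by
      rintro rfl
      exact absurd h.prime (by norm_num)
    omega
  rcases hp3 with rfl | hp5
  · right
    refine ⟨fun _ => ?_, fun h6 => absurd h6 (by norm_num), fun _ => h.four_le_of_three hb⟩
    rcases Nat.even_or_odd r with hr | hr
    · exact hr.add (h.even_b hr (by norm_num))
    · exact hr.add_odd (h.odd_b hr)
  · have hd := h5 hp5
    have hr := h.even_r hd
    have hb1 := h.hb
    by_cases h2 : r = 2
    · subst h2
      left
      obtain ⟨h6, h7, h8, h9, h10⟩ := h.two hp5 hb hd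
      exact ⟨h6, h7, rfl, h8, h9, h10⟩
    · right
      have h4 : r ≠ 4 := by
        rintro rfl
        have hb2 : b = 1 ∨ b = 2 := by omega
        rcases hb2 with rfl | rfl
        · exact h.four_one hd
        · exact h.four_two hp5 hd
      refine ⟨fun hp => hr.add (h.even_b hr hp), fun _ => ⟨hr, ?_⟩, fun h6 => ?_⟩
      · obtain ⟨t, ht⟩ := hr
        omega
      · omega

end Pool.Agent.McF
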