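import Pool.Agent.McF.EightPar

set_option autoImplicit false

/-! McF20b. Equation (B) for `p = 3`, `r` odd. As in `EightPar`: `p^r + 1 = A α`, `p^r - 1 = B β`
(`EqB.quot`), `EqB.two_pow_dvd`. -/

namespace Pool.Agent.McF

variable {p b r c A B : ℕ}

private theorem three_pow_odd {r : ℕ} (hr : Odd r) : 3 ^ r % 8 = 3 := by
  obtain ⟨k, rfl⟩ := hr
  rw [pow_succ, pow_mul, Nat.mul_mod, Nat.pow_mod]
  norm_num

private theorem three_pow_even {b : ℕ} (hb : Even b) : 3 ^ b % 4 = 1 := by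
  obtain ⟨k, rfl⟩ := hb
  rw [← two_mul, pow_mul, Nat.pow_mod]
  norm_num

private theorem jac {a : ℤ} {n k : ℕ} (hn : ¬ 3 ∣ n) (h : (n : ℤ) ∣ (3 : ℤ) ^ (2 * k) - a) :
    jacobiSym a n = 1 := by
  have h1 : a % n = ((3 : ℤ) ^ k) ^ 2 % n := by
    have h2 : a ≡ (3 : ℤ) ^ (2 * k) [ZMOD n] := Int.modEq_iff_dvd.2 h
    rw [← pow_mul, mul_comm k 2]
    exact h2
  rw [jacobiSym.mod_left' h1]
  refine jacobiSym.sq_one' ?_
  have h3 : Nat.Coprime (3 ^ k) n :=
    Nat.Coprime.pow_left k ((Nat.Prime.coprime_iff_not_dvd Nat.prime_three).2 hn)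
  have h4 : ((3 : ℤ) ^ k).gcd (n : ℤ) = (3 ^ k : ℕ).gcd n := by
    rw [← Int.gcd_natCast_natCast]
    norm_num
  rw [h4]
  exact h3

private theorem mod_three {n : ℕ} (hn : ¬ 3 ∣ n) (h2 : n % 2 = 1) (h : jacobiSym (-3) n = 1) :
    n % 3 = 1 := by
  have hodd : Odd n := Nat.odd_iff.2 h2
  rw [jacobiSym.mod_right (-3) hodd] at h
  have h12 : 4 * (-3 : ℤ).natAbs = 12 := by norm_num
  rw [h12] at h
  have hlt : n % 12 < 12 := Nat.mod_lt _ (by norm_num)
  have h3 : n % 12 = 1 ∨ n % 12 = 5 ∨ n % 12 = 7 ∨ n % 12 = 11 := by omega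
  rcases h3 with h3 | h3 | h3 | h3
  · omega
  · rw [h3] at h
    norm_num at h
  · omega
  · rw [h3] at h
    norm_num at h

private theorem mod_twelve {n : ℕ} (hn : ¬ 3 ∣ n) (h2 : n % 2 = 1) (h : jacobiSym 3 n = 1) :
    n % 12 = 1 ∨ n % 12 = 11 := by
  have hodd : Odd n := Nat.odd_iff.2 h2
  rw [jacobiSym.mod_right 3 hodd] at h
  have h12 : 4 * (3 : ℤ).natAbs = 12 := by norm_num
  rw [h12] at h
  have hlt : n % 12 < 12 := Nat.mod_lt _ (by norm_num)
  have h3 : n % 12 = 1 ∨ n % 12 = 5 ∨ n % 12 = 7 ∨ n % 12 = 11 := by omega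
  rcases h3 with h3 | h3 | h3 | h3
  · exact Or.inl h3
  · rw [h3] at h
    norm_num at h
  · rw [h3] at h
    norm_num at h
  · exact Or.inr h3

/-- `p = 3`, `r` odd: `3^r + 1 = 4` mod 8, `3^r - 1 = 2` mod 8. `B` even is impossible: then `A` is
odd, `2 ∣ B β`, `4 ∤ B β`, so `β` is odd, so `α` is odd, but `A α = 4` mod 8. So `B` is odd, `A` is
even, `2 ∣ β`, `4 ∤ β` so `2 ∣ α`, `4 ∤ α`, so `A = 2 A'` with `A'` odd. Modulo `A'`:
`3^(r+1) = -3`, so `-3` is a square modulo `A'`, prime to 3 (`EqB.not_dvd`), so `A' = 1` mod 3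
(Jacobi symbols), `A = 2` mod 3, and `B = 3^b - A = 1` mod 3. Modulo `B`: `3^(r+1) = 3`, so `3` is a
square modulo `B` (odd, prime to 3), so `B = ± 1` mod 12 (Jacobi symbols), and with `B = 1` mod 3:
`B = 1` mod 12, `B = 1` mod 4. So `3^b = A + B = 2 + 1` mod 4 (`A = 2` mod 4), `b` is odd. -/
theorem EqB.odd_b (h : EqB 3 b r c A B) (hr : Odd r) : Odd b := by
  obtain ⟨α, β, h1, h2, h3⟩ := h.quot
  have h8 := three_pow_odd hr
  have hα : 1 ≤ α := by
    rcases Nat.eq_zero_or_pos α with h0 | h0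
    · rw [h0, mul_zero] at h1
      omega
    · exact h0
  have hβ : 1 ≤ β := by
    rcases Nat.eq_zero_or_pos β with h0 | h0
    · rw [h0, mul_zero] at h2
      omega
    · exact h0
  have hv1 : 2 ∣ α ↔ 2 ∣ β := by
    have := EqB.two_pow_dvd (i := 1) hα hβ h3
    simpa using this
  have hv2 : 4 ∣ α ↔ 4 ∣ β := by
    have := EqB.two_pow_dvd (i := 2) hα hβ h3
    simpa using this
  obtain ⟨hA3, hB3⟩ := h.not_dvd
  have hsum := h.sum
  have hAB : (A + B) % 2 = 1 := by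
    rw [hsum, Nat.pow_mod]
    norm_num
  have h3b : 3 ∣ A + B := by
    rw [hsum]
    exact dvd_pow_self 3 (by have := h.hb; omega)
  have hAα : (A * α) % 8 = 4 := by omega
  have hBβ : (B * β) % 8 = 2 := by omega
  have hBodd : B % 2 = 1 := by
    by_contra hB
    have hB2 : B % 2 = 0 := by omega
    obtain ⟨B', hB'⟩ : 2 ∣ B := Nat.dvd_of_mod_eq_zero hB2
    have hβ1 : ¬ 2 ∣ β := by
      rintro ⟨β', rfl⟩
      rw [hB'] at hBβ
      have : 2 * B' * (2 * β') = 4 * (B' * β') := by ring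
      omega
    have hα1 : ¬ 2 ∣ α := fun hh => hβ1 (hv1.1 hh)
    have h5 : (A * α) % 2 = 1 := by
      rw [Nat.mul_mod]
      have e1 : A % 2 = 1 := by omega
      have e2 : α % 2 = 1 := by omega
      rw [e1, e2]
    omega
  have hβ2 : 2 ∣ β := by
    by_contra hh
    have h5 : (B * β) % 2 = 1 := by
      rw [Nat.mul_mod]
      have e2 : β % 2 = 1 := by omega
      rw [hBodd, e2]
    omega
  have hβ4 : ¬ 4 ∣ β := by
    rintro ⟨β', rfl⟩
    have : B * (4 * β') = 4 * (B * β') := by ring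
    omega
  have hA2 : A % 2 = 0 := by omega
  obtain ⟨A', hA'⟩ : 2 ∣ A := Nat.dvd_of_mod_eq_zero hA2
  obtain ⟨α', hα'⟩ := hv1.2 hβ2
  have hA'odd : A' % 2 = 1 := by
    by_contra hh
    obtain ⟨A'', hA''⟩ : 2 ∣ A' := by omega
    have : A * α = 8 * (A'' * α') := by
      rw [hA', hA'', hα']
      ring
    omega
  have hA'3 : ¬ 3 ∣ A' := fun hh => hA3 (hA' ▸ Dvd.dvd.mul_left hh 2)
  obtain ⟨k, hk⟩ : ∃ k, r + 1 = 2 * k := by
    obtain ⟨k, hk⟩ := hr
    exact ⟨k + 1, by omega⟩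
  have hz1 : (3 : ℤ) ^ r + 1 = A * α := by exact_mod_cast h1
  have hz2 : (3 : ℤ) ^ r = B * β + 1 := by exact_mod_cast h2
  have hJA : jacobiSym (-3) A' = 1 := by
    refine jac (k := k) hA'3 ⟨6 * α, ?_⟩
    rw [← hk, pow_succ]
    have hA'z : (A : ℤ) = 2 * A' := by exact_mod_cast hA'
    rw [hA'z] at hz1
    linear_combination 3 * hz1
  have hJB : jacobiSym 3 B = 1 := by
    refine jac (k := k) hB3 ⟨3 * β, ?_⟩
    rw [← hk, pow_succ]
    linear_combination 3 * hz2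
  have hm1 := mod_three hA'3 hA'odd hJA
  have hm2 := mod_twelve hB3 hBodd hJB
  by_contra hb
  have hbe := three_pow_even (Nat.not_odd_iff_even.1 hb)
  omega

end Pool.Agent.McF
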