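import Pool.Agent.McF.SixA

set_option autoImplicit false

/-! McF20. Equation (B): parity. Let `p^r + 1 = A α`, `p^r - 1 = B β`, `α + β = 2^c` (`EqB.quot`). (V): `α` and `β` (both `≥ 1`) are divisible by the
same powers of 2: if `2^i` is the highest power dividing `α`, then `2^i ≤ α < 2^c`, so `i < c` and `2^i ∣ β`; and symmetrically. `A + B = p^b` is
odd. -/

namespace Pool.Agent.McF

variable {p b r c A B : ℕ}

private theorem ep_dvd {α β i c : ℕ} (hα : 1 ≤ α) (hβ : 1 ≤ β) (h : α + β = 2 ^ c)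
    (hi : 2 ^ i ∣ α) : 2 ^ i ∣ β := by
  have h1 : 2 ^ i ≤ α := Nat.le_of_dvd hα hi
  have h2 : 2 ^ i < 2 ^ c := by omega
  have h3 : i < c := (Nat.pow_lt_pow_iff_right (by norm_num)).1 h2
  have h4 : 2 ^ i ∣ α + β := by
    rw [h]
    exact pow_dvd_pow 2 h3.le
  exact (Nat.dvd_add_right hi).1 h4

/-- (V) for all exponents. -/
theorem EqB.two_pow_dvd {α β i : ℕ} (hα : 1 ≤ α) (hβ : 1 ≤ β) (h : α + β = 2 ^ c) :
    2 ^ i ∣ α ↔ 2 ^ i ∣ β :=
  ⟨ep_dvd hα hβ h, ep_dvd hβ hα (by rw [add_comm]; exact h)⟩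

private theorem ep_geom (p : ℕ) (hp : p % 2 = 1) (n : ℕ) :
    (∑ i ∈ Finset.range n, p ^ i) % 2 = n % 2 := by
  induction n with
  | zero => simp
  | succ n ih =>
    have h1 : p ^ n % 2 = 1 := by
      rw [Nat.pow_mod, hp, one_pow, Nat.one_mod]
    rw [Finset.sum_range_succ]
    omega

private theorem ep_mod4 (n : ℕ) (hn : n % 2 = 1) (h : ∀ q, q.Prime → q ∣ n → q % 4 ≠ 3) :
    n % 4 = 1 := by
  induction n using Nat.strong_induction_on with
  | _ n ih =>
    rcases Nat.lt_or_ge 1 n with h1 | h1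
    · have hq : n.minFac.Prime := Nat.minFac_prime (by omega)
      obtain ⟨m, hm⟩ := Nat.minFac_dvd n
      have h2 := h _ hq (Nat.minFac_dvd n)
      have h3 : 0 < m := by
        rcases Nat.eq_zero_or_pos m with h0 | h0
        · rw [h0, mul_zero] at hm
          omega
        · exact h0
      have h4 : m < n := by
        have h5 := hq.two_le
        rw [hm]
        conv_lhs => rw [← one_mul m]
        refine Nat.mul_lt_mul_of_pos_right ?_ h3
        omega
      have h6 : (n.minFac * m) % 2 = 1 := by rw [← hm]; exact hn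
      rw [Nat.mul_mod] at h6
      have h7 : n.minFac % 2 = 1 := by
        rcases Nat.mod_two_eq_zero_or_one n.minFac with h0 | h0
        · rw [h0, zero_mul] at h6
          omega
        · exact h0
      have h8 : m % 2 = 1 := by
        rcases Nat.mod_two_eq_zero_or_one m with h0 | h0
        · rw [h0, mul_zero] at h6
          omega
        · exact h0
      have h9 := ih m h4 h8 fun q hq hd => h q hq (hd.trans (Dvd.intro_left _ hm.symm))
      have h10 : n.minFac % 4 = 1 := by omega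
      rw [hm, Nat.mul_mod, h10, h9]
    · have h2 : n = 1 := by omega
      rw [h2]

private theorem ep_podd (h : EqB p b r c A B) : p % 2 = 1 :=
  (h.prime.eq_two_or_odd).resolve_left h.odd

private theorem ep_pow_odd (h : EqB p b r c A B) (n : ℕ) : p ^ n % 2 = 1 := by
  rw [Nat.pow_mod, ep_podd h, one_pow, Nat.one_mod]

private theorem ep_pos (h : EqB p b r c A B) {α β : ℕ} (h1 : p ^ r + 1 = A * α)
    (h2 : p ^ r = B * β + 1) : 1 ≤ α ∧ 1 ≤ β := by
  constructor
  · rcases Nat.eq_zero_or_pos α with h0 | h0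
    · rw [h0, mul_zero] at h1
      omega
    · exact h0
  · rcases Nat.eq_zero_or_pos β with h0 | h0
    · rw [h0, mul_zero] at h2
      have h3 : 1 < p ^ r := Nat.one_lt_pow (by have := h.hr; omega) h.prime.one_lt
      omega
    · exact h0

/-- If `(p - 1) ∣ B` then `r` is even: `B` is even (`p - 1` is even), `A` is odd, so `α` is even (`p^r + 1` is even), so `β` is even. If `r` is odd, then
`(p^r - 1) / (p - 1) = 1 + p + ... + p^(r-1)` is odd, and it is `(B / (p - 1)) β`: a contradiction. -/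
theorem EqB.even_r (h : EqB p b r c A B) (hd : (p - 1) ∣ B) : Even r := by
  obtain ⟨α, β, h1, h2, h3⟩ := h.quot
  obtain ⟨hα, hβ⟩ := ep_pos h h1 h2
  have hp := ep_podd h
  have hp2 := h.prime.two_le
  have hs := h.sum
  have hb := ep_pow_odd h b
  have hr := ep_pow_odd h r
  by_contra hne
  have hro : r % 2 = 1 := by
    rw [Nat.not_even_iff] at hne
    exact hne
  have hBe : 2 ∣ B := Dvd.dvd.trans (by omega) hd
  have hAo : A % 2 = 1 := by omega
  have hαe : 2 ^ 1 ∣ α := by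
    rw [pow_one]
    have h4 : 2 ∣ A * α := by omega
    rcases (Nat.prime_two.dvd_mul).1 h4 with h5 | h5
    · omega
    · exact h5
  have hβe := (EqB.two_pow_dvd hα hβ h3).1 hαe
  rw [pow_one] at hβe
  obtain ⟨B', hB'⟩ := hd
  have h5 := geom_sum_mul_add (p - 1) r
  have h6 : p - 1 + 1 = p := by omega
  rw [h6] at h5
  have h7 := ep_geom p hp r
  have h8 : (∑ i ∈ Finset.range r, p ^ i) = B' * β := by
    have h9 : (∑ i ∈ Finset.range r, p ^ i) * (p - 1) = (B' * β) * (p - 1) := by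
      have h10 : (∑ i ∈ Finset.range r, p ^ i) * (p - 1) + 1 = B * β + 1 := h5.trans h2
      rw [hB'] at h10
      have h11 : (∑ i ∈ Finset.range r, p ^ i) * (p - 1) = (p - 1) * B' * β := by omega
      rw [h11]
      ring
    exact Nat.eq_of_mul_eq_mul_right (by omega) h9
  rw [h8, hro] at h7
  have h12 : 2 ∣ B' * β := hβe.mul_left B'
  omega

/-- `r` even and `p = 3` mod 4 imply `b` even. `p^r = 1` mod 8, so `p^r + 1 = 2` mod 8. `A` even is impossible: then `α` is odd, `β` is odd, `8 ∣ B`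
(`8 ∣ p^r - 1 = B β`), but `A + B` is odd. So `A` is odd, all its prime divisors `q` divide `x² + 1`, `x = p^(r/2)`, so `q = 1` mod 4
(`ZMod.mod_four_ne_three_of_sq_eq_neg_one` / `Nat.Prime.mod_four_ne_three...`), so `A = 1` mod 4. `2 ∣ α`, `4 ∤ α` (`A α = 2` mod 8), so `2 ∣ β`, `4 ∤ β`, so
`4 ∣ B`. So `p^b = A + B = 1` mod 4, and `b` is even as `p = 3` mod 4. -/
theorem EqB.even_b (h : EqB p b r c A B) (hr : Even r) (hp : p % 4 = 3) : Even b := by
  obtain ⟨α, β, h1, h2, h3⟩ := h.quot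
  obtain ⟨hα, hβ⟩ := ep_pos h h1 h2
  have hs := h.sum
  have hb := ep_pow_odd h b
  obtain ⟨k, hk⟩ := hr
  have hsq : p ^ 2 % 8 = 1 := by
    have h4 : p % 8 = 3 ∨ p % 8 = 7 := by omega
    rw [Nat.pow_mod]
    rcases h4 with h4 | h4 <;> rw [h4]
  have hpr : p ^ r % 8 = 1 := by
    have h4 : p ^ r = (p ^ 2) ^ k := by rw [← pow_mul, hk]; congr 1; omega
    rw [h4, Nat.pow_mod, hsq, one_pow, Nat.one_mod_eq_one.2 (by norm_num)]
  have h8 : 8 ∣ B * β := by omega
  have hA2 : (A * α) % 8 = 2 := by omega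
  have hAo : A % 2 = 1 := by
    by_contra hA
    have hA' : 2 ∣ A := by omega
    have hαo : ¬ 2 ∣ α := by
      intro h5
      have h6 : 2 * 2 ∣ A * α := mul_dvd_mul hA' h5
      omega
    have hβo : ¬ 2 ∣ β := by
      intro h5
      have h6 := (EqB.two_pow_dvd (i := 1) hα hβ h3).2 (by rwa [pow_one])
      rw [pow_one] at h6
      exact hαo h6
    have hcop : Nat.Coprime (2 ^ 3) β :=
      Nat.Coprime.pow_left 3 ((Nat.Prime.coprime_iff_not_dvd Nat.prime_two).2 hβo)
    have h7 : 2 ^ 3 ∣ B := hcop.dvd_of_dvd_mul_right h8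
    omega
  have hA4 : A % 4 = 1 := by
    refine ep_mod4 A hAo fun q hq hqA => ?_
    have : Fact q.Prime := ⟨hq⟩
    have h5 : q ∣ p ^ r + 1 := by
      rw [h1]
      exact hqA.mul_right α
    have h6 : ((p : ZMod q) ^ k) ^ 2 = -1 := by
      have h7 : ((p ^ r + 1 : ℕ) : ZMod q) = 0 := (ZMod.natCast_eq_zero_iff _ _).2 h5
      push_cast at h7
      rw [← pow_mul, mul_two, ← hk]
      exact eq_neg_of_add_eq_zero_left h7
    exact ZMod.mod_four_ne_three_of_sq_eq_neg_one h6
  have hαe : 2 ^ 1 ∣ α := by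
    rw [pow_one]
    have h4 : 2 ∣ A * α := by omega
    rcases (Nat.prime_two.dvd_mul).1 h4 with h5 | h5
    · omega
    · exact h5
  have hα4 : ¬ 2 ^ 2 ∣ α := by
    intro h5
    have h6 : 2 ^ 2 ∣ A * α := h5.mul_left A
    omega
  have hβe := (EqB.two_pow_dvd hα hβ h3).1 hαe
  have hβ4 : ¬ 2 ^ 2 ∣ β := fun h5 => hα4 ((EqB.two_pow_dvd hα hβ h3).2 h5)
  rw [pow_one] at hβe
  obtain ⟨β', rfl⟩ := hβe
  have hβo : ¬ 2 ∣ β' := fun h5 => hβ4 (mul_dvd_mul_left 2 h5)
  have h9 : 2 ^ 2 ∣ B * β' := by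
    have h10 : 2 * 4 ∣ 2 * (B * β') := by
      have h11 : B * (2 * β') = 2 * (B * β') := by ring
      rw [← h11]
      exact h8
    exact Nat.dvd_of_mul_dvd_mul_left (by norm_num) h10
  have hcop : Nat.Coprime (2 ^ 2) β' :=
    Nat.Coprime.pow_left 2 ((Nat.Prime.coprime_iff_not_dvd Nat.prime_two).2 hβo)
  have h12 : 2 ^ 2 ∣ B := hcop.dvd_of_dvd_mul_right h9
  have h13 : p ^ b % 4 = 1 := by omega
  by_contra hne
  rw [Nat.not_even_iff_odd] at hne
  obtain ⟨j, hj⟩ := hne
  have h14 : p ^ 2 % 4 = 1 := by omega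
  have h15 : p ^ b = (p ^ 2) ^ j * p := by rw [hj, pow_succ, pow_mul]
  rw [h15, Nat.mul_mod, Nat.pow_mod, h14, one_pow, hp] at h13
  omega

end Pool.Agent.McF
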