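import Pool.Agent.McF.Dvd

set_option autoImplicit false

/-! McF04. First consequences of flatness for indicator functions. -/

namespace Pool.Agent.McF

open Finset

variable {G : Type} [AddCommGroup G] [Fintype G] {F : G → ℤ} {m : ℕ}

private theorem exists_char (hG : 1 < Fintype.card G) : ∃ χ : AddChar G ℂ, χ ≠ 0 := by
  have : Nontrivial G := Fintype.one_lt_card_iff_nontrivial.1 hG
  obtain ⟨a, ha⟩ := exists_ne (0 : G)
  obtain ⟨χ, hχ⟩ := AddChar.exists_apply_ne_zero.2 ha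
  refine ⟨χ, fun h => hχ ?_⟩
  rw [h]
  exact AddChar.zero_apply a

private theorem not_const (hm : 0 < m) (h : Flat F m) (hG : 1 < Fintype.card G) (c : ℤ)
    (hc : ∀ x, F x = c) : False := by
  classical
  obtain ⟨χ, hχ⟩ := exists_char hG
  have h1 : hat F χ = 0 := by
    unfold hat
    have h2 : ∀ x, (F x : ℂ) * χ x = (c : ℂ) * χ x := fun x => by rw [hc x]
    rw [Finset.sum_congr rfl fun x _ => h2 x, ← Finset.mul_sum, AddChar.sum_eq_ite, if_neg hχ,
      mul_zero]
  have hm' : (m : ℂ) ≠ 0 := by exact_mod_cast hm.ne'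
  rcases h χ hχ with h3 | h3
  · exact hm' (h3.symm.trans h1)
  · exact hm' (neg_eq_zero.1 (h3.symm.trans h1))

/-- A constant function has `hat F χ = 0` for `χ ≠ 0` (`AddChar.sum_eq_zero_of_ne_one` / `AddChar.sum_eq_ite`), and a character `χ ≠ 0` exists as
`|AddChar G ℂ| = |G| > 1` (`AddChar.card_eq`). -/
theorem exists_one (hF : IsInd F) (hm : 0 < m) (h : Flat F m) (hG : 1 < Fintype.card G) :
    ∃ x, F x = 1 := by
  by_contra hcon
  push Not at hcon
  exact not_const hm h hG 0 fun x => (hF x).resolve_right (hcon x)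

theorem exists_zero (hF : IsInd F) (hm : 0 < m) (h : Flat F m) (hG : 1 < Fintype.card G) :
    ∃ x, F x = 0 := by
  by_contra hcon
  push Not at hcon
  exact not_const hm h hG 1 fun x => (hF x).resolve_left (hcon x)

/-- `dvd_of_flat` at a zero of `F`. -/
theorem dvd_sum (hF : IsInd F) (hm : 0 < m) (h : Flat F m) (hG : 1 < Fintype.card G) :
    (m : ℤ) ∣ ∑ x, F x := by
  obtain ⟨x, hx⟩ := exists_zero hF hm h hG
  have h1 := dvd_of_flat h x
  rw [hx, mul_zero, zero_sub] at h1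
  exact (dvd_neg).1 h1

/-- `dvd_of_flat` at a point with `F x = 1`, and `dvd_sum`. -/
theorem dvd_card (hF : IsInd F) (hm : 0 < m) (h : Flat F m) (hG : 1 < Fintype.card G) :
    m ∣ Fintype.card G := by
  obtain ⟨x, hx⟩ := exists_one hF hm h hG
  have h1 := dvd_of_flat h x
  rw [hx, mul_one] at h1
  have h2 := (Int.dvd_iff_dvd_of_dvd_sub h1).2 (dvd_sum hF hm h hG)
  exact_mod_cast h2

theorem sum_pos_of_flat (hF : IsInd F) (hm : 0 < m) (h : Flat F m) (hG : 1 < Fintype.card G) :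
    0 < ∑ x, F x := by
  obtain ⟨x, hx⟩ := exists_one hF hm h hG
  have h0 : ∀ y, 0 ≤ F y := fun y => by rcases hF y with h | h <;> rw [h]; norm_num
  have h1 : F x ≤ ∑ y, F y :=
    Finset.single_le_sum (f := F) (fun y _ => h0 y) (Finset.mem_univ x)
  rw [hx] at h1
  omega

theorem sum_lt_of_flat (hF : IsInd F) (hm : 0 < m) (h : Flat F m) (hG : 1 < Fintype.card G) :
    ∑ x, F x < Fintype.card G := by
  obtain ⟨x, hx⟩ := exists_zero hF hm h hG
  have h0 : ∀ y, 0 ≤ 1 - F y := fun y => by rcases hF y with h | h <;> rw [h] <;> norm_num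
  have h1 : 1 - F x ≤ ∑ y, (1 - F y) :=
    Finset.single_le_sum (f := fun y => 1 - F y) (fun y _ => h0 y) (Finset.mem_univ x)
  rw [Finset.sum_sub_distrib, Finset.sum_const, Finset.card_univ, hx] at h1
  simp only [nsmul_eq_mul, mul_one] at h1
  omega

/-- If `e` is an indicator function with both values and `(C x - C y)² = (e x - e y)²` for all `x, y` then `C = c0 ± e`: choose `x0, x1` with
`e x0 = 0`, `e x1 = 1`, `c0 = C x0`, `ε = C x1 - c0`. -/
theorem two_values {X : Type} {C e : X → ℤ} (he : IsInd e) (h0 : ∃ x, e x = 0) (h1 : ∃ x, e x = 1)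
    (h : ∀ x y, (C x - C y) ^ 2 = (e x - e y) ^ 2) :
    ∃ c0 ε : ℤ, (ε = 1 ∨ ε = -1) ∧ ∀ x, C x = c0 + ε * e x := by
  obtain ⟨x0, hx0⟩ := h0
  obtain ⟨x1, hx1⟩ := h1
  have h2 := h x1 x0
  rw [hx0, hx1, sub_zero, one_pow] at h2
  refine ⟨C x0, C x1 - C x0, sq_eq_one_iff.1 h2, fun x => ?_⟩
  rcases he x with h3 | h3
  · have h4 := h x x0
    rw [h3, hx0, sub_self, zero_pow two_ne_zero] at h4
    have h5 := pow_eq_zero_iff two_ne_zero |>.1 h4
    rw [h3]
    linarith
  · have h4 := h x x1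
    rw [h3, hx1, sub_self, zero_pow two_ne_zero] at h4
    have h5 := pow_eq_zero_iff two_ne_zero |>.1 h4
    rw [h3]
    linarith

end Pool.Agent.McF
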