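import Pool.Agent.McF.StA

set_option autoImplicit false

/-! McF26. Multiplier -1: a symmetric translate; the order of the group is even. -/

namespace Pool.Agent.McF

open Finset

variable {G : Type} [AddCommGroup G] [Fintype G] [DecidableEq G]

/-- `-D = D + g`. If `g` is not in `2 G` there is a character `χ` of `G / 2 G` with `χ(g) ≠ 1` (`AddChar.exists_apply_ne_zero` for `G ⧸ (2 G)`), viewed on `G`: `χ² = 1`,
`χ ≠ 0`, `χ(-x) = χ(x)`, so `hat (ind D) χ = ∑_{x ∈ -D} χ(x) = ∑_{x ∈ D + g} χ(x) = χ(g) hat (ind D) χ`, and `hat (ind D) χ ≠ 0`: a contradiction. So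
`g = t + t`, and `x - t ∈ D ↔ -x - t ∈ D` (`D + t` is symmetric); take `h = -t`. -/
theorem exists_center {D : Finset G} (h : ∀ χ : AddChar G ℂ, χ ≠ 0 → hat (ind D) χ ≠ 0)
    (h4 : ∃ g : G, D.image (fun d => -d) = D.image (fun d => d + g)) :
    ∃ h : G, ∀ x, x + h ∈ D ↔ -x + h ∈ D := by
  classical
  obtain ⟨g, hg⟩ := h4
  have hmem : ∀ y : G, -y ∈ D ↔ y - g ∈ D := by
    intro y
    have h1 : y ∈ D.image (fun d => -d) ↔ y ∈ D.image (fun d => d + g) := by rw [hg]
    simp only [mem_image] at h1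
    constructor
    · intro h2
      obtain ⟨d, hd, h3⟩ := h1.1 ⟨-y, h2, neg_neg y⟩
      rw [← h3, add_sub_cancel_right]
      exact hd
    · intro h2
      obtain ⟨d, hd, h3⟩ := h1.2 ⟨y - g, h2, sub_add_cancel y g⟩
      rw [← h3, neg_neg]
      exact hd
  have hgt : ∃ t : G, g = t + t := by
    by_contra hne
    set H : AddSubgroup G := (nsmulAddMonoidHom (α := G) 2).range with hH
    have hgH : (QuotientAddGroup.mk' H) g ≠ 0 := by
      intro h1
      have h2 : g ∈ H := (QuotientAddGroup.eq_zero_iff g).1 h1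
      obtain ⟨t, ht⟩ := h2
      exact hne ⟨t, by rw [← two_nsmul]; exact ht.symm⟩
    obtain ⟨ψ, hψ⟩ := AddChar.exists_apply_ne_zero.2 hgH
    set χ : AddChar G ℂ := ψ.compAddMonoidHom (QuotientAddGroup.mk' H) with hχ
    have hχg : χ g ≠ 1 := hψ
    have hχ0 : χ ≠ 0 := by
      intro h1
      rw [h1] at hχg
      exact hχg rfl
    have hneg : ∀ x, χ (-x) = χ x := by
      intro x
      have h1 : χ (x + x) = 1 := by
        have h2 : (QuotientAddGroup.mk' H) (x + x) = 0 :=
          (QuotientAddGroup.eq_zero_iff _).2 ⟨x, (two_nsmul x)⟩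
        change ψ ((QuotientAddGroup.mk' H) (x + x)) = 1
        rw [h2, AddChar.map_zero_eq_one]
      rw [AddChar.map_add_eq_mul] at h1
      rw [AddChar.map_neg_eq_inv]
      exact inv_eq_of_mul_eq_one_left h1
    have hs : hat (ind D) χ = χ g * hat (ind D) χ := by
      rw [hat_ind]
      calc ∑ x ∈ D, χ x = ∑ x ∈ D, χ (-x) := by simp only [hneg]
        _ = ∑ y ∈ D.image (fun d => -d), χ y :=
          (sum_image (fun x _ y _ hxy => neg_injective hxy)).symm
        _ = ∑ y ∈ D.image (fun d => d + g), χ y := by rw [hg]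
        _ = ∑ x ∈ D, χ (x + g) :=
          sum_image (fun x _ y _ hxy => add_right_cancel hxy)
        _ = χ g * ∑ x ∈ D, χ x := by
          rw [mul_sum]
          refine sum_congr rfl fun x _ => ?_
          rw [AddChar.map_add_eq_mul, mul_comm]
    have h5 : (1 - χ g) * hat (ind D) χ = 0 := by
      rw [sub_mul, one_mul, ← hs, sub_self]
    rcases mul_eq_zero.1 h5 with h6 | h6
    · exact hχg (sub_eq_zero.1 h6).symm
    · exact h χ hχ0 h6
  obtain ⟨t, rfl⟩ := hgt
  refine ⟨-t, fun x => ?_⟩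
  have h1 := hmem (t - x)
  have h2 : -(t - x) = x + -t := by abel
  have h3 : t - x - (t + t) = -x + -t := by abel
  rwa [h2, h3] at h1

end Pool.Agent.McF
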