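import Pool.Agent.McF.StA

set_option autoImplicit false

/-! McF27. The order is a square and the character sums are `± m`. -/

namespace Pool.Agent.McF

open Finset

variable {G : Type} [AddCommGroup G] [Fintype G] [DecidableEq G]

private theorem stC_conj {D : Finset G} (hsym : ∀ x, x ∈ D ↔ -x ∈ D) (χ : AddChar G ℂ) :
    (starRingEnd ℂ) (hat (ind D) χ) = hat (ind D) χ := by
  unfold hat
  rw [map_sum, ← Equiv.sum_comp (Equiv.neg G)]
  refine Finset.sum_congr rfl fun x _ => ?_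
  have h1 : ind D (-x) = ind D x := by
    unfold ind
    simp only [← hsym x]
  rw [map_mul, Equiv.neg_apply, h1, AddChar.map_neg_eq_conj, Complex.conj_conj, map_intCast]

omit [DecidableEq G] in
private theorem stC_order_two (he : Even (Fintype.card G)) :
    ∃ χ : AddChar G ℂ, χ ≠ 0 ∧ χ + χ = 0 := by
  have h1 : 2 ∣ Fintype.card (AddChar G ℂ) := by
    rw [AddChar.card_eq]
    exact he.two_dvd
  have : Fact (Nat.Prime 2) := ⟨Nat.prime_two⟩
  obtain ⟨χ, hχ⟩ := exists_prime_addOrderOf_dvd_card 2 h1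
  refine ⟨χ, fun h => ?_, ?_⟩
  · rw [h, addOrderOf_zero] at hχ
    exact absurd hχ (by norm_num)
  · rw [← two_nsmul, ← hχ]
    exact addOrderOf_nsmul_eq_zero χ

private theorem stC_int {D : Finset G} {χ : AddChar G ℂ} (h : χ + χ = 0) :
    ∃ z : ℤ, hat (ind D) χ = z := by
  have h1 : ∀ x, ∃ z : ℤ, χ x = z := by
    intro x
    have h2 : χ x * χ x = 1 := by
      rw [← AddChar.add_apply, h, AddChar.zero_apply]
    rcases mul_self_eq_one_iff.1 h2 with h3 | h3
    · exact ⟨1, by rw [h3]; norm_num⟩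
    · exact ⟨-1, by rw [h3]; norm_num⟩
  choose z hz using h1
  refine ⟨∑ x, ind D x * z x, ?_⟩
  unfold hat
  push_cast
  exact Finset.sum_congr rfl fun x _ => by rw [hz x]

/-- The dual group has even order (`AddChar.card_eq`), so there is `χ ≠ 0` with `χ + χ = 0` (`exists_prime_addOrderOf_dvd_card`), so `χ(x)² = 1`, `χ(x) = ± 1`, and
`hat (ind D) χ` is an integer; its square is `n`: `n = m²`, `m ≥ 2` as `n ≥ 2`. For every `χ ≠ 0`: `conj (hat (ind D) χ) = ∑_{x ∈ D} χ(-x) = hat (ind D) χ` by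
the symmetry of `D` (`AddChar.map_neg_eq_conj`), so it is real, with square `m²`. -/
theorem exists_m {D : Finset G} {n : ℕ} (hn : 2 ≤ n) (he : Even (Fintype.card G))
    (hsym : ∀ x, x ∈ D ↔ -x ∈ D)
    (hnorm : ∀ χ : AddChar G ℂ, χ ≠ 0 → ‖hat (ind D) χ‖ ^ 2 = (n : ℝ)) :
    ∃ m : ℕ, 2 ≤ m ∧ n = m ^ 2 ∧ Flat (ind D) m := by
  obtain ⟨χ₀, hχ₀, h2⟩ := stC_order_two he
  obtain ⟨z, hz⟩ := stC_int (D := D) h2
  have h3 : n = z.natAbs ^ 2 := by
    have h4 := hnorm χ₀ hχ₀
    rw [hz, Complex.norm_intCast, sq_abs] at h4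
    have h5 : z ^ 2 = (n : ℤ) := by exact_mod_cast h4
    have h6 : ((z.natAbs : ℕ) : ℤ) ^ 2 = n := by rw [Int.natAbs_sq, h5]
    exact_mod_cast h6.symm
  refine ⟨z.natAbs, ?_, h3, fun χ hχ => ?_⟩
  · by_contra hcon
    push Not at hcon
    have h4 : z.natAbs ^ 2 ≤ 1 := by
      have : z.natAbs ≤ 1 := by omega
      calc z.natAbs ^ 2 ≤ 1 ^ 2 := Nat.pow_le_pow_left this 2
        _ = 1 := one_pow 2
    omega
  · obtain ⟨t, ht⟩ := Complex.conj_eq_iff_real.1 (stC_conj hsym χ)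
    have h4 := hnorm χ hχ
    rw [ht, Complex.norm_real, Real.norm_eq_abs, sq_abs, h3] at h4
    push_cast at h4
    rw [ht]
    rcases sq_eq_sq_iff_eq_or_eq_neg.1 h4 with h5 | h5
    · left
      rw [h5]
      norm_cast
    · right
      rw [h5]
      push_cast
      rfl

end Pool.Agent.McF
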