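import Pool.Agent.McF.StA

set_option autoImplicit false

/-! McF26b. The order of the group is even. -/

namespace Pool.Agent.McF

open Finset

variable {G : Type} [AddCommGroup G] [Fintype G] [DecidableEq G]

omit [DecidableEq G] in
private theorem st_dbl (ho : Odd (Fintype.card G)) {y : G} (hy : y + y = 0) : y = 0 := by
  have h1 : addOrderOf y ∣ 2 := by
    rw [addOrderOf_dvd_iff_nsmul_eq_zero, two_nsmul]
    exact hy
  have h2 : addOrderOf y ∣ Fintype.card G := addOrderOf_dvd_card
  have h3 : Nat.Coprime (Fintype.card G) 2 := Nat.coprime_two_right.2 ho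
  have h4 : addOrderOf y = 1 := Nat.eq_one_of_dvd_coprimes h3 h2 h1
  exact AddMonoid.addOrderOf_eq_one_iff.1 h4

private theorem st_par {D : Finset G} {lam : ℕ} (ho : Odd (Fintype.card G))
    (h : ∀ x : G, x ≠ 0 → ((D ×ˢ D).filter (fun p => p.1 - p.2 = x)).card = lam)
    (hsym : ∀ x, x ∈ D ↔ -x ∈ D) {y : G} (hy : y ≠ 0) :
    (lam : ZMod 2) = if y ∈ D then 1 else 0 := by
  have hx : y + y ≠ 0 := fun h0 => hy (st_dbl ho h0)
  set S := (D ×ˢ D).filter (fun p => p.1 + p.2 = y + y) with hS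
  have h1 : S.card = lam := by
    rw [← h (y + y) hx]
    refine Finset.card_bij (fun p _ => (p.1, -p.2)) ?_ ?_ ?_
    · rintro ⟨a, b⟩ hp
      simp only [hS, mem_filter, mem_product] at hp ⊢
      exact ⟨⟨hp.1.1, (hsym b).1 hp.1.2⟩, by rw [sub_neg_eq_add]; exact hp.2⟩
    · rintro ⟨a, b⟩ _ ⟨a', b'⟩ _ hpp
      simpa using hpp
    · rintro ⟨a, b⟩ hp
      simp only [mem_filter, mem_product] at hp
      refine ⟨(a, -b), ?_, by simp⟩
      simp only [hS, mem_filter, mem_product]
      exact ⟨⟨hp.1.1, (hsym b).1 hp.1.2⟩, by rw [← sub_eq_add_neg]; exact hp.2⟩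
  have h2 : ∑ p ∈ S.filter (fun p => p.1 ≠ p.2), (1 : ZMod 2) = 0 := by
    refine Finset.sum_involution (fun p _ => (p.2, p.1)) ?_ ?_ ?_ ?_
    · intro p _
      decide
    · rintro ⟨a, b⟩ hp _ hpp
      simp only [mem_filter] at hp
      exact hp.2 (congrArg Prod.snd hpp)
    · rintro ⟨a, b⟩ hp
      simp only [hS, mem_filter, mem_product] at hp ⊢
      exact ⟨⟨⟨hp.1.1.2, hp.1.1.1⟩, by rw [add_comm]; exact hp.1.2⟩, fun h => hp.2 h.symm⟩
    · rintro ⟨a, b⟩ _
      rfl
  have h3 : S.filter (fun p => ¬ (p.1 ≠ p.2)) = if y ∈ D then {(y, y)} else ∅ := by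
    ext ⟨a, b⟩
    simp only [hS, mem_filter, mem_product, ne_eq, not_not]
    constructor
    · rintro ⟨⟨⟨ha, hb⟩, hab⟩, rfl⟩
      have h4 : a - y = 0 := st_dbl ho (by
        have : a - y + (a - y) = (a + a) - (y + y) := by abel
        rw [this, hab, sub_self])
      have h5 : a = y := sub_eq_zero.1 h4
      subst h5
      rw [if_pos ha]
      exact mem_singleton_self _
    · intro h4
      by_cases hD : y ∈ D
      · rw [if_pos hD, mem_singleton] at h4
        obtain ⟨rfl, rfl⟩ := Prod.mk.inj h4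
        exact ⟨⟨⟨hD, hD⟩, rfl⟩, rfl⟩
      · rw [if_neg hD] at h4
        exact absurd h4 (notMem_empty _)
  have h4 := Finset.sum_filter_add_sum_filter_not S (fun p => p.1 ≠ p.2) (fun _ => (1 : ZMod 2))
  rw [h2, h3, zero_add] at h4
  rw [← h1]
  have h5 : ((S.card : ℕ) : ZMod 2) = ∑ _p ∈ S, (1 : ZMod 2) := by simp
  rw [h5, ← h4]
  split_ifs <;> simp

/-- Suppose `|G|` is odd, so `x ↦ x + x` is a bijection. For `x ≠ 0` the number `lam` of the pairs `(d1, d2) ∈ D²` with `d1 - d2 = x` is, by the symmetry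
`d2 ↦ -d2`, the number of the pairs with `d1 + d2 = x`; swapping the two gives an involution with fixed points `d1 = d2`, `2 d1 = x`. So `lam` is odd
iff `x / 2 ∈ D`, for every `x ≠ 0`. So `D` contains all elements `≠ 0` or none: `k ≤ 1` or `k ≥ v - 1`. -/
theorem even_card {D : Finset G} {lam : ℕ} (h1 : 1 < D.card) (h2 : D.card + 1 < Fintype.card G)
    (h : ∀ x : G, x ≠ 0 → ((D ×ˢ D).filter (fun p => p.1 - p.2 = x)).card = lam)
    (hsym : ∀ x, x ∈ D ↔ -x ∈ D) : Even (Fintype.card G) := by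
  by_contra hcon
  have ho : Odd (Fintype.card G) := Nat.not_even_iff_odd.1 hcon
  by_cases hl : (lam : ZMod 2) = 0
  · have h3 : D ⊆ {0} := by
      intro y hy
      by_contra hy0
      have h4 := st_par ho h hsym (y := y) (fun h0 => hy0 (mem_singleton.2 h0))
      rw [if_pos hy, hl] at h4
      exact zero_ne_one h4
    have h4 := Finset.card_le_card h3
    rw [card_singleton] at h4
    omega
  · have h3 : (Finset.univ : Finset G).erase 0 ⊆ D := by
      intro y hy
      by_contra hy0
      have h4 := st_par ho h hsym (y := y) (mem_erase.1 hy).1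
      rw [if_neg hy0] at h4
      exact hl h4
    have h4 := Finset.card_le_card h3
    rw [card_erase_of_mem (mem_univ _), card_univ] at h4
    omega

end Pool.Agent.McF
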