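import Pool.Agent.McF.Gl
import Pool.Agent.McF.Eight
import Pool.Agent.McF.StB
import Pool.Agent.McF.StC
import Pool.Agent.McF.StD

set_option autoImplicit false

/-! McF. The final theorem. -/

namespace Pool.Agent.McF

open Finset

theorem mcfarland (G : Type) [AddCommGroup G] [Fintype G] [DecidableEq G] (D : Finset G)
    (lam : ℕ) (h1 : 1 < D.card) (h2 : D.card + 1 < Fintype.card G)
    (h3 : ∀ x : G, x ≠ 0 → ((D ×ˢ D).filter (fun p => p.1 - p.2 = x)).card = lam)
    (h4 : ∃ g : G, D.image (fun d => -d) = D.image (fun d => d + g)) :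
    Fintype.card G = 4 * (D.card - lam) ∨
      (Fintype.card G = 4000 ∧ D.card = 775 ∧ lam = 150) ∨
      (Fintype.card G = 4000 ∧ D.card = 3225 ∧ lam = 2600) ∨
      ∃ p b r c A B : ℕ, p.Prime ∧ 3 ≤ p ∧ 1 ≤ b ∧ 2 * b ≤ r ∧ 3 ≤ c ∧ 1 ≤ A ∧ 1 ≤ B ∧
        A + B = p ^ b ∧ 2 ^ c * A * B + A = p ^ (r + b) + B ∧
        Fintype.card G = 2 ^ c * p ^ (r + b) ∧ D.card - lam = p ^ (2 * r) ∧
        (D.card = p ^ r * (2 ^ c * A - 1) ∨
          Fintype.card G - D.card = p ^ r * (2 ^ c * A - 1)) ∧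
        (p % 4 = 3 → Even (r + b)) ∧ (p = 3 → 4 ≤ r) ∧
        (5 ≤ p → Even r ∧ 6 ≤ r ∧ (p - 1) ∣ B) := by
  have hlam := two_le_order h1 h2 h3
  have hhat : ∀ χ : AddChar G ℂ, χ ≠ 0 → hat (ind D) χ ≠ 0 := by
    intro χ hχ h0
    have h5 := norm_sq_hat h3 hχ
    rw [h0, norm_zero] at h5
    have h6 : ((lam : ℝ) + 2) ≤ D.card := by exact_mod_cast hlam
    nlinarith
  obtain ⟨h, hh⟩ := exists_center hhat h4
  -- the symmetric translate
  set E : Finset G := univ.filter (fun x => x + h ∈ D) with hE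
  have hEm : ∀ x, x ∈ E ↔ x + h ∈ D := fun x => by simp [hE]
  have hEc : E.card = D.card := by
    refine card_bij (fun x _ => x + h) (fun x hx => (hEm x).1 hx)
      (fun x _ y _ hxy => add_right_cancel hxy) fun y hy => ⟨y - h, ?_, by simp⟩
    rw [hEm]
    simpa using hy
  have hE3 : ∀ x : G, x ≠ 0 → ((E ×ˢ E).filter (fun p => p.1 - p.2 = x)).card = lam := by
    intro x hx
    rw [← h3 x hx]
    refine card_bij (fun p _ => (p.1 + h, p.2 + h)) ?_ ?_ ?_
    · rintro ⟨a, b⟩ hab
      simp only [mem_filter, mem_product, hEm] at hab ⊢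
      exact ⟨hab.1, by rw [add_sub_add_right_eq_sub]; exact hab.2⟩
    · rintro ⟨a, b⟩ _ ⟨a', b'⟩ _ heq
      simpa using heq
    · rintro ⟨a, b⟩ hab
      simp only [mem_filter, mem_product] at hab
      refine ⟨(a - h, b - h), ?_, by simp⟩
      simp only [mem_filter, mem_product, hEm, sub_add_cancel, sub_sub_sub_cancel_right]
      exact hab
  have hEsym : ∀ x, x ∈ E ↔ -x ∈ E := fun x => by
    rw [hEm, hEm]
    exact hh x
  have heven := even_card (by rwa [hEc]) (by rwa [hEc]) hE3 hEsym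
  obtain ⟨m, hm, hnm, hflat⟩ := exists_m (n := D.card - lam) (by omega) heven hEsym (by
    intro χ hχ
    rw [norm_sq_hat hE3 hχ, hEc, Nat.cast_sub (by omega)])
  have hind : IsInd (ind E) := fun x => by
    unfold ind
    split_ifs
    · exact Or.inr rfl
    · exact Or.inl rfl
  have hsq := card_sq h3
  rcases main_flat hind hm hflat heven with hv | ⟨p, b, r, c, A, B, hB, hbr, hv, hmp, h5, hk⟩
  · left
    rw [hv, hnm]
  · right
    rw [sum_ind, hEc] at hk
    have hk' : D.card = p ^ r * (2 ^ c * A - 1) ∨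
        Fintype.card G - D.card = p ^ r * (2 ^ c * A - 1) := by
      have h6 : 1 ≤ 2 ^ c * A := Nat.mul_pos (by positivity) hB.hA
      rcases hk with hk | hk
      · left
        zify [h6]
        exact hk
      · right
        have h7 : D.card ≤ Fintype.card G := by omega
        zify [h6, h7]
        rw [hv]
        push_cast
        exact hk
    have hn2 : D.card - lam = p ^ (2 * r) := by
      rw [hnm, hmp, ← pow_mul, mul_comm]
    rcases eight hB hbr h5 with ⟨rfl, rfl, rfl, rfl, rfl, rfl⟩ | ⟨h6, h7, h8⟩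
    · have hv' : Fintype.card G = 4000 := by rw [hv]; norm_num
      norm_num at hk' hn2
      rw [hv'] at hk' hsq
      have hl : (lam : ℤ) = D.card - 625 := by omega
      rcases hk' with hk' | hk'
      · left
        refine ⟨hv', hk', ?_⟩
        rw [hk'] at hn2
        omega
      · right
        left
        have hk3 : D.card = 3225 := by omega
        refine ⟨hv', hk3, ?_⟩
        rw [hk3] at hn2
        omega
    · right
      right
      have hp3 : 3 ≤ p := by
        have h9 := hB.prime.two_le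
        have h10 := hB.odd
        omega
      exact ⟨p, b, r, c, A, B, hB.prime, hp3, hB.hb, hbr, hB.hc, hB.hA, hB.hB, hB.sum, hB.eq, hv,
        hn2, hk', h6, h8, fun hp5 => ⟨(h7 hp5).1, (h7 hp5).2, h5 hp5⟩⟩

end Pool.Agent.McF
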