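import Pool.Agent.McF.Defs

set_option autoImplicit false

/-! McF01. Fourier inversion and Parseval. Mathlib: `AddChar.sum_apply_eq_ite` (sum over all characters), `AddChar.sum_eq_ite` (sum over the
group), `AddChar.map_neg_eq_conj`, `AddChar.norm_apply`, `AddChar.card_eq`. -/

namespace Pool.Agent.McF

open Finset

variable {G : Type} [AddCommGroup G] [Fintype G]

/-- Exchange the sums: `∑_χ χ(y - x) = |G|` if `y = x`, else `0`. -/
theorem inversion (F : G → ℤ) (x : G) :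
    ∑ χ : AddChar G ℂ, hat F χ * χ (-x) = (Fintype.card G : ℂ) * F x := by
  classical
  unfold hat
  have h1 : ∀ χ : AddChar G ℂ, (∑ y, (F y : ℂ) * χ y) * χ (-x) =
      ∑ y, (F y : ℂ) * χ (y - x) := by
    intro χ
    rw [sum_mul]
    refine sum_congr rfl fun y _ => ?_
    rw [mul_assoc, ← AddChar.map_add_eq_mul, sub_eq_add_neg]
  rw [sum_congr rfl fun χ _ => h1 χ, sum_comm]
  have h2 : ∀ y, ∑ χ : AddChar G ℂ, (F y : ℂ) * χ (y - x) =
      if y = x then (F y : ℂ) * (Fintype.card G : ℂ) else 0 := by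
    intro y
    rw [← mul_sum, AddChar.sum_apply_eq_ite]
    simp only [sub_eq_zero]
    split_ifs <;> simp
  rw [sum_congr rfl fun y _ => h2 y, sum_ite_eq', if_pos (mem_univ x), mul_comm]

/-- From `inversion`. -/
theorem hat_inj {F F' : G → ℤ} (h : ∀ χ : AddChar G ℂ, hat F χ = hat F' χ) : F = F' := by
  funext x
  have h1 : (Fintype.card G : ℂ) * F x = (Fintype.card G : ℂ) * F' x := by
    rw [← inversion, ← inversion]
    exact sum_congr rfl fun χ _ => by rw [h χ]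
  have h2 : (Fintype.card G : ℂ) ≠ 0 := by exact_mod_cast Fintype.card_ne_zero
  exact_mod_cast mul_left_cancel₀ h2 h1

/-- `‖hat F χ‖² = hat F χ * conj (hat F χ) = ∑_{x,y} F x F y χ(x - y)`; exchange the sums. -/
theorem parseval (F : G → ℤ) :
    ∑ χ : AddChar G ℂ, ‖hat F χ‖ ^ 2 = (Fintype.card G : ℝ) * ∑ x, (F x : ℝ) ^ 2 := by
  classical
  have h1 : ∀ χ : AddChar G ℂ, ((‖hat F χ‖ ^ 2 : ℝ) : ℂ) =
      ∑ x, (F x : ℂ) * (hat F χ * χ (-x)) := by
    intro χ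
    have h2 : (starRingEnd ℂ) (hat F χ) = ∑ x, (F x : ℂ) * χ (-x) := by
      unfold hat
      rw [map_sum]
      refine sum_congr rfl fun x _ => ?_
      rw [map_mul, map_intCast, AddChar.map_neg_eq_conj]
    rw [← Complex.normSq_eq_norm_sq, ← Complex.mul_conj, h2, mul_sum]
    refine sum_congr rfl fun x _ => ?_
    ring
  have h3 : ((∑ χ : AddChar G ℂ, ‖hat F χ‖ ^ 2 : ℝ) : ℂ) =
      (((Fintype.card G : ℝ) * ∑ x, (F x : ℝ) ^ 2 : ℝ) : ℂ) := by
    rw [Complex.ofReal_sum, sum_congr rfl fun χ _ => h1 χ, sum_comm]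
    have h4 : ∀ x, ∑ χ : AddChar G ℂ, (F x : ℂ) * (hat F χ * χ (-x)) =
        (Fintype.card G : ℂ) * (F x : ℂ) ^ 2 := by
      intro x
      rw [← mul_sum, inversion]
      ring
    rw [sum_congr rfl fun x _ => h4 x, ← mul_sum]
    push_cast
    rfl
  exact_mod_cast h3

private theorem hat_zero (F : G → ℤ) : hat F 0 = ((∑ x, F x : ℤ) : ℂ) := by
  unfold hat
  push_cast
  refine sum_congr rfl fun x _ => ?_
  simp

open Classical in
private theorem key (F : G → ℤ) : (Fintype.card G : ℝ) * ∑ x, (F x : ℝ) ^ 2 -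
    (∑ x, (F x : ℝ)) ^ 2 = ∑ χ ∈ (univ : Finset (AddChar G ℂ)).erase 0, ‖hat F χ‖ ^ 2 := by
  rw [← parseval, ← add_sum_erase _ _ (mem_univ (0 : AddChar G ℂ)), hat_zero]
  have h1 : ‖((∑ x, F x : ℤ) : ℂ)‖ ^ 2 = (∑ x, (F x : ℝ)) ^ 2 := by
    rw [Complex.norm_intCast, sq_abs]
    push_cast
    rfl
  rw [h1]
  ring

private theorem pairs_eq (F : G → ℤ) : ∑ x, ∑ y, (F x - F y) ^ 2 =
    2 * ((Fintype.card G : ℤ) * ∑ x, F x ^ 2 - (∑ x, F x) ^ 2) := by
  have h1 : ∀ x, ∑ y, (F x - F y) ^ 2 =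
      (Fintype.card G : ℤ) * F x ^ 2 - 2 * (F x * ∑ y, F y) + ∑ y, F y ^ 2 := by
    intro x
    have h2 : ∀ y, (F x - F y) ^ 2 = F x ^ 2 - 2 * (F x * F y) + F y ^ 2 := fun y => by ring
    rw [sum_congr rfl fun y _ => h2 y, sum_add_distrib, sum_sub_distrib, sum_const, card_univ,
      nsmul_eq_mul, ← mul_sum, ← mul_sum]
  rw [sum_congr rfl fun x _ => h1 x, sum_add_distrib, sum_sub_distrib, sum_const, card_univ,
    nsmul_eq_mul, ← mul_sum, ← mul_sum, ← sum_mul]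
  ring

/-- `hat F 0 = ∑ F` and `1/2 ∑_{x,y} (F x - F y)² = |G| ∑ F² - (∑ F)²`; so if every nontrivial
character sum of `F` is in absolute value at most the one of `F'` then the sums of squares of
differences compare (subtract the term `χ = 0` in `parseval`). -/
theorem pairs_le {F F' : G → ℤ} (h : ∀ χ : AddChar G ℂ, χ ≠ 0 → ‖hat F χ‖ ≤ ‖hat F' χ‖) :
    ∑ x, ∑ y, (F x - F y) ^ 2 ≤ ∑ x, ∑ y, (F' x - F' y) ^ 2 := by
  classical
  rw [pairs_eq, pairs_eq]
  have h1 : (Fintype.card G : ℝ) * ∑ x, (F x : ℝ) ^ 2 - (∑ x, (F x : ℝ)) ^ 2 ≤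
      (Fintype.card G : ℝ) * ∑ x, (F' x : ℝ) ^ 2 - (∑ x, (F' x : ℝ)) ^ 2 := by
    rw [key, key]
    refine sum_le_sum fun χ hχ => ?_
    exact pow_le_pow_left₀ (norm_nonneg _) (h χ (ne_of_mem_erase hχ)) 2
  have h2 : (Fintype.card G : ℤ) * ∑ x, F x ^ 2 - (∑ x, F x) ^ 2 ≤
      (Fintype.card G : ℤ) * ∑ x, F' x ^ 2 - (∑ x, F' x) ^ 2 := by exact_mod_cast h1
  linarith

/-- `parseval` with `hat F 0 = ∑ F` and `‖hat F χ‖ = m` for the other `|G| - 1` characters. -/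
theorem flat_sum {F : G → ℤ} {m : ℕ} (h : Flat F m) :
    (Fintype.card G : ℤ) * ∑ x, F x ^ 2 = (∑ x, F x) ^ 2 + ((Fintype.card G : ℤ) - 1) * m ^ 2 := by
  classical
  have h1 : (Fintype.card G : ℝ) * ∑ x, (F x : ℝ) ^ 2 - (∑ x, (F x : ℝ)) ^ 2 =
      ((Fintype.card G : ℝ) - 1) * m ^ 2 := by
    rw [key]
    have h2 : ∀ χ ∈ (univ : Finset (AddChar G ℂ)).erase 0, ‖hat F χ‖ ^ 2 = (m : ℝ) ^ 2 := by
      intro χ hχ
      rcases h χ (ne_of_mem_erase hχ) with h3 | h3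
      · rw [h3, Complex.norm_natCast]
      · rw [h3, norm_neg, Complex.norm_natCast]
    rw [sum_congr rfl h2, sum_const, card_erase_of_mem (mem_univ _), card_univ,
      AddChar.card_eq, nsmul_eq_mul, Nat.cast_sub (Nat.succ_le_of_lt Fintype.card_pos)]
    push_cast
    ring
  have h2 : (Fintype.card G : ℝ) * ∑ x, (F x : ℝ) ^ 2 =
      (∑ x, (F x : ℝ)) ^ 2 + ((Fintype.card G : ℝ) - 1) * m ^ 2 := by linarith
  exact_mod_cast h2

/-- `flat_sum` for an indicator function: `F² = F`. -/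
theorem flat_count {F : G → ℤ} (hF : IsInd F) {m : ℕ} (h : Flat F m) :
    (∑ x, F x) * ((Fintype.card G : ℤ) - ∑ x, F x) = m ^ 2 * ((Fintype.card G : ℤ) - 1) := by
  have h1 : ∑ x, F x ^ 2 = ∑ x, F x := by
    refine sum_congr rfl fun x _ => ?_
    rcases hF x with h2 | h2 <;> rw [h2] <;> norm_num
  have h2 := flat_sum h
  rw [h1] at h2
  linarith

end Pool.Agent.McF
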