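import Pool.Agent.McF.SixA

set_option autoImplicit false

/-! McF22a. Equation (B) with `r = 4`, `b = 2`. -/

namespace Pool.Agent.McF

variable {p c A B : ℕ}

/-- Set-up. `B = (p - 1) y`, `A = p² - (p - 1) y = 1 + (p - 1) u`, `u + y = p + 1`, `u ≥ 0`, `y ≥ 1`. `A` is prime to `B` and to `p - 1`. The equation is
`2^c A B + A - B = (A + B)^3`; `A ∣ (A + B)² + 1` (`EqB.dvd_add`, `p^4 = (A+B)²`), so `A ∣ B² + 1`; `B ∣ (A + B)² - 1`, so `B ∣ A² - 1`; so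
`A B ∣ A² - B² - 1`: `A² - B² - 1 = κ A B`, `κ ∈ ℤ`. Then `2^c A B = (A + B)^3 - A + B = A B (4 (A + B) + κ (A - B))`, so
`2^c = 4 p² + κ (A - B)`. `A - B` is odd and `8 ∣ 2^c`, `4 p² = 4` mod 8: so `4 ∣ κ`, `κ` not divisible by 8 (in particular `κ ≠ 0`).
`κ A B = (A² - 1) - B²` divided by `p - 1`: `κ A y = u (A + 1) - (p - 1) y²`. So `(2 u - κ y) A = u A - u + (p - 1) y² = (p - 1) (u² + y²)`, and
`A` is prime to `p - 1`: `u² + y² = g A`, `2 u - κ y = g (p - 1)`, `g ≥ 1`. With `p - 1 = u + y - 2`: `A = (u - 1)² + u y`. -/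
theorem four_setup (h : EqB p 2 4 c A B) (hd : (p - 1) ∣ B) :
    ∃ u y g κ : ℤ, 0 ≤ u ∧ 1 ≤ y ∧ 1 ≤ g ∧ u + y = p + 1 ∧ 4 ∣ κ ∧ κ ≠ 0 ∧
      (A : ℤ) = 1 + (p - 1) * u ∧ (B : ℤ) = (p - 1) * y ∧
      u ^ 2 + y ^ 2 = g * ((u - 1) ^ 2 + u * y) ∧ κ * y = 2 * u - g * (u + y - 2) := by
  have hp2 := h.prime.two_le
  obtain ⟨a, ha⟩ : ∃ a : ℤ, a = A := ⟨_, rfl⟩
  obtain ⟨b, hb⟩ : ∃ b : ℤ, b = B := ⟨_, rfl⟩
  obtain ⟨P, hP⟩ : ∃ P : ℤ, P = p := ⟨_, rfl⟩
  rw [← ha, ← hb, ← hP]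
  have hP1 : 1 < P := by
    rw [hP]
    exact_mod_cast hp2
  have ha1 : 1 ≤ a := by
    rw [ha]
    exact_mod_cast h.hA
  have hb1 : 1 ≤ b := by
    rw [hb]
    exact_mod_cast h.hB
  have hsum : a + b = P ^ 2 := by
    rw [ha, hb, hP]
    exact_mod_cast h.sum
  have heq : 2 ^ c * a * b + a = P ^ 6 + b := by
    rw [ha, hb, hP]
    exact_mod_cast h.eq
  have hPodd : Odd P := by
    rw [hP]
    exact_mod_cast h.prime.odd_of_ne_two h.odd
  have hco : IsCoprime a b := by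
    rw [ha, hb]
    exact Nat.isCoprime_iff_coprime.2 h.coprime
  have hdA : a ∣ P ^ 4 + 1 := by
    rw [ha, hP]
    exact_mod_cast h.dvd_add
  have hdB : b ∣ P ^ 4 - 1 := by
    have h1 := h.dvd_sub
    have h2 : ((p ^ 4 - 1 : ℕ) : ℤ) = (p : ℤ) ^ 4 - 1 := by
      rw [Nat.cast_sub (Nat.one_le_pow _ _ (by omega))]
      push_cast
      ring
    rw [hb, hP, ← h2]
    exact_mod_cast h1
  obtain ⟨y, hy⟩ : ∃ y : ℤ, b = (P - 1) * y := by
    obtain ⟨y, hy⟩ := hd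
    refine ⟨y, ?_⟩
    rw [hb, hP, hy]
    push_cast [Nat.cast_sub (show 1 ≤ p by omega)]
    ring
  have hPm : 0 < P - 1 := by linarith
  have hy1 : 1 ≤ y := by
    by_contra hc
    have h1 : y ≤ 0 := by omega
    have h2 : (P - 1) * y ≤ 0 := mul_nonpos_of_nonneg_of_nonpos hPm.le h1
    rw [← hy] at h2
    linarith
  obtain ⟨u, hu⟩ : ∃ u : ℤ, u = P + 1 - y := ⟨_, rfl⟩
  have hau : a = 1 + (P - 1) * u := by
    rw [hu]
    have h1 : a = P ^ 2 - b := by linarith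
    rw [h1, hy]
    ring
  have hu0 : 0 ≤ u := by
    by_contra hc
    have h1 : u ≤ -1 := by omega
    have h2 : (P - 1) * u < 0 := mul_neg_of_pos_of_neg hPm (by omega)
    linarith
  have hsum' : b = P ^ 2 - a := by linarith
  have hb2 : a ∣ b ^ 2 + 1 := by
    have h1 : b ^ 2 + 1 = (P ^ 4 + 1) - a * (2 * P ^ 2 - a) := by
      rw [hsum']
      ring
    rw [h1]
    exact dvd_sub hdA (dvd_mul_right _ _)
  have ha2 : b ∣ a ^ 2 - 1 := by
    have h0 : a = P ^ 2 - b := by linarith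
    have h1 : a ^ 2 - 1 = (P ^ 4 - 1) - b * (2 * P ^ 2 - b) := by
      rw [h0]
      ring
    rw [h1]
    exact dvd_sub hdB (dvd_mul_right _ _)
  have hab : a * b ∣ a ^ 2 - b ^ 2 - 1 := by
    refine hco.mul_dvd ?_ ?_
    · have h1 : a ^ 2 - b ^ 2 - 1 = a * a - (b ^ 2 + 1) := by ring
      rw [h1]
      exact dvd_sub (dvd_mul_right _ _) hb2
    · have h1 : a ^ 2 - b ^ 2 - 1 = (a ^ 2 - 1) - b * b := by ring
      rw [h1]
      exact dvd_sub ha2 (dvd_mul_right _ _)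
  obtain ⟨κ, hκ⟩ := hab
  have hab0 : a * b ≠ 0 := mul_ne_zero (by omega) (by omega)
  have h2c : (2 : ℤ) ^ c = 4 * P ^ 2 + κ * (a - b) := by
    apply mul_left_cancel₀ hab0
    have h1 : a * b * 2 ^ c = (a + b) ^ 3 - a + b := by
      rw [hsum]
      have h2 : (P ^ 2) ^ 3 = P ^ 6 := by ring
      rw [h2]
      linarith
    rw [h1, ← hsum]
    have h3 : (a + b) ^ 3 - a + b = (a ^ 2 - b ^ 2 - 1) * (a - b) + a * b * (4 * (a + b)) := by
      ring
    rw [h3, hκ]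
    ring
  have h8 : (8 : ℤ) ∣ 2 ^ c := by
    have h1 : (8 : ℤ) = 2 ^ 3 := by norm_num
    rw [h1]
    exact pow_dvd_pow 2 h.hc
  obtain ⟨m, hm⟩ := hPodd
  have hP2 : P ^ 2 = 4 * (m * m + m) + 1 := by
    rw [hm]
    ring
  obtain ⟨n, hn⟩ := h8
  have hodd : a - b = 2 * (a - 2 * (m * m + m) - 1) + 1 := by
    have : b = 4 * (m * m + m) + 1 - a := by linarith
    rw [this]
    ring
  -- κ (a - b) = 8 n - 4 P²
  have hκab : κ * (a - b) = 8 * n - 16 * (m * m + m) - 4 := by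
    rw [hP2, hn] at h2c
    linarith
  have h4 : (4 : ℤ) ∣ κ := by
    have h1 : (4 : ℤ) ∣ κ * (a - b) := by
      rw [hκab]
      exact ⟨2 * n - 4 * (m * m + m) - 1, by ring⟩
    have h2 : IsCoprime (4 : ℤ) (a - b) := by
      have h3 : IsCoprime (2 : ℤ) (a - b) := by
        rw [hodd]
        exact ⟨-(a - 2 * (m * m + m) - 1), 1, by ring⟩
      have h4 : (4 : ℤ) = 2 ^ 2 := by norm_num
      rw [h4]
      exact h3.pow_left
    exact h2.dvd_of_dvd_mul_right h1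
  have hκ0 : κ ≠ 0 := by
    rintro rfl
    rw [zero_mul] at hκab
    omega
  have hκy : κ * a * y = u * (a + 1) - (P - 1) * y ^ 2 := by
    apply mul_left_cancel₀ hPm.ne'
    have h1 : a * b * κ = (a - 1) * (a + 1) - b * b := by
      rw [← hκ]
      ring
    have h2 : a - 1 = (P - 1) * u := by linarith
    rw [h2, hy] at h1
    linarith
  have hmain : (2 * u - κ * y) * a = (P - 1) * (u ^ 2 + y ^ 2) := by
    have h1 : (2 * u - κ * y) * a = 2 * u * a - κ * a * y := by ring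
    have h2 : u * a = u * (1 + (P - 1) * u) := by rw [← hau]
    rw [h1, hκy]
    linear_combination h2
  have hcoP : IsCoprime a (P - 1) := ⟨1, -u, by rw [hau]; ring⟩
  have hdg : a ∣ u ^ 2 + y ^ 2 := by
    refine hcoP.dvd_of_dvd_mul_left ?_
    rw [← hmain]
    exact dvd_mul_left _ _
  obtain ⟨g, hg⟩ := hdg
  have hg2 : 2 * u - κ * y = g * (P - 1) := by
    apply mul_right_cancel₀ (show a ≠ 0 by omega)
    rw [hmain, hg]
    ring
  have hg1 : 1 ≤ g := by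
    by_contra hc
    have h1 : g ≤ 0 := by omega
    have h2 : a * g ≤ 0 := mul_nonpos_of_nonneg_of_nonpos (by omega) h1
    rw [← hg] at h2
    nlinarith
  have hPuy : P - 1 = u + y - 2 := by
    rw [hu]
    ring
  refine ⟨u, y, g, κ, hu0, hy1, hg1, by rw [hu]; ring, h4, hκ0, hau, hy, ?_, ?_⟩
  · rw [hg, hau, hPuy]
    ring
  · rw [← hPuy]
    linarith

end Pool.Agent.McF
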