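import Pool.Agent.McF.Defs

set_option autoImplicit false

/-! McF24. Splitting a finite abelian group, transport of flat functions. -/

namespace Pool.Agent.McF

open Finset

private theorem card_coprime {G : Type} [AddCommGroup G] [Fintype G] {a b : ℕ}
    (hc : a.Coprime b) (N : AddSubgroup G) [Fintype N] (hN : ∀ x ∈ N, a • x = 0) :
    (Fintype.card N).Coprime b := by
  refine Nat.coprime_of_dvd fun q hq h1 h2 => ?_
  haveI : Fact q.Prime := ⟨hq⟩
  obtain ⟨x, hx⟩ := exists_prime_addOrderOf_dvd_card q h1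
  have h3 : a • x = 0 := by
    ext
    push_cast
    exact hN x.1 x.2
  have h4 : q ∣ a := by
    rw [← hx]
    exact addOrderOf_dvd_of_nsmul_eq_zero h3
  exact Nat.not_coprime_of_dvd_of_dvd hq.one_lt h4 h2 hc

/-- `N = {x | a x = 0}`, `M = {x | b x = 0}`: `u a + w b = 1` gives `G = N ⊕ M` (`x = w b x + u a x`), the map `G → N × M`, `x ↦ (w b x, u a x)`. `|N| |M| = a b`; every
prime divisor of `|N|` divides `a` (Cauchy: an element of prime order `q` with `a x = 0`), so `|N|` is prime to `b`, so `|N| ∣ a`; in the same way `|M| ∣ b`; so equality. -/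
theorem exists_split {G : Type} [AddCommGroup G] [Fintype G] {a b : ℕ}
    (h : Fintype.card G = a * b) (hc : a.Coprime b) :
    ∃ (N M : Type) (_ : AddCommGroup N) (_ : Fintype N) (_ : AddCommGroup M) (_ : Fintype M)
      (_ : G ≃+ N × M), Fintype.card N = a ∧ Fintype.card M = b := by
  classical
  let N : AddSubgroup G := (nsmulAddMonoidHom a : G →+ G).ker
  let M : AddSubgroup G := (nsmulAddMonoidHom b : G →+ G).ker
  have hN : ∀ x ∈ N, a • x = 0 := fun x hx => hx
  have hM : ∀ x ∈ M, b • x = 0 := fun x hx => hx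
  letI iN : Fintype N := Fintype.ofFinite _
  letI iM : Fintype M := Fintype.ofFinite _
  have hbez : (a : ℤ) * Nat.gcdA a b + (b : ℤ) * Nat.gcdB a b = 1 := by
    have h1 := Nat.gcd_eq_gcd_ab a b
    rw [Nat.Coprime.gcd_eq_one hc] at h1
    exact_mod_cast h1.symm
  set u := Nat.gcdA a b
  set w := Nat.gcdB a b
  have hsplit : ∀ x : G, u • (a • x) + w • (b • x) = x := by
    intro x
    have h1 : ((a : ℤ) * u + (b : ℤ) * w) • x = x := by rw [hbez, one_smul]
    rw [add_smul, mul_comm (a : ℤ), mul_comm (b : ℤ), mul_smul, mul_smul, natCast_zsmul,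
      natCast_zsmul] at h1
    exact h1
  have hab : ∀ x : G, a • (b • x) = 0 := by
    intro x
    rw [← mul_smul, ← h]
    exact card_nsmul_eq_zero
  let f : N × M →+ G := N.subtype.coprod M.subtype
  have hf : ∀ z : N × M, f z = z.1.1 + z.2.1 := fun z => rfl
  have hinj : Function.Injective f := by
    rw [injective_iff_map_eq_zero]
    intro z hz
    rw [hf] at hz
    have h1 : z.1.1 = 0 := by
      have h2 := hsplit z.1.1
      rw [hN _ z.1.2, smul_zero, zero_add] at h2
      have h3 : z.1.1 = -z.2.1 := eq_neg_of_add_eq_zero_left hz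
      have h4 : b • z.1.1 = 0 := by
        rw [h3, smul_neg, hM _ z.2.2, neg_zero]
      rw [h4, smul_zero] at h2
      exact h2.symm
    have h5 : z.2.1 = 0 := by
      rw [h1, zero_add] at hz
      exact hz
    exact Prod.ext (Subtype.ext h1) (Subtype.ext h5)
  have hsurj : Function.Surjective f := by
    intro x
    have h1 : w • (b • x) ∈ N := by
      show a • (w • (b • x)) = 0
      rw [smul_comm, hab, smul_zero]
    have h2 : u • (a • x) ∈ M := by
      show b • (u • (a • x)) = 0
      rw [smul_comm, smul_comm b a x, hab, smul_zero]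
    refine ⟨(⟨_, h1⟩, ⟨_, h2⟩), ?_⟩
    rw [hf]
    show w • (b • x) + u • (a • x) = x
    rw [add_comm]
    exact hsplit x
  let e : N × M ≃+ G := AddEquiv.ofBijective f ⟨hinj, hsurj⟩
  have hcard : Fintype.card N * Fintype.card M = a * b := by
    rw [← h, ← Fintype.card_prod]
    exact Fintype.card_congr e.toEquiv
  have hpos : 0 < a * b := by
    rw [← h]
    exact Fintype.card_pos
  have ha : 0 < a := Nat.pos_of_mul_pos_right hpos
  have hb : 0 < b := Nat.pos_of_mul_pos_left hpos
  have h1 : Fintype.card N ∣ a :=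
    (card_coprime hc N hN).dvd_of_dvd_mul_right (hcard ▸ Dvd.intro _ rfl)
  have h2 : Fintype.card M ∣ b :=
    (card_coprime hc.symm M hM).dvd_of_dvd_mul_left (hcard ▸ Dvd.intro_left _ rfl)
  have h3 := Nat.le_of_dvd ha h1
  have h4 := Nat.le_of_dvd hb h2
  have h5 : Fintype.card N = a := by
    refine le_antisymm h3 (Nat.le_of_mul_le_mul_right ?_ hb)
    rw [← hcard]
    exact Nat.mul_le_mul_left _ h4
  have h6 : Fintype.card M = b := by
    refine le_antisymm h4 (Nat.le_of_mul_le_mul_left ?_ ha)
    rw [← hcard]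
    exact Nat.mul_le_mul_right _ h3
  exact ⟨N, M, inferInstance, iN, inferInstance, iM, e.symm, h5, h6⟩

/-- `hat (F ∘ e.symm) χ = hat F (χ ∘ e)`. -/
theorem Flat.transport {G H : Type} [AddCommGroup G] [Fintype G] [AddCommGroup H] [Fintype H]
    (e : G ≃+ H) {F : G → ℤ} {m : ℕ} (h : Flat F m) : Flat (fun y => F (e.symm y)) m := by
  intro χ hχ
  have h1 : hat (fun y => F (e.symm y)) χ = hat F (χ.compAddMonoidHom e.toAddMonoidHom) := by
    unfold hat
    rw [← e.toEquiv.sum_comp]
    refine Finset.sum_congr rfl fun x _ => ?_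
    simp [AddChar.compAddMonoidHom_apply]
  rw [h1]
  refine h _ fun h2 => hχ ?_
  ext y
  have h3 := DFunLike.congr_fun h2 (e.symm y)
  simpa [AddChar.compAddMonoidHom_apply] using h3

end Pool.Agent.McF
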