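import Pool.Agent.McF.Defs

set_option autoImplicit false

/-! McF10. The 2-part (elementary number theory). -/

namespace Pool.Agent.McF

/-- Let `k = 2^a K`, `e = s - a`: `K (2^e - K) = 2^s - 1` (odd, so `K` is odd and `e ≥ 1`), `0 < K < 2^e`, and
`(K - 1) (K + 1) = 2^e (K - 2^a)`, so `K = ± 1` mod `2^(e-1)`: `K` is `1`, `2^e - 1`, `2^(e-1) + 1` or `2^(e-1) - 1` (for `e = 1`: `K = 1`; for
`e = 2`: `K = 1, 3`). `K = 1` or `2^e - 1`: `2^e - 1 = 2^s - 1`, so `a = 0`. `K = 2^(e-1) ± 1`: `4^(e-1) - 1 = 2^s - 1`, so `s = 2 (e - 1)`,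
`a = e - 2`, `s = 2 a + 2` and `k = 2^a (2^(a+1) ± 1)`. -/
theorem two_part {s a k : ℕ} (hs : 1 ≤ s) (ha : a ≤ s) (hka : 2 ^ a ∣ k)
    (h : (k : ℤ) * (2 ^ s - k) = 4 ^ a * (2 ^ s - 1)) :
    (s = 2 * a + 2 ∧ ((k : ℤ) = 2 * 4 ^ a + 2 ^ a ∨ (k : ℤ) = 2 * 4 ^ a - 2 ^ a)) ∨
      (a = 0 ∧ s ≠ 2 ∧ (k = 1 ∨ k + 1 = 2 ^ s)) := by
  obtain ⟨K, rfl⟩ := hka
  obtain ⟨e, rfl⟩ := Nat.exists_eq_add_of_le ha
  have h4 : (4 : ℤ) ^ a = 2 ^ a * 2 ^ a := by
    rw [← mul_pow]
    norm_num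
  have hpa : (0 : ℤ) < 2 ^ a := by positivity
  have h1 : (K : ℤ) * (2 ^ e - K) = 2 ^ (a + e) - 1 := by
    push_cast at h
    rw [h4] at h
    have h2 : (2 : ℤ) ^ a * 2 ^ a * (K * (2 ^ e - K)) = 2 ^ a * 2 ^ a * (2 ^ (a + e) - 1) := by
      rw [← h, pow_add]
      ring
    exact mul_left_cancel₀ (by positivity) h2
  -- `e ≥ 1`
  rcases e with _ | f
  · exfalso
    have h2 : (2 : ℤ) ^ 1 ≤ 2 ^ (a + 0) := pow_le_pow_right₀ (by norm_num) hs
    have h3 : (0 : ℤ) ≤ K := Int.natCast_nonneg K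
    have h5 : (0 : ℤ) ≤ K * (K - 1) := by
      rcases Nat.eq_zero_or_pos K with rfl | hK
      · simp
      · have : (1 : ℤ) ≤ K := by exact_mod_cast hK
        nlinarith
    rw [pow_zero] at h1
    nlinarith
  have hs2 : (2 : ℤ) ≤ 2 ^ (a + (f + 1)) := by
    calc (2 : ℤ) = 2 ^ 1 := by norm_num
      _ ≤ _ := pow_le_pow_right₀ (by norm_num) (by omega)
  have hK0 : 0 < K := by
    rcases Nat.eq_zero_or_pos K with rfl | hK
    · simp at h1
      omega
    · exact hK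
  have hK1 : K < 2 ^ (f + 1) := by
    by_contra hcon
    push Not at hcon
    have h2 : ((2 : ℤ) ^ (f + 1)) ≤ K := by exact_mod_cast hcon
    have h3 : (0 : ℤ) < K := by exact_mod_cast hK0
    nlinarith
  -- `K` is odd
  obtain ⟨j, hj⟩ : ∃ j, K = 2 * j + 1 := by
    rcases Nat.even_or_odd' K with ⟨j, hj | hj⟩
    · exfalso
      rw [hj] at h1
      have h2 : (2 : ℤ) ^ (a + (f + 1)) = 2 * 2 ^ (a + f) := by ring
      rw [h2] at h1
      push_cast at h1
      obtain ⟨t, ht⟩ : ∃ t : ℤ, t = j * (2 ^ (f + 1) - 2 * j) := ⟨_, rfl⟩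
      obtain ⟨t', ht'⟩ : ∃ t' : ℤ, t' = 2 ^ (a + f) := ⟨_, rfl⟩
      have h3 : 2 * t = 2 * t' - 1 := by
        rw [ht, ht', ← h1]
        ring
      omega
    · exact ⟨j, hj⟩
  -- the final computations
  have fin1 : (K = 1 ∨ K + 1 = 2 ^ (f + 1)) → (a + (f + 1) = 2 * a + 2 ∧
      (((2 ^ a * K : ℕ) : ℤ) = 2 * 4 ^ a + 2 ^ a ∨ ((2 ^ a * K : ℕ) : ℤ) = 2 * 4 ^ a - 2 ^ a)) ∨
      (a = 0 ∧ a + (f + 1) ≠ 2 ∧ (2 ^ a * K = 1 ∨ 2 ^ a * K + 1 = 2 ^ (a + (f + 1)))) := by
    intro hK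
    have h2 : (2 : ℤ) ^ (f + 1) = 2 ^ (a + (f + 1)) := by
      rcases hK with hK | hK
      · rw [hK] at h1
        push_cast at h1
        linarith
      · have h3 : (K : ℤ) = 2 ^ (f + 1) - 1 := by
          have : (K : ℤ) + 1 = 2 ^ (f + 1) := by exact_mod_cast hK
          linarith
        rw [h3] at h1
        linarith
    have h3 : (2 : ℕ) ^ (f + 1) = 2 ^ (a + (f + 1)) := by exact_mod_cast h2
    have h5 := Nat.pow_right_injective (le_refl 2) h3
    have ha0 : a = 0 := by omega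
    subst ha0
    by_cases hf : f = 1
    · left
      subst hf
      refine ⟨rfl, ?_⟩
      rcases hK with hK | hK
      · right
        rw [hK]
        norm_num
      · left
        have : K = 3 := by
          norm_num at hK
          omega
        rw [this]
        norm_num
    · right
      refine ⟨rfl, by omega, ?_⟩
      rcases hK with hK | hK
      · left
        rw [hK]
        norm_num
      · right
        simpa using hK
  have fin2 : (K = 2 ^ f + 1 ∨ K + 1 = 2 ^ f) → (a + (f + 1) = 2 * a + 2 ∧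
      (((2 ^ a * K : ℕ) : ℤ) = 2 * 4 ^ a + 2 ^ a ∨ ((2 ^ a * K : ℕ) : ℤ) = 2 * 4 ^ a - 2 ^ a)) ∨
      (a = 0 ∧ a + (f + 1) ≠ 2 ∧ (2 ^ a * K = 1 ∨ 2 ^ a * K + 1 = 2 ^ (a + (f + 1)))) := by
    intro hK
    left
    have hK' : (K : ℤ) = 2 ^ f + 1 ∨ (K : ℤ) = 2 ^ f - 1 := by
      rcases hK with hK | hK
      · left
        rw [hK]
        push_cast
        ring
      · right
        have : (K : ℤ) + 1 = 2 ^ f := by exact_mod_cast hK
        linarith
    have h2 : (2 : ℤ) ^ (f + f) = 2 ^ (a + (f + 1)) := by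
      have e1 : (2 : ℤ) ^ (f + 1) = 2 * 2 ^ f := by ring
      have e2 : (2 : ℤ) ^ (f + f) = 2 ^ f * 2 ^ f := by ring
      rw [e1] at h1
      rw [e2]
      rcases hK' with hK' | hK' <;>
      · rw [hK'] at h1
        linarith
    have h3 : (2 : ℕ) ^ (f + f) = 2 ^ (a + (f + 1)) := by exact_mod_cast h2
    have h5 := Nat.pow_right_injective (le_refl 2) h3
    have hf : f = a + 1 := by
      have h6 : f + f = a + (f + 1) := h5
      omega
    refine ⟨by omega, ?_⟩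
    rw [hf] at hK'
    rcases hK' with hK' | hK'
    · left
      push_cast
      rw [hK', h4]
      ring
    · right
      push_cast
      rw [hK', h4]
      ring
  -- the divisibility
  rcases f with _ | g
  · refine fin1 (Or.inl ?_)
    norm_num at hK1
    omega
  have hd : 2 ^ g ∣ j * (j + 1) := by
    have h2 : (4 : ℤ) * (2 ^ g * (K - 2 ^ a)) = 4 * ((j : ℤ) * (j + 1)) := by
      have e1 : (2 : ℤ) ^ (a + (g + 1 + 1)) = 4 * (2 ^ a * 2 ^ g) := by
        rw [pow_add, pow_add, pow_add]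
        ring
      have e2 : (2 : ℤ) ^ (g + 1 + 1) = 4 * 2 ^ g := by
        rw [pow_add, pow_add]
        ring
      rw [e1, e2] at h1
      have e3 : (K : ℤ) = 2 * j + 1 := by exact_mod_cast hj
      have e4 : (K : ℤ) * K = 1 + 4 * ((j : ℤ) * (j + 1)) := by
        rw [e3]
        ring
      linarith
    have h3 : (2 : ℤ) ^ g * (K - 2 ^ a) = (j : ℤ) * (j + 1) := by linarith
    have h6 : ((2 ^ g : ℕ) : ℤ) ∣ ((j * (j + 1) : ℕ) : ℤ) := by
      push_cast
      exact ⟨_, h3.symm⟩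
    exact Int.natCast_dvd_natCast.1 h6
  have hj2 : j < 2 * 2 ^ g := by
    have e1 : 2 ^ (g + 1 + 1) = 4 * 2 ^ g := by
      rw [pow_add, pow_add]
      ring
    rw [e1] at hK1
    omega
  have hcop : Nat.Coprime j (j + 1) := by simp
  have hy : 0 < 2 ^ g := by positivity
  have hor : 2 ^ g ∣ j ∨ 2 ^ g ∣ j + 1 := by
    by_cases h2 : 2 ∣ j
    · left
      have h3 : Nat.Coprime (2 ^ g) (j + 1) := by
        refine Nat.Coprime.pow_left g ?_
        exact Nat.Coprime.coprime_dvd_left h2 hcop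
      exact h3.dvd_of_dvd_mul_right hd
    · right
      have h3 : Nat.Coprime (2 ^ g) j :=
        Nat.Coprime.pow_left g ((Nat.Prime.coprime_iff_not_dvd Nat.prime_two).2 h2)
      exact h3.dvd_of_dvd_mul_left hd
  have e5 : 2 ^ (g + 1) = 2 * 2 ^ g := by ring
  have e6 : 2 ^ (g + 1 + 1) = 4 * 2 ^ g := by
    rw [pow_add, pow_add]
    ring
  rcases hor with ⟨t, ht⟩ | ⟨t, ht⟩
  · have ht2 : t < 2 := by
      by_contra hcon
      push Not at hcon
      have := Nat.mul_le_mul_left (2 ^ g) hcon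
      rw [← ht] at this
      omega
    interval_cases t
    · exact fin1 (Or.inl (by omega))
    · refine fin2 (Or.inl ?_)
      rw [e5, hj, ht]
      ring
  · have ht2 : t < 3 := by
      by_contra hcon
      push Not at hcon
      have := Nat.mul_le_mul_left (2 ^ g) hcon
      rw [← ht] at this
      omega
    interval_cases t
    · omega
    · refine fin2 (Or.inr ?_)
      rw [e5]
      omega
    · refine fin1 (Or.inr ?_)
      rw [e6]
      omega

end Pool.Agent.McF
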