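import Pool.Agent.McF.HMain
import Pool.Agent.McF.Split
import Pool.Agent.McF.TwoPart

set_option autoImplicit false

/-! McF29. The Sylow 2-subgroup. -/

namespace Pool.Agent.McF

open Finset

variable {G : Type} [AddCommGroup G] [Fintype G] {d : G → ℤ} {m : ℕ}

/-- Let `s ≥ 1`, `a` be the exponents of 2 in `v = |G|` and `m`. Split `G = V × M`, `|V| = 2^s`,
`|M|` odd; `lemmaH`: `e = d(·,0)` is flat for `gcd(m, 2^s) = 2^a` (`m ∣ v`: `dvd_card`);
`flat_count`, `dvd_sum` and `two_part`. -/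
theorem gl_even (hd : IsInd d) (hm : 0 < m) (hflat : Flat d m) (he : Even (Fintype.card G)) :
    (Fintype.card G).factorization 2 = 2 * m.factorization 2 + 2 ∨
      (m.factorization 2 = 0 ∧ (Fintype.card G).factorization 2 ≠ 2) := by
  have hv0 : Fintype.card G ≠ 0 := Fintype.card_ne_zero
  have hG : 1 < Fintype.card G := by
    obtain ⟨k, hk⟩ := he
    omega
  have hmv : m ∣ Fintype.card G := dvd_card hd hm hflat hG
  obtain ⟨s, hs⟩ : ∃ s, s = (Fintype.card G).factorization 2 := ⟨_, rfl⟩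
  obtain ⟨a, ha⟩ : ∃ a, a = m.factorization 2 := ⟨_, rfl⟩
  rw [← hs, ← ha]
  have hs1 : 1 ≤ s := by
    rw [hs]
    exact (Nat.prime_two.dvd_iff_one_le_factorization hv0).1 he.two_dvd
  have has : a ≤ s := by
    rw [ha, hs]
    exact (Nat.factorization_le_iff_dvd hm.ne' hv0).2 hmv 2
  have hsplit : Fintype.card G = 2 ^ s * (Fintype.card G / 2 ^ s) := by
    rw [hs]
    exact (Nat.ordProj_mul_ordCompl_eq_self _ 2).symm
  have hcop0 : Nat.Coprime 2 (Fintype.card G / 2 ^ s) := by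
    rw [hs]
    exact Nat.coprime_ordCompl Nat.prime_two hv0
  obtain ⟨N, M, _, _, _, _, e, hN, hM⟩ := exists_split hsplit (hcop0.pow_left s)
  have hcop : (Fintype.card N).Coprime (Fintype.card M) := by
    rw [hN, hM]
    exact hcop0.pow_left s
  have hModd : Odd (Fintype.card M) := by
    rw [hM]
    exact Nat.coprime_two_left.1 hcop0
  have h2s : 1 < 2 ^ s := Nat.one_lt_pow (by omega) (by norm_num)
  have hN1 : 1 < Fintype.card N := by
    rw [hN]
    exact h2s
  have hd' : IsInd (fun y => d (e.symm y)) := fun y => hd _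
  have hE := (lemmaH hcop hModd hN1 hd' hm (hflat.transport e)).1
  have hgcd : m.gcd (Fintype.card N) = 2 ^ a := by
    have h1 : m = 2 ^ a * (m / 2 ^ a) := by
      rw [ha]
      exact (Nat.ordProj_mul_ordCompl_eq_self _ 2).symm
    have h2 : Nat.Coprime (m / 2 ^ a) (2 ^ s) := by
      rw [ha]
      exact ((Nat.coprime_ordCompl Nat.prime_two hm.ne').symm).pow_right s
    rw [hN]
    conv_lhs => rw [h1]
    rw [Nat.Coprime.gcd_mul_right_cancel _ h2]
    exact Nat.gcd_eq_left (pow_dvd_pow 2 has)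
  rw [hgcd] at hE
  have hEi : IsInd (fun x : N => d (e.symm (x, (0 : M)))) := fun x => hd _
  have hpa : 0 < 2 ^ a := by positivity
  have h1 := flat_count hEi hE
  have h2 := dvd_sum hEi hpa hE hN1
  have h3 := sum_pos_of_flat hEi hpa hE hN1
  obtain ⟨k, hk⟩ := Int.eq_ofNat_of_zero_le h3.le
  rw [hk, hN] at h1
  rw [hk] at h2
  have h4 : (k : ℤ) * (2 ^ s - k) = 4 ^ a * (2 ^ s - 1) := by
    have e4 : (4 : ℤ) ^ a = (2 ^ a) ^ 2 := by
      rw [← pow_mul, mul_comm a 2, pow_mul]
      norm_num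
    rw [e4]
    push_cast at h1
    exact h1
  have h5 : 2 ^ a ∣ k := by exact_mod_cast h2
  rcases two_part hs1 has h5 h4 with h6 | h6
  · exact Or.inl h6.1
  · exact Or.inr ⟨h6.1, h6.2.1⟩

end Pool.Agent.McF
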