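import Pool.Agent.McF.Defs

set_option autoImplicit false

/-! McF19. Only one odd prime. -/

namespace Pool.Agent.McF

/-- `2^c (p^b - 1) ≤ 2^c A B` (`A B ≥ A + B - 1`) `= p^(r+b) + B - A ≤ p^(r+b) + p^b - 2`. Multiply the claim by `p^b - 1`: it is enough that
`2 (p^(r+b) + p^b - 2) ≤ (3 p^r + 2) (p^b - 1)`, i.e. `2 p^(r+b) ≤ 3 p^(r+b) - 3 p^r + 2`, true as `p^b ≥ 3`. -/
theorem EqB.two_pow_le {p b r c A B : ℕ} (h : EqB p b r c A B) : 2 * 2 ^ c ≤ 3 * p ^ r + 2 := by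
  have hp3 : 3 ≤ p := by
    have h1 := h.prime.two_le
    have h2 := h.odd
    omega
  have hP : 3 ≤ p ^ b := hp3.trans (Nat.le_self_pow (by have := h.hb; omega) p)
  have he := h.eq
  have hs := h.sum
  have hA := h.hA
  have hB := h.hB
  rw [pow_add] at he
  generalize p ^ b = P at *
  generalize p ^ r = R at *
  have hC : 0 < 2 ^ c := by positivity
  generalize 2 ^ c = C at *
  subst hs
  by_contra hcon
  push Not at hcon
  zify at he hA hB hP hcon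
  have h1 : (0 : ℤ) ≤ C * ((A - 1) * (B - 1)) :=
    mul_nonneg (Int.natCast_nonneg _) (mul_nonneg (by linarith) (by linarith))
  have h2 : (C : ℤ) * (A + B - 1) ≤ R * (A + B) + B - A := by nlinarith
  have h3 : (3 * (R : ℤ) + 3) * (A + B - 1) ≤ 2 * C * (A + B - 1) :=
    mul_le_mul_of_nonneg_right (by linarith) (by linarith)
  have h4 : (0 : ℤ) ≤ R * (A + B - 3) := mul_nonneg (Int.natCast_nonneg _) (by linarith)
  nlinarith

/-- Let `v = 2^c m Q`. `4 m² (v - 1) ≤ v²` gives `4 m² ≤ v + 1 + 1 / (v - 1)`, `v > 2`, so `4 m² ≤ v + 1`, so `4 m ≤ 2^c Q + 1/m`, so `4 m ≤ 2^c Q`. Squaring and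
`Q² ≤ m`: `16 m ≤ 4^c`. With `x y ≤ m`, `3 x ≥ 2 (2^c - 1)`, `3 y ≥ 2 (2^c - 1)`: `16 * 4 (2^c - 1)² ≤ 9 * 4^c`, so `8 (2^c - 1) ≤ 3 * 2^c`, so
`2^c ≤ 8/5`: a contradiction to `c ≥ 1`. -/
theorem no_two {c m Q x y : ℕ} (hc : 1 ≤ c) (hm : 2 ≤ m) (hQ : 1 ≤ Q)
    (h : 4 * m ^ 2 * (2 ^ c * m * Q - 1) ≤ (2 ^ c * m * Q) ^ 2) (hQm : Q ^ 2 ≤ m)
    (hxy : x * y ≤ m) (hx : 2 * 2 ^ c ≤ 3 * x + 2) (hy : 2 * 2 ^ c ≤ 3 * y + 2) : False := by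
  have hC : 2 ≤ 2 ^ c := by
    calc 2 = 2 ^ 1 := (pow_one 2).symm
      _ ≤ 2 ^ c := Nat.pow_le_pow_right (by norm_num) hc
  generalize 2 ^ c = C at *
  have hv : 4 ≤ C * m * Q := by
    calc 4 = 2 * 2 * 1 := by norm_num
      _ ≤ C * m * Q := Nat.mul_le_mul (Nat.mul_le_mul hC hm) hQ
  obtain ⟨w, hw⟩ : ∃ w, C * m * Q = w + 1 := ⟨C * m * Q - 1, by omega⟩
  rw [hw, Nat.add_sub_cancel] at h
  have h1 : 4 * m ^ 2 ≤ w + 2 := by
    by_contra hcon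
    push Not at hcon
    have h2 : (w + 3) * w ≤ 4 * m ^ 2 * w := Nat.mul_le_mul_right _ hcon
    nlinarith
  have h2 : 4 * m ≤ C * Q := by
    by_contra hcon
    push Not at hcon
    have h3 : (C * Q + 1) * m ≤ 4 * m * m := Nat.mul_le_mul_right _ hcon
    nlinarith
  have h3 : 16 * m ≤ C ^ 2 := by
    have h4 : (4 * m) ^ 2 ≤ (C * Q) ^ 2 := Nat.pow_le_pow_left h2 2
    have h5 : C ^ 2 * Q ^ 2 ≤ C ^ 2 * m := Nat.mul_le_mul_left _ hQm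
    have h6 : 16 * m * m ≤ C ^ 2 * m := by nlinarith
    exact Nat.le_of_mul_le_mul_right h6 (by omega)
  obtain ⟨D, rfl⟩ : ∃ D, C = D + 1 := ⟨C - 1, by omega⟩
  have h4 : (2 * D) * (2 * D) ≤ (3 * x) * (3 * y) := Nat.mul_le_mul (by omega) (by omega)
  have h5 : 64 * D ^ 2 ≤ 9 * (D + 1) ^ 2 := by nlinarith
  have h6 : 1 ≤ D := by omega
  nlinarith

end Pool.Agent.McF
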