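import Pool.Agent.McF.Defs

set_option autoImplicit false

/-! McF15. Two descents for binary quadratic forms. -/

namespace Pool.Agent.McF

/-- Induction on `k + k'` (over natural numbers), for all `k, k'` and both signs at the same time.
Let `k'' = k - n k'`: `k k'' = k'² ± Q` and `k'² - n k' k'' - k''² = ∓ Q`; `gcd(k', k'') = 1`,
`k' + k'' < k + k'`.
Value `+Q`: `k k'' = k'² + Q > 0`, so `k'' ≥ 1`: use the induction hypothesis for `(k', k'')`.
Value `-Q`: `k k'' = k'² - Q`. If `k'² > Q` then `k'' ≥ 1`: induction. If `k'² = Q` then `k'' = 0`,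
`k = n k'`, `gcd = k' = 1`, `Q = 1`: a contradiction. If `k'² < Q` then `k'' < 0`, and
`k + |k''| = n k'`, `k |k''| = Q - k'²`, and `k |k''| ≥ k + |k''| - 1`, so `Q - k'² ≥ n k' - 1`, so
`n ≤ n k' ≤ Q + 1 - k'² ≤ Q`. -/
theorem lemY {n Q k k' : ℤ} (hQ : 2 ≤ Q) (hn : Q ≤ n) (hk : 1 ≤ k) (hk' : 1 ≤ k')
    (hc : IsCoprime k k') (h : k ^ 2 - n * k * k' - k' ^ 2 = Q ∨ k ^ 2 - n * k * k' - k' ^ 2 = -Q) :
    n = Q := by
  obtain ⟨N, hN⟩ : ∃ N : ℕ, k + k' ≤ N := ⟨(k + k').toNat, Int.self_le_toNat _⟩
  induction N generalizing k k' with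
  | zero =>
    push_cast at hN
    linarith
  | succ N ih =>
    obtain ⟨m, hm⟩ : ∃ m, m = k - n * k' := ⟨_, rfl⟩
    have hlt : m < k := by nlinarith
    have hcop : IsCoprime k' m := by
      have h1 : IsCoprime k' (k + k' * (-n)) := (hc.symm).add_mul_left_right (-n)
      have h2 : k + k' * (-n) = m := by rw [hm]; ring
      rwa [h2] at h1
    have hstep : 1 ≤ m → n = Q := by
      intro hm1
      refine ih hk' hm1 hcop ?_ ?_
      · have h3 : k' ^ 2 - n * k' * m - m ^ 2 = -(k ^ 2 - n * k * k' - k' ^ 2) := by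
          rw [hm]
          ring
        rcases h with h | h
        · right
          rw [h3, h]
        · left
          rw [h3, h, neg_neg]
      · push_cast at hN ⊢
        linarith
    have hkm : k * m = k ^ 2 - n * k * k' := by
      rw [hm]
      ring
    rcases h with h | h
    · refine hstep ?_
      have h1 : 0 < k * m := by
        rw [hkm]
        nlinarith
      exact pos_of_mul_pos_right h1 (by linarith)
    · have h1 : k * m = k' ^ 2 - Q := by
        rw [hkm]
        linarith
      rcases lt_trichotomy (k' ^ 2) Q with h2 | h2 | h2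
      · -- the last step
        have h3 : m ≤ -1 := by
          have h4 : k * m < 0 := by linarith
          have h5 : m < 0 := neg_of_mul_neg_right h4 (by linarith)
          linarith
        have h4 : 0 ≤ (k - 1) * (-m - 1) := mul_nonneg (by linarith) (by linarith)
        have h5 : n * k' ≤ Q + 1 - k' ^ 2 := by
          have h6 : (k - 1) * (-m - 1) = -(k * m) - (k - m) + 1 := by ring
          have h7 : k - m = n * k' := by
            rw [hm]
            ring
          rw [h6, h7, h1] at h4
          linarith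
        have h6 : n ≤ n * k' := le_mul_of_one_le_right (by linarith) hk'
        have h7 : 1 ≤ k' ^ 2 := one_le_pow₀ hk'
        linarith
      · -- `k'' = 0`
        exfalso
        have h3 : m = 0 := by
          rcases mul_eq_zero.1 (show k * m = 0 by linarith) with h4 | h4
          · linarith
          · exact h4
        rw [h3, isCoprime_zero_right] at hcop
        rcases Int.isUnit_iff.1 hcop with h4 | h4
        · rw [h4] at h2
          linarith
        · linarith
      · refine hstep ?_
        have h3 : 0 < k * m := by linarith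
        exact pos_of_mul_pos_right h3 (by linarith)

/-- Induction on `l`, both statements at the same time. `l = 0`: `g² = 1`, `g = 1`. `l ≥ 1`: `g ≠ l`
(`g = l` gives `-Q l² = ± 1`), so `g ≥ l + 1`. Let `r = g - Q l`: `g r = l² ± 1`, so `0 ≤ r` and
`r ≤ l` (`l² + 1 ≤ g l`), and `l² - Q l r - r² = ∓ 1`. Apply the induction hypothesis to `(l, r)` if
`r < l`; `r = l` gives `-Q l² = ∓ 1`, impossible. (`g = r + Q l`.) -/
theorem lemU {Q g l : ℤ} (hQ : 2 ≤ Q) (hl : 0 ≤ l) (hgl : l ≤ g) :
    (g ^ 2 - Q * g * l - l ^ 2 = 1 → Q ∣ l ∧ Q ∣ g - 1) ∧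
      (g ^ 2 - Q * g * l - l ^ 2 = -1 → Q ∣ g ∧ Q ∣ l - 1) := by
  obtain ⟨N, hN⟩ : ∃ N : ℕ, l ≤ N := ⟨l.toNat, Int.self_le_toNat _⟩
  induction N generalizing g l with
  | zero =>
    have h0 : l = 0 := le_antisymm (by simpa using hN) hl
    subst h0
    constructor
    · intro h
      have h1 : g = 1 := by nlinarith
      subst h1
      exact ⟨dvd_zero _, by simp⟩
    · intro h
      nlinarith
  | succ N ih =>
    rcases eq_or_lt_of_le hl with h0 | h0
    · exact ih hl hgl (by rw [← h0]; positivity)
    obtain ⟨r, hr⟩ : ∃ r, r = g - Q * l := ⟨_, rfl⟩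
    have hgr : g * r = g ^ 2 - Q * g * l := by
      rw [hr]
      ring
    have hl1 : 1 ≤ l ^ 2 := one_le_pow₀ (by linarith)
    have hQl : 2 ≤ Q * l ^ 2 := by nlinarith
    -- the common part
    have key : ∀ v : ℤ, -1 ≤ v → v ≤ 1 → g ^ 2 - Q * g * l - l ^ 2 = v →
        0 ≤ r ∧ r < l ∧ l ^ 2 - Q * l * r - r ^ 2 = -v := by
      intro v hv1 hv2 hv
      have h1 : g * r = l ^ 2 + v := by
        rw [hgr]
        linarith
      have h2 : l + 1 ≤ g := by
        rcases eq_or_lt_of_le hgl with h3 | h3
        · exfalso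
          rw [← h3] at hv
          have h4 : l ^ 2 - Q * l * l - l ^ 2 = -(Q * l ^ 2) := by ring
          rw [h4] at hv
          linarith
        · linarith
      have h3 : 0 ≤ r := by
        have h4 : 0 ≤ g * r := by linarith
        exact nonneg_of_mul_nonneg_right h4 (by linarith)
      have h4 : r ≤ l := by
        have h5 : g * r ≤ g * l := by
          rw [h1]
          nlinarith
        exact le_of_mul_le_mul_left h5 (by linarith)
      have h5 : l ^ 2 - Q * l * r - r ^ 2 = -v := by
        have h6 : l ^ 2 - Q * l * r - r ^ 2 = l ^ 2 - g * r := by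
          rw [hr]
          ring
        rw [h6, h1]
        ring
      refine ⟨h3, lt_of_le_of_ne h4 ?_, h5⟩
      intro h6
      rw [h6] at h5
      have h7 : l ^ 2 - Q * l * l - l ^ 2 = -(Q * l ^ 2) := by ring
      rw [h7] at h5
      linarith
    have hg : g = r + Q * l := by
      rw [hr]
      ring
    constructor
    · intro h
      obtain ⟨h1, h2, h3⟩ := key 1 (by norm_num) le_rfl h
      have h4 := (ih h1 h2.le (by push_cast at hN ⊢; linarith)).2 h3
      refine ⟨h4.1, ?_⟩
      have h5 : g - 1 = (r - 1) + Q * l := by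
        rw [hg]
        ring
      rw [h5]
      exact dvd_add h4.2 (dvd_mul_right _ _)
    · intro h
      obtain ⟨h1, h2, h3⟩ := key (-1) le_rfl (by norm_num) h
      rw [neg_neg] at h3
      have h4 := (ih h1 h2.le (by push_cast at hN ⊢; linarith)).1 h3
      refine ⟨?_, h4.2⟩
      rw [hg]
      exact dvd_add h4.1 (dvd_mul_right _ _)

end Pool.Agent.McF
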