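import Pool.Agent.McF.SixA
import Pool.Agent.McF.LemY

set_option autoImplicit false

/-! McF17. Equation (B) with `b < r < 2b`, first case. -/

namespace Pool.Agent.McF

variable {p b r c A B : ℕ}

/-- `b < r` (`EqB.lt`). Let `P = p^(r-b)`, `Q = p^(2b-r)` (both `≥ 3`), `P Q = p^b`, `P² Q = p^r`, `x = A`, `B = P Q - x > x`. Work in `ℤ`.
(1) `B ∣ P² Q - 1 = P (B + x) - 1` (`EqB.dvd_sub`), so `P x - 1 = g B`, `g ≥ 1` (`P x > 1`), i.e. `x (P + g) = g P Q + 1`.
(2) `x ∣ P² Q + 1` (`EqB.dvd_add`), so `x ∣ g (P² Q + 1) = P (x (P + g) - 1) + g`, so `x ∣ P - g`: `P - g = x y`. `y = 0` is impossible (`P ∣ 1`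
by (1)). `y < 0` is impossible: `g ≥ P + x`, `g B > P x`. So `y ≥ 1`.
(3) `g x = g P Q - P x + 1 = 1 + k P` with `k = g Q - x`; `k ≥ 0` as `g x ≥ 1`; `k = 0` gives `x = g = 1`, `Q = 1`, impossible. So `k ≥ 1`.
(4) `l = g - k y`: `x l = x g - k (P - g) = 1 + k g`, so `l ≥ 1`. From `x = g Q - k`: `g Q l - k l - k g = 1`.
(5) `k' = Q l - k`: `k' (g + l) = Q l² + 1`, so `k' ≥ 1`. With `g = l + k y`: `y k k' = l (k - k') + 1`. So
`k² - (Q y) k k' - k'² = -Q` (multiply by `Q` and use `Q l = k + k'`), `gcd(k, k') = 1`. `lemY` with `n = Q y`: `y = 1`.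
(6) So `k = g - l`, `x = g Q - g + l`, and `x l = k g + 1` becomes `g² - Q g l - l² = -1`; `P = g + x = Q g + l`. `lemU`: `Q ∣ l - 1`, so `Q ∣ P - 1`.
But `p ∣ Q` and `p ∣ P`: a contradiction. -/
theorem six_one (h : EqB p b r c A B) (hr : r < 2 * b) (hAB : A < B) : False := by
  have hb := h.lt
  obtain ⟨α, β, hα, hβ, -⟩ := h.quot
  have hp3 : 3 ≤ p := by
    have h2 := h.prime.two_le
    have h3 := h.odd
    omega
  obtain ⟨P, hP⟩ : ∃ P : ℤ, P = (p : ℤ) ^ (r - b) := ⟨_, rfl⟩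
  obtain ⟨Q, hQ⟩ : ∃ Q : ℤ, Q = (p : ℤ) ^ (2 * b - r) := ⟨_, rfl⟩
  have hp3Z : (3 : ℤ) ≤ p := by exact_mod_cast hp3
  have hpP : (p : ℤ) ∣ P := by
    rw [hP]
    exact dvd_pow_self _ (by omega)
  have hpQ : (p : ℤ) ∣ Q := by
    rw [hQ]
    exact dvd_pow_self _ (by omega)
  have hP0 : 0 < P := by
    rw [hP]
    positivity
  have hQ0 : 0 < Q := by
    rw [hQ]
    positivity
  have hP3 : 3 ≤ P := hp3Z.trans (Int.le_of_dvd hP0 hpP)
  have hQ3 : 3 ≤ Q := hp3Z.trans (Int.le_of_dvd hQ0 hpQ)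
  have hPQ : P * Q = (p : ℤ) ^ b := by
    rw [hP, hQ, ← pow_add]
    congr 1
    omega
  have hPPQ : P * (P * Q) = (p : ℤ) ^ r := by
    rw [hPQ, hP, ← pow_add]
    congr 1
    omega
  obtain ⟨x, hx⟩ : ∃ x : ℤ, x = A := ⟨_, rfl⟩
  obtain ⟨z, hz⟩ : ∃ z : ℤ, z = B := ⟨_, rfl⟩
  have hx1 : 1 ≤ x := by
    rw [hx]
    exact_mod_cast h.hA
  have hxz : x < z := by
    rw [hx, hz]
    exact_mod_cast hAB
  have hsum : x + z = P * Q := by
    rw [hPQ, hx, hz]
    exact_mod_cast h.sum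
  have hαZ : P * (P * Q) + 1 = x * α := by
    rw [hPPQ, hx]
    exact_mod_cast hα
  have hβZ : P * (P * Q) = z * β + 1 := by
    rw [hPPQ, hz]
    exact_mod_cast hβ
  -- (1)
  obtain ⟨g, hg⟩ : ∃ g : ℤ, g = β - P := ⟨_, rfl⟩
  have h1 : P * x - 1 = g * z := by
    rw [hg]
    linear_combination hβZ + P * hsum
  have hPx : 0 < P * x - 1 := by
    have : 3 * 1 ≤ P * x := mul_le_mul hP3 hx1 (by norm_num) (by omega)
    linarith
  have hg1 : 1 ≤ g := by
    by_contra hcon
    push Not at hcon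
    have : g * z ≤ 0 := mul_nonpos_of_nonpos_of_nonneg (by omega) (by omega)
    omega
  -- (2)
  have h2 : P - g = x * (P * (P + g) - g * α) := by
    have e1 : z = P * Q - x := by linarith
    rw [e1] at h1
    linear_combination (-g) * hαZ - P * h1
  obtain ⟨y, hy⟩ : ∃ y : ℤ, y = P * (P + g) - g * α := ⟨_, rfl⟩
  rw [← hy] at h2
  have hy1 : 1 ≤ y := by
    by_contra hcon
    push Not at hcon
    rcases (show y = 0 ∨ y ≤ -1 by omega) with h0 | hneg
    · rw [h0, mul_zero] at h2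
      have h3 : g = P := by linarith
      rw [h3] at h1
      have h4 : P ∣ 1 := ⟨x - z, by linear_combination -h1⟩
      have := Int.le_of_dvd one_pos h4
      omega
    · have h3 : P + x ≤ g := by
        have h5 : x * y ≤ x * (-1) := mul_le_mul_of_nonneg_left hneg (by omega)
        linarith
      have h4 : (P + x) * z ≤ g * z := mul_le_mul_of_nonneg_right h3 (by omega)
      have h5 : P * x ≤ P * z := mul_le_mul_of_nonneg_left hxz.le hP0.le
      have h6 : 0 < x * z := mul_pos (by omega) (by omega)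
      linarith
  -- (3)
  obtain ⟨k, hk⟩ : ∃ k : ℤ, k = g * Q - x := ⟨_, rfl⟩
  have h3 : g * x = k * P + 1 := by
    have e1 : z = P * Q - x := by linarith
    rw [e1] at h1
    rw [hk]
    linear_combination h1
  have hgx : 0 < g * x := mul_pos (by omega) (by omega)
  have hk1 : 1 ≤ k := by
    by_contra hcon
    push Not at hcon
    rcases (show k = 0 ∨ k ≤ -1 by omega) with h0 | hneg
    · rw [h0, zero_mul, zero_add] at h3
      have hg' : g = 1 := Int.eq_one_of_mul_eq_one_right (by omega) h3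
      have hx' : x = 1 := Int.eq_one_of_mul_eq_one_right (by omega) ((mul_comm _ _).trans h3)
      rw [h0, hg', hx'] at hk
      omega
    · have h4 : k * P ≤ (-1) * P := mul_le_mul_of_nonneg_right hneg hP0.le
      linarith
  -- (4)
  obtain ⟨l, hl⟩ : ∃ l : ℤ, l = g - k * y := ⟨_, rfl⟩
  have h4 : x * l = 1 + k * g := by
    rw [hl]
    linear_combination h3 + k * h2
  have hkg : 0 < k * g := mul_pos (by omega) (by omega)
  have hl1 : 1 ≤ l := by
    by_contra hcon
    push Not at hcon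
    have : x * l ≤ 0 := mul_nonpos_of_nonneg_of_nonpos (by omega) (by omega)
    omega
  have h5 : g * Q * l - k * l - k * g = 1 := by
    have e : x = g * Q - k := by linarith
    rw [e] at h4
    linear_combination h4
  -- (5)
  obtain ⟨k', hk'⟩ : ∃ k' : ℤ, k' = Q * l - k := ⟨_, rfl⟩
  have h6 : k' * (g + l) = Q * l ^ 2 + 1 := by
    rw [hk']
    linear_combination h5
  have hk'1 : 1 ≤ k' := by
    by_contra hcon
    push Not at hcon
    have h7 : k' * (g + l) ≤ 0 := mul_nonpos_of_nonpos_of_nonneg (by omega) (by omega)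
    have h8 : 0 < Q * l ^ 2 := by positivity
    omega
  have hgl : g = l + k * y := by linarith
  have h7 : y * k * k' = l * (k - k') + 1 := by
    have e : Q * l = k + k' := by linarith
    rw [hgl] at h6
    linear_combination h6 + l * e
  have hcop : IsCoprime k k' := ⟨y * k' - l, l, by linear_combination h7⟩
  have h8 : k ^ 2 - (Q * y) * k * k' - k' ^ 2 = -Q := by
    have e : Q * l = k + k' := by linarith
    linear_combination (-Q) * h7 - (k - k') * e
  have hY := lemY (n := Q * y) (Q := Q) (by omega) (le_mul_of_one_le_right hQ0.le hy1) hk1 hk'1 hcop (Or.inr h8)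
  have hy' : y = 1 := by
    have : Q * y = Q * 1 := by rw [mul_one]; exact hY
    exact mul_left_cancel₀ hQ0.ne' this
  -- (6)
  rw [hy', mul_one] at hgl
  rw [hy', mul_one] at h2
  have hkgl : k = g - l := by linarith
  have h9 : g ^ 2 - Q * g * l - l ^ 2 = -1 := by
    rw [hkgl] at h5
    linear_combination -h5
  have hU := (lemU (Q := Q) (g := g) (l := l) (by omega) (by omega) (by omega)).2 h9
  obtain ⟨u, hu⟩ := hU.2
  have hPe : P = Q * g + l := by
    have : x = g * Q - k := by linarith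
    linear_combination h2 + this - hkgl
  obtain ⟨P', hP'⟩ := hpP
  obtain ⟨Q', hQ'⟩ := hpQ
  have hdvd : (p : ℤ) ∣ 1 := ⟨P' - Q' * g - Q' * u, by
    linear_combination hP' - hPe - hu + (-(g + u)) * hQ'⟩
  have := Int.le_of_dvd one_pos hdvd
  omega

end Pool.Agent.McF
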