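import Pool.Agent.McF.SixA
import Pool.Agent.McF.LemY

set_option autoImplicit false

/-! McF18. Equation (B) with `b < r < 2b`, second case. -/

namespace Pool.Agent.McF

variable {p b r c A B : ℕ}

/-- `b < r` (`EqB.lt`). Let `P = p^(r-b)`, `Q = p^(2b-r)` (both `≥ 3`), `P Q = p^b`, `P² Q = p^r`, `x = B`, `A = P Q - x > x`. Work in `ℤ`.
(1) `A ∣ P² Q + 1 = P (A + x) + 1` (`EqB.dvd_add`), so `P x + 1 = g A`, `g ≥ 1`, i.e. `x (P + g) = g P Q - 1`.
(2) `x ∣ P² Q - 1` (`EqB.dvd_sub`), so `x ∣ g (P² Q - 1) = P (x (P + g) + 1) - g`, so `x ∣ P - g`: `P - g = x y`. `y = 0` is impossible (`P ∣ 1` by (1)).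
`y < 0` is impossible: `g ≥ P + x`, `g A ≥ (P + x) (x + 1) > P x + 1`. So `y ≥ 1`.
(3) `g x = g P Q - P x - 1 = k P - 1` with `k = g Q - x`; so `k ≥ 1`.
(4) `l = g - k y`: `x l = x g - k (P - g) = k g - 1 ≥ 0`, so `l ≥ 0`. From `x = g Q - k`: `g Q l - k l - k g = -1`.
(5) `l = 0`: `k g = 1`, `k = g = 1`, `y = 1`, `x = Q - 1`, `P = g + x = Q`, so `B = P - 1`, `A = P² - P + 1`, `p^(r+b) = P^5` and
`2^c A B + A - B = P^5` gives `2^c = P² + 2 P + 2` (`(P² + 2P + 2) (P² - P + 1) (P - 1) = P^5 - P² + 2 P - 2`), which is odd: a contradiction.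
(6) `l ≥ 1`: `k' = Q l - k`: `k' (g + l) = Q l² - 1 > 0`, so `k' ≥ 1`. With `g = l + k y`: `y k k' = l (k - k') - 1`. So
`k² - (Q y) k k' - k'² = Q` (multiply by `Q`, use `Q l = k + k'`), `gcd(k, k') = 1`. `lemY` with `n = Q y`: `y = 1`.
(7) So `k = g - l`, `x = g Q - g + l`, `x l = k g - 1` becomes `g² - Q g l - l² = 1`; `P = g + x = Q g + l`. So `(g - 1) (g + 1) = l P`. `P` is a
power of the odd prime `p`, which divides at most one of `g - 1`, `g + 1` (difference 2), so `P ∣ g - 1` or `P ∣ g + 1`. `g = 1` gives `l P = 0`,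
impossible. `g > 1`: `P ≤ g + 1`, but `P = Q g + l ≥ 3 g + 1`: a contradiction. -/
theorem six_two (h : EqB p b r c A B) (hr : r < 2 * b) (hAB : B < A) : False := by
  have hbr := h.lt
  have hp3 : 3 ≤ p := by
    have h1 := h.prime.two_le
    have h2 := h.odd
    omega
  obtain ⟨u, hu⟩ : ∃ u, r = b + (u + 1) := ⟨r - b - 1, by omega⟩
  obtain ⟨w, hw⟩ : ∃ w, 2 * b = r + (w + 1) := ⟨2 * b - r - 1, by omega⟩
  obtain ⟨P, hP⟩ : ∃ P : ℤ, P = (p : ℤ) ^ (u + 1) := ⟨_, rfl⟩
  obtain ⟨Q, hQ⟩ : ∃ Q : ℤ, Q = (p : ℤ) ^ (w + 1) := ⟨_, rfl⟩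
  have hpz : (3 : ℤ) ≤ p := by exact_mod_cast hp3
  have hpow : ∀ n : ℕ, (3 : ℤ) ≤ (p : ℤ) ^ (n + 1) := by
    intro n
    have h1 : (p : ℤ) ^ 1 ≤ (p : ℤ) ^ (n + 1) :=
      pow_le_pow_right₀ (by linarith) (by omega)
    rw [pow_one] at h1
    linarith
  have hP3 : 3 ≤ P := by rw [hP]; exact hpow u
  have hQ3 : 3 ≤ Q := by rw [hQ]; exact hpow w
  have hPQ : P * Q = (p : ℤ) ^ b := by
    rw [hP, hQ, ← pow_add]
    congr 1
    omega
  have hPPQ : P ^ 2 * Q = (p : ℤ) ^ r := by
    rw [hP, hQ, ← pow_mul, ← pow_add]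
    congr 1
    omega
  obtain ⟨a, haA⟩ : ∃ a : ℤ, a = A := ⟨_, rfl⟩
  obtain ⟨x, hxB⟩ : ∃ x : ℤ, x = B := ⟨_, rfl⟩
  have hx1 : 1 ≤ x := by
    rw [hxB]
    exact_mod_cast h.hB
  have hxa : x < a := by
    rw [hxB, haA]
    exact_mod_cast hAB
  have hsum : a + x = P * Q := by
    rw [hPQ, haA, hxB]
    exact_mod_cast h.sum
  have hd1 : a ∣ P ^ 2 * Q + 1 := by
    rw [hPPQ, haA]
    exact_mod_cast h.dvd_add
  have hd2 : x ∣ P ^ 2 * Q - 1 := by
    have h1 := h.dvd_sub
    have h2 : ((p ^ r - 1 : ℕ) : ℤ) = (p : ℤ) ^ r - 1 := by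
      rw [Nat.cast_sub (Nat.one_le_pow _ _ (by omega))]
      push_cast
      ring
    rw [hPPQ, hxB, ← h2]
    exact_mod_cast h1
  -- (1)
  have hd3 : a ∣ P * x + 1 := by
    have h1 : P * x + 1 = (P ^ 2 * Q + 1) - a * P := by
      have h2 : P ^ 2 * Q = P * (a + x) := by rw [hsum]; ring
      rw [h2]
      ring
    rw [h1]
    exact dvd_sub hd1 (dvd_mul_right a P)
  obtain ⟨g, hg⟩ := hd3
  have ha0 : 0 < a := by linarith
  have hP0 : 0 < P := by linarith
  have hPx : 0 < P * x := mul_pos hP0 (by linarith)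
  have hg1 : 1 ≤ g := by
    by_contra hc
    have h1 : g ≤ 0 := by omega
    have h2 := mul_nonpos_of_nonneg_of_nonpos ha0.le h1
    linarith
  have e1 : g * P * Q = x * (P + g) + 1 := by
    have h2 : g * P * Q = g * (a + x) := by rw [hsum]; ring
    rw [h2]
    linarith
  -- (2)
  have hd4 : x ∣ P - g := by
    have h1 : P - g = g * (P ^ 2 * Q - 1) - x * (P * (P + g)) := by
      have h2 : g * (P ^ 2 * Q - 1) = P * (g * P * Q) - g := by ring
      rw [h2, e1]
      ring
    rw [h1]
    exact dvd_sub (Dvd.dvd.mul_left hd2 g) (dvd_mul_right x _)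
  obtain ⟨y, hy⟩ := hd4
  have hy1 : 1 ≤ y := by
    by_contra hc
    rcases eq_or_ne y 0 with h0 | h0
    · rw [h0, mul_zero] at hy
      have h1 : g = P := by linarith
      have h2 : P ∣ 1 := by
        have h3 : (1 : ℤ) = P * (P * Q - 2 * x) := by
          rw [h1] at e1
          linarith
        rw [h3]
        exact dvd_mul_right P _
      have h3 := Int.le_of_dvd one_pos h2
      linarith
    · have h1 : y ≤ -1 := by omega
      have h2 : x * y ≤ x * (-1) := mul_le_mul_of_nonneg_left h1 (by linarith)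
      have h3 : P + x ≤ g := by linarith
      have h4 : (P + x) * (x + 1) ≤ g * a := by
        refine mul_le_mul h3 (by omega) (by linarith) (by linarith)
      have h5 : (P + x) * (x + 1) = P * x + P + x * x + x := by ring
      have h6 : 0 ≤ x * x := mul_self_nonneg x
      have h7 : g * a = P * x + 1 := by rw [hg]; ring
      linarith
  -- (3)
  obtain ⟨k, hk⟩ : ∃ k : ℤ, k = g * Q - x := ⟨_, rfl⟩
  have e2 : k * P = g * x + 1 := by
    rw [hk]
    linarith
  have hgx : 0 < g * x := mul_pos (by linarith) (by linarith)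
  have hk1 : 1 ≤ k := by
    by_contra hc
    have h1 : k ≤ 0 := by omega
    have h2 := mul_nonpos_of_nonpos_of_nonneg h1 hP0.le
    linarith
  -- (4)
  obtain ⟨l, hl⟩ : ∃ l : ℤ, l = g - k * y := ⟨_, rfl⟩
  have e3 : x * l = k * g - 1 := by
    have h1 : x * l = x * g - k * (x * y) := by rw [hl]; ring
    rw [h1, ← hy]
    linarith
  have hkg : 1 ≤ k * g := by
    have h1 := mul_le_mul hk1 hg1 zero_le_one (by linarith)
    linarith
  have hl0 : 0 ≤ l := by
    by_contra hc
    have h1 : l ≤ -1 := by omega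
    have h2 : x * l ≤ x * (-1) := mul_le_mul_of_nonneg_left h1 (by linarith)
    linarith
  have hx' : x = g * Q - k := by linarith
  rcases eq_or_ne l 0 with hl00 | hl00
  · -- (5)
    have h1 : k * g = 1 := by
      rw [hl00, mul_zero] at e3
      linarith
    have hk2 : k = 1 := by
      have h2 : k ≤ k * g := le_mul_of_one_le_right (by linarith) hg1
      linarith
    have hg2 : g = 1 := by
      rw [hk2, one_mul] at h1
      exact h1
    have hy2 : y = 1 := by
      rw [hl00, hk2, hg2] at hl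
      linarith
    have hx2 : x = Q - 1 := by rw [hx', hk2, hg2]; ring
    have hPQ2 : P = Q := by
      rw [hg2, hy2, hx2] at hy
      linarith
    have ha2 : a = P ^ 2 - P + 1 := by
      have : a = P * Q - x := by linarith
      rw [this, hx2, ← hPQ2]
      ring
    have hx3 : x = P - 1 := by rw [hx2, hPQ2]
    have h5 : (2 : ℤ) ^ c * a * x + a = P ^ 5 + x := by
      have h6 : (p : ℤ) ^ (r + b) = P ^ 5 := by
        rw [pow_add, ← hPPQ, ← hPQ, ← hPQ2]
        ring
      rw [← h6, haA, hxB]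
      exact_mod_cast h.eq
    have h6 : ((2 : ℤ) ^ c - (P ^ 2 + 2 * P + 2)) * (a * x) = 0 := by
      have h7 : (P ^ 2 + 2 * P + 2) * (a * x) = P ^ 5 + x - a := by
        rw [ha2, hx3]
        ring
      rw [sub_mul, h7]
      linarith
    have h7 : (2 : ℤ) ^ c = P ^ 2 + 2 * P + 2 := by
      rcases mul_eq_zero.1 h6 with h8 | h8
      · linarith
      · exfalso
        have : 0 < a * x := mul_pos ha0 (by linarith)
        linarith
    have hPo : Odd P := by
      rw [hP]
      refine Odd.pow ?_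
      have := h.prime.odd_of_ne_two h.odd
      exact_mod_cast this
    have h8 : Even ((2 : ℤ) ^ c) := by
      refine (even_two).pow_of_ne_zero ?_
      have := h.hc
      omega
    rw [h7] at h8
    obtain ⟨t, ht⟩ := hPo
    obtain ⟨s, hs⟩ := h8
    rw [ht] at hs
    have : 2 * (2 * t ^ 2 + 4 * t + 2 - s) = -1 := by linarith
    omega
  · -- (6)
    have hl1 : 1 ≤ l := by omega
    obtain ⟨k', hk'⟩ : ∃ k' : ℤ, k' = Q * l - k := ⟨_, rfl⟩
    have e4 : g * Q * l = k * l + k * g - 1 := by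
      have h1 : (g * Q - k) * l = k * g - 1 := by rw [← hx']; exact e3
      linarith
    have e5 : k' * (g + l) = Q * l ^ 2 - 1 := by
      rw [hk']
      linarith
    have hQl : 0 < Q * l ^ 2 - 1 := by
      have h2 : 1 ≤ l ^ 2 := one_le_pow₀ hl1
      have h3 : Q ≤ Q * l ^ 2 := le_mul_of_one_le_right (by linarith) h2
      linarith
    have hk'1 : 1 ≤ k' := by
      by_contra hc
      have h1 : k' ≤ 0 := by omega
      have h2 := mul_nonpos_of_nonpos_of_nonneg h1 (show 0 ≤ g + l by linarith)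
      linarith
    have e6 : y * k * k' = l * (k - k') - 1 := by
      have h1 : g = l + k * y := by linarith
      have h2 : Q * l = k + k' := by linarith
      have h3 : k' * (l + k * y + l) = l * (Q * l) - 1 := by
        rw [← h1, e5]
        ring
      rw [h2] at h3
      linarith
    have e7 : k ^ 2 - Q * y * k * k' - k' ^ 2 = Q := by
      have h2 : Q * l = k + k' := by linarith
      have h3 : Q * (y * k * k') = (Q * l) * (k - k') - Q := by
        rw [e6]
        ring
      rw [h2] at h3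
      linarith
    have hco : IsCoprime k k' := ⟨l - y * k', -l, by linarith⟩
    have hY := lemY (n := Q * y) (Q := Q) (by linarith)
      (le_mul_of_one_le_right (by linarith) hy1) hk1 hk'1 hco (Or.inl e7)
    have hy2 : y = 1 := by
      have h1 : Q * (y - 1) = 0 := by linarith
      rcases mul_eq_zero.1 h1 with h2 | h2
      · linarith
      · linarith
    -- (7)
    have hk2 : k = g - l := by
      rw [hy2] at hl
      linarith
    have hPg : P = Q * g + l := by
      rw [hy2, mul_one] at hy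
      have : P = g + x := by linarith
      rw [this, hx', hk2]
      ring
    have e8 : (g - 1) * (g + 1) = l * P := by
      rw [hk2] at e4
      rw [hPg]
      linarith
    have hpp : Prime (p : ℤ) := Nat.prime_iff_prime_int.1 h.prime
    have hdv : P ∣ (g - 1) * (g + 1) := by
      rw [e8]
      exact dvd_mul_left P l
    have hg2 : 2 ≤ g := by
      by_contra hc
      have h1 : g = 1 := by omega
      rw [h1] at e8
      have : 0 < l * P := mul_pos (by linarith) hP0
      linarith
    have hgP : g + 1 < P := by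
      rw [hPg]
      have h1 : 3 * g ≤ Q * g := mul_le_mul_of_nonneg_right hQ3 (by linarith)
      linarith
    by_cases hpg : (p : ℤ) ∣ g - 1
    · have h1 : ¬ (p : ℤ) ∣ g + 1 := by
        intro h2
        have h3 : (p : ℤ) ∣ 2 := by
          have h4 : (2 : ℤ) = (g + 1) - (g - 1) := by ring
          rw [h4]
          exact dvd_sub h2 hpg
        have h4 := Int.le_of_dvd two_pos h3
        linarith
      have h2 : IsCoprime P (g + 1) := by
        rw [hP]
        exact (hpp.coprime_iff_not_dvd.2 h1).pow_left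
      have h3 : P ∣ g - 1 := h2.dvd_of_dvd_mul_right hdv
      have h4 := Int.le_of_dvd (by linarith) h3
      linarith
    · have h2 : IsCoprime P (g - 1) := by
        rw [hP]
        exact (hpp.coprime_iff_not_dvd.2 hpg).pow_left
      have h3 : P ∣ g + 1 := h2.dvd_of_dvd_mul_left hdv
      have h4 := Int.le_of_dvd (by linarith) h3
      linarith

/-- `A ≠ B` because `A + B = p^b` is odd. -/
theorem EqB.two_mul_le (h : EqB p b r c A B) (h1 : r < 2 * b → A < B → False) : 2 * b ≤ r := by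
  by_contra hc
  have hr : r < 2 * b := by omega
  rcases lt_trichotomy A B with h2 | h2 | h2
  · exact h1 hr h2
  · have h3 : Odd (p ^ b) := (h.prime.odd_of_ne_two h.odd).pow
    rw [← h.sum, h2] at h3
    exact (Nat.not_odd_iff_even.2 ⟨B, rfl⟩) h3
  · exact six_two h hr h2

end Pool.Agent.McF
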