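import Pool.Agent.McF.GlB
import Pool.Agent.McF.GlV
import Pool.Agent.McF.SixI
import Pool.Agent.McF.SixII
import Pool.Agent.McF.Seven

set_option autoImplicit false

/-! McF. The global theorem for flat sets. -/

namespace Pool.Agent.McF

open Finset

variable {G : Type} [AddCommGroup G] [Fintype G] {d : G → ℤ} {m : ℕ}

private theorem count_le {k v m : ℕ} (h : (k : ℤ) * ((v : ℤ) - k) = (m : ℤ) ^ 2 * ((v : ℤ) - 1))
    (hv : 1 ≤ v) : 4 * m ^ 2 * (v - 1) ≤ v ^ 2 := by
  zify [hv]
  nlinarith [sq_nonneg ((v : ℤ) - 2 * k)]

/-- **The global theorem.** -/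
theorem main_flat (hd : IsInd d) (hm : 2 ≤ m) (hflat : Flat d m) (he : Even (Fintype.card G)) :
    Fintype.card G = 4 * m ^ 2 ∨ ∃ p b r c A B : ℕ, EqB p b r c A B ∧ 2 * b ≤ r ∧
      Fintype.card G = 2 ^ c * p ^ (r + b) ∧ m = p ^ r ∧ (5 ≤ p → (p - 1) ∣ B) ∧
      ((∑ x, d x) = (p : ℤ) ^ r * (2 ^ c * A - 1) ∨
        2 ^ c * (p : ℤ) ^ (r + b) - (∑ x, d x) = (p : ℤ) ^ r * (2 ^ c * A - 1)) := by
  have hv0 : 0 < Fintype.card G := Fintype.card_pos
  have hv1 : 1 < Fintype.card G := by
    obtain ⟨t, ht⟩ := he
    omega
  have hm0 : 0 < m := by omega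
  have hmv : m ∣ Fintype.card G := dvd_card hd hm0 hflat hv1
  have hloc := fun (p : ℕ) (hp : p.Prime) (hp2 : p ≠ 2) (hpv : p ∣ Fintype.card G) =>
    gl_local hd hm hflat he hp hp2 hpv
  rcases gl_even hd hm0 hflat he with h2 | ⟨ha, hs⟩
  · left
    refine Nat.eq_of_factorization_eq hv0.ne' (by positivity) fun p => ?_
    rw [Nat.factorization_mul (by norm_num) (by positivity), Nat.factorization_pow]
    simp only [Finsupp.add_apply, Finsupp.smul_apply, smul_eq_mul]
    by_cases hp : p.Prime
    · by_cases hp2 : p = 2
      · subst hp2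
        have h4 : (4 : ℕ).factorization 2 = 2 := by
          rw [show (4 : ℕ) = 2 ^ 2 by norm_num, hp.factorization_pow]
          simp
        rw [h2, h4]
        ring
      · have h4 : (4 : ℕ).factorization p = 0 := by
          rw [show (4 : ℕ) = 2 ^ 2 by norm_num, Nat.prime_two.factorization_pow]
          simp [Ne.symm hp2]
        rw [h4, zero_add]
        by_cases hpv : p ∣ Fintype.card G
        · rcases hloc p hp hp2 hpv with ⟨-, h⟩ | ⟨h0, hs, -⟩
          · exact h
          · exact absurd (by rw [h2, h0]) hs
        · rw [Nat.factorization_eq_zero_of_not_dvd hpv,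
            Nat.factorization_eq_zero_of_not_dvd (fun h => hpv (h.trans hmv))]
    · rw [Nat.factorization_eq_zero_of_not_prime _ hp, Nat.factorization_eq_zero_of_not_prime _ hp,
        Nat.factorization_eq_zero_of_not_prime _ hp]
  · right
    have h2m : ¬ 2 ∣ m := fun h => by
      have := Nat.prime_two.factorization_pos_of_dvd hm0.ne' h
      omega
    obtain ⟨p, hp, hpm⟩ := Nat.exists_prime_and_dvd (show m ≠ 1 by omega)
    have hp2 : p ≠ 2 := by
      rintro rfl
      exact h2m hpm
    have hB : ∀ q : ℕ, q.Prime → q ≠ 2 → q ∣ Fintype.card G → ∃ b A B : ℕ,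
        (Fintype.card G).factorization q = m.factorization q + b ∧
        EqB q b (m.factorization q) ((Fintype.card G).factorization 2) A B := by
      intro q hq hq2 hqv
      rcases hloc q hq hq2 hqv with ⟨h, -⟩ | ⟨-, -, h⟩
      · rw [ha] at h
        exact absurd h hs
      · exact h
    have hle : ∀ {q b r c A B : ℕ}, EqB q b r c A B → 2 * b ≤ r := fun h =>
      h.two_mul_le fun hr hAB => six_one h hr hAB
    have hs1 : 1 ≤ (Fintype.card G).factorization 2 :=
      Nat.prime_two.factorization_pos_of_dvd hv0.ne' he.two_dvd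
    -- the quotient `Q`
    have hdiv : 2 ^ (Fintype.card G).factorization 2 * m ∣ Fintype.card G := by
      refine Nat.Coprime.mul_dvd_of_dvd_of_dvd ?_ (Nat.ordProj_dvd _ _) hmv
      exact Nat.Coprime.pow_left _ ((Nat.Prime.coprime_iff_not_dvd Nat.prime_two).2 h2m)
    obtain ⟨Q, hQ⟩ := hdiv
    have hQ0 : Q ≠ 0 := by
      rintro rfl
      omega
    have hfac : ∀ q, q.Prime → q ≠ 2 → (Fintype.card G).factorization q =
        m.factorization q + Q.factorization q := by
      intro q hq hq2
      conv_lhs => rw [hQ]
      rw [Nat.factorization_mul (by positivity) hQ0,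
        Nat.factorization_mul (by positivity) hm0.ne', Nat.prime_two.factorization_pow]
      simp [Ne.symm hq2]
    have hQ2 : Q.factorization 2 = 0 := by
      have h1 : (Fintype.card G).factorization 2 = (Fintype.card G).factorization 2 +
          m.factorization 2 + Q.factorization 2 := by
        conv_lhs => rw [hQ]
        rw [Nat.factorization_mul (by positivity) hQ0,
          Nat.factorization_mul (by positivity) hm0.ne', Nat.prime_two.factorization_pow]
        simp
      omega
    have hQm : Q ^ 2 ≤ m := by
      refine Nat.le_of_dvd hm0 ((Nat.factorization_le_iff_dvd (by positivity) hm0.ne').1 ?_)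
      intro q
      rw [Nat.factorization_pow, Finsupp.smul_apply, smul_eq_mul]
      by_cases hq : q.Prime
      · by_cases hq2 : q = 2
        · subst hq2
          rw [hQ2]
          exact Nat.zero_le _
        · by_cases hqv : q ∣ Fintype.card G
          · obtain ⟨b, A, B, h1, h3⟩ := hB q hq hq2 hqv
            have h4 := hfac q hq hq2
            have h5 := hle h3
            omega
          · have h4 := hfac q hq hq2
            rw [Nat.factorization_eq_zero_of_not_dvd hqv] at h4
            omega
      · rw [Nat.factorization_eq_zero_of_not_prime _ hq]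
        exact Nat.zero_le _
    have hcount := count_le (k := (∑ x, d x).toNat) (v := Fintype.card G) (m := m) (by
      rw [Int.toNat_of_nonneg (sum_pos_of_flat hd hm0 hflat hv1).le]
      exact flat_count hd hflat) hv0
    have huniq : ∀ q : ℕ, q.Prime → q ≠ 2 → q ∣ Fintype.card G → q = p := by
      intro q hq hq2 hqv
      by_contra hne
      obtain ⟨b, A, B, h1, h3⟩ := hB q hq hq2 hqv
      obtain ⟨b', A', B', h1', h3'⟩ := hB p hp hp2 (hpm.trans hmv)
      refine no_two (c := (Fintype.card G).factorization 2) (m := m) (Q := Q)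
        (x := p ^ m.factorization p) (y := q ^ m.factorization q) hs1 hm
        (Nat.pos_of_ne_zero hQ0) ?_ hQm ?_ h3'.two_pow_le h3.two_pow_le
      · rw [← hQ]
        exact hcount
      · refine Nat.le_of_dvd hm0 (Nat.Coprime.mul_dvd_of_dvd_of_dvd ?_ (Nat.ordProj_dvd _ _)
          (Nat.ordProj_dvd _ _))
        exact Nat.Coprime.pow _ _ ((Nat.coprime_primes hp hq).2 (Ne.symm hne))
    have hmp : m = p ^ m.factorization p := by
      refine Nat.eq_of_factorization_eq hm0.ne' (pow_pos hp.pos _).ne' fun q => ?_
      rw [hp.factorization_pow]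
      by_cases hq : q.Prime
      · by_cases hqp : q = p
        · subst hqp
          simp
        · rw [Finsupp.single_apply, if_neg (Ne.symm hqp)]
          by_cases hqm : q ∣ m
          · exfalso
            refine hqp (huniq q hq ?_ (hqm.trans hmv))
            rintro rfl
            exact h2m hqm
          · exact Nat.factorization_eq_zero_of_not_dvd hqm
      · rw [Nat.factorization_eq_zero_of_not_prime _ hq, Finsupp.single_apply, if_neg]
        rintro rfl
        exact hq hp
    have hvp : Fintype.card G = 2 ^ (Fintype.card G).factorization 2 *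
        p ^ (Fintype.card G).factorization p := by
      have hpp : 0 < p := hp.pos
      refine Nat.eq_of_factorization_eq hv0.ne' (by positivity) fun q => ?_
      rw [Nat.factorization_mul (by positivity) (by positivity), hp.factorization_pow,
        Nat.prime_two.factorization_pow, Finsupp.add_apply, Finsupp.single_apply,
        Finsupp.single_apply]
      by_cases hq2 : q = 2
      · subst hq2
        rw [if_pos rfl, if_neg hp2, add_zero]
      · rw [if_neg (Ne.symm hq2), zero_add]
        by_cases hqp : q = p
        · subst hqp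
          rw [if_pos rfl]
        · rw [if_neg (Ne.symm hqp)]
          by_cases hq : q.Prime
          · refine Nat.factorization_eq_zero_of_not_dvd fun hqv => hqp (huniq q hq hq2 hqv)
          · exact Nat.factorization_eq_zero_of_not_prime _ hq
    have hr1 : 1 ≤ m.factorization p := hp.factorization_pos_of_dvd hm0.ne' hpm
    rcases gl_two (a := 0) hp hp2 hs1 hr1 hvp hd (by rwa [pow_zero, one_mul, ← hmp]) with
      ⟨h, -⟩ | ⟨-, -, b, A, B, h1, h3, h5, h6⟩
    · exact absurd (by omega) hs
    · refine ⟨p, b, m.factorization p, (Fintype.card G).factorization 2, A, B, h3, hle h3, ?_,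
        hmp, h5, ?_⟩
      · rw [← h1]
        exact hvp
      · rw [← h1]
        exact h6

end Pool.Agent.McF
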