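import Pool.Agent.McF.Inv

set_option autoImplicit false

/-! McF06. The number of points of a fibre modulo `p - 1`. -/

namespace Pool.Agent.McF

open Finset

/-- Let `g` be a natural number whose class generates `(ZMod p)ˣ` (cyclic) and `w = g ^ (p ^ (l + 1))`: `w = g` mod `p` (Fermat), so `w ^ i ≠ 1` mod `p`
for `0 < i < p - 1`, and `w ^ (p - 1) = 1` mod `p ^ (l + 1)` (`Nat.ModEq.pow_totient`: `φ(p ^ (l + 1)) = p ^ l (p - 1)` divides `p ^ (l + 1) (p - 1)`). Take
`u = 1` mod `n` and `u = w` mod `p ^ (l + 1)` (`Nat.chineseRemainder`). -/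
theorem exists_unit {p l n : ℕ} (hp : p.Prime) (hn : n.Coprime p) :
    ∃ u : ℕ, u ≡ 1 [MOD n] ∧ u.Coprime p ∧ u ^ (p - 1) ≡ 1 [MOD p ^ l] ∧
      ∀ i, 0 < i → i < p - 1 → ¬ u ^ i ≡ 1 [MOD p] := by
  have : Fact p.Prime := ⟨hp⟩
  obtain ⟨ζ, hζ⟩ := IsCyclic.exists_generator (α := (ZMod p)ˣ)
  have hord : orderOf ζ = p - 1 := by
    rw [orderOf_eq_card_of_forall_mem_zpowers hζ, Nat.card_eq_fintype_card,
      ZMod.card_units_eq_totient, Nat.totient_prime hp]
  obtain ⟨g, hg⟩ : ∃ g : ℕ, (g : ZMod p) = (ζ : ZMod p) :=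
    ⟨(ζ : ZMod p).val, ZMod.natCast_zmod_val _⟩
  have hgp : g.Coprime p := by
    rw [Nat.coprime_comm, hp.coprime_iff_not_dvd]
    intro h
    rw [(ZMod.natCast_eq_zero_iff g p).2 h] at hg
    exact ζ.ne_zero hg.symm
  have hco : n.Coprime (p ^ (l + 1)) := hn.pow_right _
  obtain ⟨u, hu1, hu2⟩ := Nat.chineseRemainder hco 1 (g ^ p ^ (l + 1))
  have hwz : ((g ^ p ^ (l + 1) : ℕ) : ZMod p) = (ζ : ZMod p) := by
    rw [Nat.cast_pow, hg, ZMod.pow_card_pow]
  have hup : u ≡ g ^ p ^ (l + 1) [MOD p] :=
    hu2.of_dvd (dvd_pow_self p (Nat.succ_ne_zero l))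
  have huz : (u : ZMod p) = (ζ : ZMod p) := by
    rw [(ZMod.natCast_eq_natCast_iff u _ p).2 hup, hwz]
  refine ⟨u, hu1, ?_, ?_, ?_⟩
  · rw [Nat.coprime_comm, hp.coprime_iff_not_dvd]
    intro h
    rw [(ZMod.natCast_eq_zero_iff u p).2 h] at huz
    exact ζ.ne_zero huz.symm
  · have h1 : g ^ Nat.totient (p ^ (l + 1)) ≡ 1 [MOD p ^ (l + 1)] :=
      Nat.ModEq.pow_totient (hgp.pow_right _)
    rw [Nat.totient_prime_pow_succ hp] at h1
    have h2 : (g ^ p ^ (l + 1)) ^ (p - 1) ≡ 1 [MOD p ^ (l + 1)] := by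
      have h3 := h1.pow p
      rw [one_pow, ← pow_mul] at h3
      rw [← pow_mul]
      have h4 : p ^ (l + 1) * (p - 1) = p ^ l * (p - 1) * p := by ring
      rw [h4]
      exact h3
    exact ((hu2.pow (p - 1)).trans h2).of_dvd (pow_dvd_pow p (Nat.le_succ l))
  · intro i hi0 hi h
    have h1 := (ZMod.natCast_eq_natCast_iff _ _ p).2 h
    rw [Nat.cast_pow, huz, Nat.cast_one] at h1
    have h2 : ζ ^ i = 1 := by
      apply Units.ext
      rw [Units.val_pow_eq_pow_val, h1, Units.val_one]
    have h3 := orderOf_dvd_of_pow_eq_one h2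
    rw [hord] at h3
    exact absurd (Nat.le_of_dvd hi0 h3) (by omega)

private theorem iter_mod {α : Type} {σ : α → α} {k : ℕ} {a : α} (hk : σ^[k] a = a) (m : ℕ) :
    σ^[m] a = σ^[m % k] a := by
  have h1 : ∀ q, σ^[k * q] a = a := by
    intro q
    induction q with
    | zero => rfl
    | succ q ih => rw [Nat.mul_succ, Function.iterate_add_apply, hk, ih]
  conv_lhs => rw [← Nat.mod_add_div m k, Function.iterate_add_apply, h1]

/-- A sum of an invariant function over a set with a free action of a cyclic group. -/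
private theorem dvd_sum_of_free {α : Type} [DecidableEq α] (σ : α → α) (k : ℕ) (hk : 0 < k)
    (f : α → ℤ) : ∀ (c : ℕ) (s : Finset α), s.card = c → (∀ a ∈ s, σ a ∈ s) →
    (∀ a ∈ s, σ^[k] a = a) → (∀ a ∈ s, ∀ i, 0 < i → i < k → σ^[i] a ≠ a) →
    (∀ a ∈ s, f (σ a) = f a) → (k : ℤ) ∣ ∑ a ∈ s, f a := by
  intro c
  induction c using Nat.strong_induction_on with
  | _ c ih =>
    intro s hc hs hper hfree hf
    rcases s.eq_empty_or_nonempty with rfl | ⟨a, ha⟩
    · simp
    have hit : ∀ i, σ^[i] a ∈ s := by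
      intro i
      induction i with
      | zero => exact ha
      | succ i ih => rw [Function.iterate_succ_apply']; exact hs _ ih
    have hfi : ∀ i, f (σ^[i] a) = f a := by
      intro i
      induction i with
      | zero => rfl
      | succ i ih => rw [Function.iterate_succ_apply', hf _ (hit i), ih]
    have hinj : Set.InjOn (fun i => σ^[i] a) (range k : Set ℕ) := by
      have key : ∀ i j, i < j → j < k → σ^[i] a ≠ σ^[j] a := by
        intro i j hij hj h
        have h1 : σ^[k - i] (σ^[i] a) = σ^[k - i] (σ^[j] a) := by rw [h]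
        rw [← Function.iterate_add_apply, ← Function.iterate_add_apply, Nat.sub_add_cancel
          (by omega), hper a ha, show k - i + j = (j - i) + k by omega,
          Function.iterate_add_apply, hper a ha] at h1
        exact hfree a ha (j - i) (by omega) (by omega) h1.symm
      intro i hi j hj hij
      have hi' := mem_range.1 (mem_coe.1 hi)
      have hj' := mem_range.1 (mem_coe.1 hj)
      rcases lt_trichotomy i j with h | h | h
      · exact absurd hij (key i j h hj')
      · exact h
      · exact absurd hij.symm (key j i h hi')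
    set O := (range k).image fun i => σ^[i] a with hO
    have hOc : O.card = k := by
      rw [hO, card_image_of_injOn hinj, card_range]
    have hOs : O ⊆ s := by
      intro b hb
      obtain ⟨i, _, rfl⟩ := mem_image.1 hb
      exact hit i
    have hmem : ∀ m, σ^[m] a ∈ O := by
      intro m
      rw [iter_mod (hper a ha) m]
      exact mem_image.2 ⟨m % k, mem_range.2 (Nat.mod_lt _ hk), rfl⟩
    have hcard : (s \ O).card < c := by
      rw [card_sdiff_of_subset hOs, hOc, hc]
      have := card_le_card hOs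
      omega
    have hsub : ∀ b ∈ s \ O, b ∈ s := fun b hb => (mem_sdiff.1 hb).1
    have h1 := ih _ hcard (s \ O) rfl (by
      intro b hb
      refine mem_sdiff.2 ⟨hs b (hsub b hb), fun h => (mem_sdiff.1 hb).2 ?_⟩
      obtain ⟨i, _, hi⟩ := mem_image.1 h
      have h2 : σ^[k - 1] (σ b) = b := by
        rw [← Function.iterate_succ_apply, Nat.succ_eq_add_one, Nat.sub_add_cancel hk,
          hper b (hsub b hb)]
      rw [← h2, ← hi, ← Function.iterate_add_apply]
      exact hmem _) (fun b hb => hper b (hsub b hb)) (fun b hb => hfree b (hsub b hb))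
      (fun b hb => hf b (hsub b hb))
    rw [← sum_sdiff hOs]
    refine dvd_add h1 ?_
    rw [hO, sum_image hinj]
    simp only [hfi, sum_const, card_range, nsmul_eq_mul]
    exact dvd_mul_right _ _

variable {N M : Type} [AddCommGroup N] [Fintype N] [AddCommGroup M] [Fintype M]

/-- Take `u` from `exists_unit` with `n = |N|`; it is prime to `|N × M| = |N| p ^ l`. `d (x, u • h) = d (x, h)` (`inv_of_flat`; `u • x = x` in `N`).
Multiplication by `u` generates an action of the cyclic group of order `p - 1` on `{h ≠ 0 | d (x, h) = 1}` which is free: `u ^ i • h = h` with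
`h ≠ 0`, `0 < i < p - 1` means that the order of `h` (a power of `p`, not 1) divides `u ^ i - 1`, so `p ∣ u ^ i - 1`, against the choice of `u`.
So the number of the `h ≠ 0` with `d (x, h) = 1` is divisible by `p - 1` (all orbits have `p - 1` elements). (`l = 0`: `M` has one element.) -/
theorem fibre_mod {p l : ℕ} (hp : p.Prime) (hcop : (Fintype.card N).Coprime (Fintype.card M))
    (hM : Fintype.card M = p ^ l) {d : N × M → ℤ} (hd : IsInd d) {m : ℕ} (hflat : Flat d m)
    (x : N) : ((p - 1 : ℕ) : ℤ) ∣ (∑ h, d (x, h)) - d (x, 0) := by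
  classical
  have hsplit : (∑ h, d (x, h)) - d (x, 0) = ∑ h ∈ univ.erase (0 : M), d (x, h) := by
    rw [← add_sum_erase univ (fun h => d (x, h)) (mem_univ (0 : M))]
    ring
  rw [hsplit]
  rcases Nat.eq_zero_or_pos l with rfl | hl
  · have h1 : (univ.erase (0 : M)) = ∅ := by
      rw [← card_eq_zero, card_erase_of_mem (mem_univ _), card_univ, hM]
      simp
    rw [h1, sum_empty]
    exact dvd_zero _
  have hNp : (Fintype.card N).Coprime p := by
    rw [hM] at hcop
    exact Nat.Coprime.coprime_dvd_right (dvd_pow_self p hl.ne') hcop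
  obtain ⟨u, hu1, hup, hu2, hu3⟩ := exists_unit (l := l) hp hNp
  have hcard : u.Coprime (Fintype.card (N × M)) := by
    rw [Fintype.card_prod, hM]
    refine Nat.Coprime.mul_right ?_ (hup.pow_right l)
    have h1 := hu1.gcd_eq
    rw [Nat.gcd_one_left] at h1
    exact h1
  have hN : u • x = x := by
    have h1 : u ≡ 1 [MOD addOrderOf x] := hu1.of_dvd addOrderOf_dvd_card
    have h2 := (nsmul_eq_nsmul_iff_modEq (x := x)).2 h1
    rwa [one_nsmul] at h2
  have hinv : ∀ h : M, d (x, u • h) = d (x, h) := by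
    intro h
    have h1 := inv_of_flat hflat hcard (x, h)
    have h2 : u • (x, h) = (x, u • h) := by
      rw [Prod.smul_mk, hN]
    rw [h2] at h1
    exact h1
  have hit : ∀ (i : ℕ) (h : M), (fun h : M => u • h)^[i] h = u ^ i • h := by
    intro i h
    induction i with
    | zero => simp
    | succ i ih => rw [Function.iterate_succ_apply', ih, pow_succ', mul_nsmul']
  have hp1 : 0 < p - 1 := Nat.sub_pos_of_lt hp.one_lt
  have hper : ∀ h : M, u ^ (p - 1) • h = h := by
    intro h
    have h0 : addOrderOf h ∣ p ^ l := by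
      rw [← hM]
      exact addOrderOf_dvd_card
    have h2 := (nsmul_eq_nsmul_iff_modEq (x := h)).2 (hu2.of_dvd h0)
    rwa [one_nsmul] at h2
  refine dvd_sum_of_free (fun h : M => u • h) (p - 1) hp1 (fun h => d (x, h)) _ _ rfl
    ?_ ?_ ?_ ?_
  · intro h hh
    refine mem_erase.2 ⟨fun h0 => (mem_erase.1 hh).1 ?_, mem_univ _⟩
    have h1 := hper h
    rw [show p - 1 = (p - 2) + 1 by have := hp.two_le; omega, pow_succ, mul_nsmul', h0,
      nsmul_zero] at h1
    exact h1.symm
  · intro h _
    rw [hit, hper]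
  · intro h hh i hi0 hi h1
    rw [hit] at h1
    have h2 : u ^ i ≡ 1 [MOD addOrderOf h] := by
      rw [← nsmul_eq_nsmul_iff_modEq (x := h), one_nsmul]
      exact h1
    have h3 : addOrderOf h ∣ p ^ l := by
      rw [← hM]
      exact addOrderOf_dvd_card
    obtain ⟨j, _, hj⟩ := (Nat.dvd_prime_pow hp).1 h3
    have hj0 : j ≠ 0 := by
      rintro rfl
      rw [pow_zero, AddMonoid.addOrderOf_eq_one_iff] at hj
      exact (mem_erase.1 hh).1 hj
    exact hu3 i hi0 hi (h2.of_dvd (by rw [hj]; exact dvd_pow_self p hj0))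
  · intro h _
    exact hinv h

end Pool.Agent.McF
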