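import Pool.Agent.McF.CaseI
import Pool.Agent.McF.CaseII

set_option autoImplicit false

/-! McF23a. The number theory of the local theorem. -/

namespace Pool.Agent.McF

/-- Number theory of the local theorem, Case I. `M = 2^a`, `Z = p^b - 2 c0 - ε`, `D = ε δ`: from `h` (divide by `4 p^(2r)`; `2 k - v = - p^r 2^(a+1) (2^a... )`, see
below) one gets `Z (2^a Z - D) = 2^a p^b (p^b - p^r)`; `|Z| ≤ p^b`; `caseI`.
Computation: `v = 4 * 4^a * p^(r+b)`, `k = p^r (4 * 4^a c0 + ε (2 * 4^a + δ 2^a))`, so `v - 2 k = p^r (4 * 4^a (p^b - 2 c0 - ε) - 2 ε δ 2^a) = 2 * 2^a p^r (2 * 2^a Z - D)`,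
and `(v - 2 k)² = v² - 4 * 4^a p^(2r) (v - 1)` by `h`; divide by `4 * 4^a p^(2r)`: `(2 * 2^a Z - D)² = 4 * 4^a p^(2b) - (4 * 4^a p^(r+b) - 1)`, so (`D² = 1`)
`4 * 4^a Z² - 4 * 2^a Z D = 4 * 4^a p^b (p^b - p^r)`; divide by `4 * 2^a`. -/
theorem loc_one {p a b r : ℕ} (hp : p.Prime) (hp2 : p ≠ 2) (hr : 1 ≤ r) {c0 ε δ : ℤ}
    (hε : ε = 1 ∨ ε = -1) (hδ : δ = 1 ∨ δ = -1) (h0 : 0 ≤ c0) (h1 : c0 ≤ (p : ℤ) ^ b)
    (h2 : 0 ≤ c0 + ε) (h3 : c0 + ε ≤ (p : ℤ) ^ b)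
    (h : ((p : ℤ) ^ r * (4 * 4 ^ a * c0 + ε * (2 * 4 ^ a + δ * 2 ^ a))) *
      (4 * 4 ^ a * (p : ℤ) ^ (r + b) -
        (p : ℤ) ^ r * (4 * 4 ^ a * c0 + ε * (2 * 4 ^ a + δ * 2 ^ a))) =
      (2 ^ a * (p : ℤ) ^ r) ^ 2 * (4 * 4 ^ a * (p : ℤ) ^ (r + b) - 1)) : b = r := by
  have hp0 : (p : ℤ) ≠ 0 := by exact_mod_cast hp.ne_zero
  have hP : (p : ℤ) ^ r ≠ 0 := pow_ne_zero _ hp0
  have hM : (2 : ℤ) ^ a ≠ 0 := pow_ne_zero _ two_ne_zero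
  have h4 : (4 : ℤ) ^ a = (2 ^ a) ^ 2 := by
    rw [← pow_mul, mul_comm, pow_mul]
    norm_num
  have hε2 : ε ^ 2 = 1 := by rcases hε with rfl | rfl <;> norm_num
  have hδ2 : δ ^ 2 = 1 := by rcases hδ with rfl | rfl <;> norm_num
  have hD : (ε * δ) ^ 2 = 1 := by rw [mul_pow, hε2, hδ2, one_mul]
  rw [h4, pow_add] at h
  refine caseI (a := a) (Z := (p : ℤ) ^ b - 2 * c0 - ε) (d := ε * δ) hp hp2 hr ?_ ?_ ?_
  · rcases hε with rfl | rfl <;> rcases hδ with rfl | rfl <;> norm_num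
  · rw [abs_le]
    constructor <;> linarith
  · generalize (p : ℤ) ^ b = Q at *
    generalize (p : ℤ) ^ r = P at *
    generalize (2 : ℤ) ^ a = M at *
    have h5 : (4 * M ^ 2 * P ^ 2 * (4 * M)) *
        ((Q - 2 * c0 - ε) * (M * (Q - 2 * c0 - ε) - ε * δ) - M * Q * (Q - P)) = 0 := by
      linear_combination (-4) * h - 4 * M ^ 2 * P ^ 2 * hD
    have h6 : 4 * M ^ 2 * P ^ 2 * (4 * M) ≠ 0 := by positivity
    have h7 := (mul_eq_zero.1 h5).resolve_left h6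
    linarith

/-- Number theory of the local theorem, Case II: `|V| = 2^c`, all values of `C` are `φ`, except one which is `φ + sg`; `k = p^r (2^c φ + sg)`, `v = 2^c p^(r+b)`.
`h` divided by `2^c p^(2r)`... : `(2^c φ + sg) (2^c p^b - 2^c φ - sg) = 2^c p^(r+b) - 1`, so (`sg² = 1`)
`2^c φ (p^b - φ) + sg (p^b - 2 φ) = p^(r+b)`: `caseII`. `sg = -1`: `A = φ`, `B = p^b - φ`. `sg = 1`: `B = φ`, `A = p^b - φ`; then `v - k = p^r (2^c A - 1)`. -/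
theorem loc_two {p c b r : ℕ} (hp : p.Prime) (hp2 : p ≠ 2) (hr : 1 ≤ r) (hc : 1 ≤ c) (hc2 : c ≠ 2)
    {φ sg : ℤ} (hsg : sg = 1 ∨ sg = -1) (h0 : 0 ≤ φ) (h1 : φ ≤ (p : ℤ) ^ b) (h2 : 0 ≤ φ + sg)
    (h3 : φ + sg ≤ (p : ℤ) ^ b)
    (h : ((p : ℤ) ^ r * (2 ^ c * φ + sg)) *
      (2 ^ c * (p : ℤ) ^ (r + b) - (p : ℤ) ^ r * (2 ^ c * φ + sg)) =
      ((p : ℤ) ^ r) ^ 2 * (2 ^ c * (p : ℤ) ^ (r + b) - 1)) :
    ∃ A B : ℕ, EqB p b r c A B ∧ (sg = -1 → φ = A) ∧ (sg = 1 → φ = B) := by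
  have hp0 : (p : ℤ) ≠ 0 := by exact_mod_cast hp.ne_zero
  have hP : (p : ℤ) ^ r ≠ 0 := pow_ne_zero _ hp0
  have hW : (2 : ℤ) ^ c ≠ 0 := pow_ne_zero _ two_ne_zero
  have hs2 : sg ^ 2 = 1 := by rcases hsg with rfl | rfl <;> norm_num
  have key : 2 ^ c * φ * ((p : ℤ) ^ b - φ) + sg * ((p : ℤ) ^ b - 2 * φ) = (p : ℤ) ^ (r + b) := by
    rw [pow_add] at h ⊢
    generalize (p : ℤ) ^ b = Q at *
    generalize (p : ℤ) ^ r = P at *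
    generalize (2 : ℤ) ^ c = W at *
    have h5 : (P ^ 2 * W) *
        ((W * φ * (Q - φ) + sg * (Q - 2 * φ)) - P * Q) = 0 := by
      linear_combination h + P ^ 2 * hs2
    have h6 : P ^ 2 * W ≠ 0 := by positivity
    have h7 := (mul_eq_zero.1 h5).resolve_left h6
    linarith
  obtain ⟨hc3, hb, hφ, hφ1⟩ := caseII hp hp2 hr hc hc2 hsg h0 h1 h2 h3 key
  lift φ to ℕ using h0
  obtain ⟨ψ, hψ⟩ : ∃ ψ : ℕ, (ψ : ℤ) = (p : ℤ) ^ b - φ :=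
    ⟨((p : ℤ) ^ b - φ).toNat, Int.toNat_of_nonneg (by linarith)⟩
  have hψ1 : 1 ≤ ψ := by
    have : (1 : ℤ) ≤ ψ := by linarith
    exact_mod_cast this
  have hφn : 1 ≤ φ := by exact_mod_cast hφ
  have hsum : φ + ψ = p ^ b := by
    have : (φ : ℤ) + ψ = (p : ℤ) ^ b := by rw [hψ]; ring
    exact_mod_cast this
  rcases hsg with rfl | rfl
  · refine ⟨ψ, φ, ⟨hp, hp2, hb, hr, hc3, hψ1, hφn, by rw [add_comm]; exact hsum, ?_⟩,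
      fun h => absurd h (by norm_num), fun _ => rfl⟩
    have h8 : (2 : ℤ) ^ c * ψ * φ + ψ = (p : ℤ) ^ (r + b) + φ := by
      rw [← key, hψ]
      ring
    exact_mod_cast h8
  · refine ⟨φ, ψ, ⟨hp, hp2, hb, hr, hc3, hφn, hψ1, hsum, ?_⟩,
      fun _ => rfl, fun h => absurd h (by norm_num)⟩
    have h8 : (2 : ℤ) ^ c * φ * ψ + φ = (p : ℤ) ^ (r + b) + ψ := by
      rw [← key, hψ]
      ring
    exact_mod_cast h8

end Pool.Agent.McF
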