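import Pool.Agent.McF.HMain
import Pool.Agent.McF.HPm
import Pool.Agent.McF.TwoPart
import Pool.Agent.McF.LocNT

set_option autoImplicit false

/-! McF23. The local theorem: `V × P`, `V` a 2-group, `P` a `p`-group. -/

namespace Pool.Agent.McF

open Finset

variable {V P : Type} [AddCommGroup V] [Fintype V] [AddCommGroup P] [Fintype P]

/-- **The local theorem.** `2^a p^r ∣ 2^s p^l` (`dvd_card`), so `a ≤ s`, `r ≤ l`; `l = r + b`. `lemmaH` for `N = V`, `M = P`: `gcd(2^a p^r, 2^s) = 2^a`,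
`gcd(2^a p^r, p^l) = p^r`; `e = d(·,0)` is flat for `2^a`, `∑_h d (x, h) = p^r C(x)`, `0 ≤ C(x) ≤ p^b`, `C = c0 + ε e` (`two_values`). `k_V = ∑ e`:
`flat_count`, `dvd_sum` and `two_part`. `k = ∑ d = p^r (2^s c0 + ε k_V)`, `flat_count` for `d`.
Case I: `s = 2a + 2`, `k_V = 2 * 4^a ± 2^a`: `loc_one`, `l = 2r`. (`c0`, `c0 + ε` are both values of `C`.)
Case II: `a = 0`, `s ≠ 2`, `k_V = 1` or `2^s - 1`: `e` is `1` at one point, or `0` at one point: `φ` = the value of `C` at all the other points (`c0`, resp. `c0 + ε`),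
`sg = ε`, resp. `-ε`: `k = p^r (2^s φ + sg)`. `loc_two`. If `5 ≤ p`: `fibre_mod`: `p^r C(x) = e(x)` mod `p - 1`, `p^r = 1` mod `p - 1`, so `c0 = 0` and
`c0 + ε = 1` mod `p - 1`, and `ε = 1` (`p - 1 ≥ 4`). `k_V = 1`: `φ = c0`, `sg = 1`, `B = φ`. `k_V = 2^s - 1`: `φ = c0 + 1`, `sg = -1`, `A = φ`,
`B = p^b - 1 - c0`. In both cases `(p - 1) ∣ B`. -/
theorem loc {p s l a r : ℕ} (hp : p.Prime) (hp2 : p ≠ 2) (hs : 1 ≤ s) (hr : 1 ≤ r)
    (hV : Fintype.card V = 2 ^ s) (hP : Fintype.card P = p ^ l) {d : V × P → ℤ} (hd : IsInd d)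
    (hflat : Flat d (2 ^ a * p ^ r)) :
    (s = 2 * a + 2 ∧ l = 2 * r) ∨
      (a = 0 ∧ s ≠ 2 ∧ ∃ b A B : ℕ, l = r + b ∧ EqB p b r s A B ∧ (5 ≤ p → (p - 1) ∣ B) ∧
        ((∑ x, d x) = (p : ℤ) ^ r * (2 ^ s * A - 1) ∨
          2 ^ s * (p : ℤ) ^ l - (∑ x, d x) = (p : ℤ) ^ r * (2 ^ s * A - 1))) := by
  classical
  have hp1 : 1 < p := hp.one_lt
  have hcop2 : Nat.Coprime 2 p := (Nat.coprime_primes Nat.prime_two hp).2 (Ne.symm hp2)
  have hVP : Fintype.card (V × P) = 2 ^ s * p ^ l := by rw [Fintype.card_prod, hV, hP]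
  have h2s : 1 < 2 ^ s := Nat.one_lt_two_pow (by omega)
  have hpl : 0 < p ^ l := pow_pos hp.pos _
  have hcardVP : 1 < Fintype.card (V × P) := by
    rw [hVP]
    nlinarith
  have h2a : 0 < 2 ^ a := pow_pos (by norm_num) _
  have hm : 0 < 2 ^ a * p ^ r := Nat.mul_pos h2a (pow_pos hp.pos _)
  have hdvd := dvd_card hd hm hflat hcardVP
  rw [hVP] at hdvd
  have ha : a ≤ s := by
    have h1 : 2 ^ a ∣ 2 ^ s * p ^ l := (Dvd.intro _ rfl).trans hdvd
    have h2 : 2 ^ a ∣ 2 ^ s := (Nat.Coprime.pow a l hcop2).dvd_of_dvd_mul_right h1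
    exact (Nat.pow_dvd_pow_iff_le_right (by norm_num)).1 h2
  have hrl : r ≤ l := by
    have h1 : p ^ r ∣ 2 ^ s * p ^ l := (Dvd.intro_left _ rfl).trans hdvd
    have h2 : p ^ r ∣ p ^ l := (Nat.Coprime.pow r s hcop2.symm).dvd_of_dvd_mul_left h1
    exact (Nat.pow_dvd_pow_iff_le_right hp1).1 h2
  obtain ⟨b, rfl⟩ := Nat.exists_eq_add_of_le hrl
  have hg1 : (2 ^ a * p ^ r).gcd (2 ^ s) = 2 ^ a := by
    rw [Nat.Coprime.gcd_mul_right_cancel _ (Nat.Coprime.pow r s hcop2.symm)]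
    exact Nat.gcd_eq_left (pow_dvd_pow 2 ha)
  have hg2 : (2 ^ a * p ^ r).gcd (p ^ (r + b)) = p ^ r := by
    rw [Nat.Coprime.gcd_mul_left_cancel _ (Nat.Coprime.pow a (r + b) hcop2)]
    exact Nat.gcd_eq_left (pow_dvd_pow p (Nat.le_add_right r b))
  have hcopVP : (Fintype.card V).Coprime (Fintype.card P) := by
    rw [hV, hP]
    exact Nat.Coprime.pow s (r + b) hcop2
  have hPodd : Odd (Fintype.card P) := by
    rw [hP]
    exact (hp.odd_of_ne_two hp2).pow
  have hVgt : 1 < Fintype.card V := by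
    rw [hV]
    exact h2s
  obtain ⟨hef, C, hC, -, hsq⟩ := lemmaH hcopVP hPodd hVgt hd hm hflat
  rw [hV, hg1] at hef
  have hC' : ∀ x, ∑ h, d (x, h) = (p : ℤ) ^ r * C x := by
    intro x
    rw [hC x, hP, hg2]
    push_cast
    rfl
  set e : V → ℤ := fun x => d (x, 0) with he
  have heI : IsInd e := fun x => hd (x, 0)
  obtain ⟨x0, hx0⟩ := exists_zero heI h2a hef hVgt
  obtain ⟨x1, hx1⟩ := exists_one heI h2a hef hVgt
  obtain ⟨c0, ε, hε, hCe⟩ := two_values heI ⟨x0, hx0⟩ ⟨x1, hx1⟩ hsq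
  have hC0 : C x0 = c0 := by
    rw [hCe, hx0]
    ring
  have hC1 : C x1 = c0 + ε := by
    rw [hCe, hx1]
    ring
  have hp0 : (0 : ℤ) < p := by exact_mod_cast hp.pos
  have hpr : (0 : ℤ) < (p : ℤ) ^ r := pow_pos hp0 r
  have hCb : ∀ x, 0 ≤ C x ∧ C x ≤ (p : ℤ) ^ b := by
    intro x
    have h1 : 0 ≤ ∑ h, d (x, h) := Finset.sum_nonneg fun h _ => by
      rcases hd (x, h) with h1 | h1 <;> rw [h1]
      norm_num
    have h2 : ∑ h, d (x, h) ≤ (p : ℤ) ^ (r + b) := by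
      calc ∑ h, d (x, h) ≤ ∑ _h : P, (1 : ℤ) := Finset.sum_le_sum fun h _ => by
            rcases hd (x, h) with h1 | h1 <;> rw [h1]
            norm_num
        _ = ((Fintype.card P : ℕ) : ℤ) := by simp
        _ = (p : ℤ) ^ (r + b) := by
            rw [hP]
            push_cast
            rfl
    rw [hC' x] at h1 h2
    constructor
    · exact (mul_nonneg_iff_of_pos_left hpr).1 h1
    · rw [pow_add] at h2
      exact le_of_mul_le_mul_left h2 hpr
  have hc0b := hCb x0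
  have hc1b := hCb x1
  rw [hC0] at hc0b
  rw [hC1] at hc1b
  set K := ∑ x, e x with hK
  have hsum : ∑ x, d x = (p : ℤ) ^ r * (2 ^ s * c0 + ε * K) := by
    rw [Fintype.sum_prod_type]
    calc ∑ x, ∑ h, d (x, h) = ∑ x, (p : ℤ) ^ r * (c0 + ε * e x) :=
          Finset.sum_congr rfl fun x _ => by rw [hC' x, hCe x]
      _ = (p : ℤ) ^ r * (2 ^ s * c0 + ε * K) := by
          rw [← Finset.mul_sum, Finset.sum_add_distrib, ← Finset.mul_sum, Finset.sum_const,
            Finset.card_univ, hV, nsmul_eq_mul]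
          push_cast
          rfl
  have hcount := flat_count hd hflat
  rw [hVP] at hcount
  push_cast at hcount
  have hcountV := flat_count heI hef
  rw [hV, ← hK] at hcountV
  push_cast at hcountV
  have hKpos : 0 < K := sum_pos_of_flat heI h2a hef hVgt
  have hKdvd : ((2 ^ a : ℕ) : ℤ) ∣ K := dvd_sum heI h2a hef hVgt
  obtain ⟨n, hn⟩ := Int.eq_ofNat_of_zero_le hKpos.le
  have hnd : 2 ^ a ∣ n := by
    rw [hn] at hKdvd
    exact_mod_cast hKdvd
  have h24 : ((2 : ℤ) ^ a) ^ 2 = 4 ^ a := by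
    rw [← pow_mul, mul_comm, pow_mul]
    norm_num
  have h2p := two_part hs ha hnd (by rw [← hn, hcountV, h24])
  rcases h2p with ⟨hsa, hk⟩ | ⟨ha0, hs2, hk⟩
  · left
    refine ⟨hsa, ?_⟩
    have h2s4 : (2 : ℤ) ^ s = 4 * 4 ^ a := by
      rw [hsa, pow_add, pow_mul]
      norm_num
      ring
    obtain ⟨δ, hδ, hKδ⟩ : ∃ δ : ℤ, (δ = 1 ∨ δ = -1) ∧ K = 2 * 4 ^ a + δ * 2 ^ a := by
      rcases hk with hk | hk
      · exact ⟨1, Or.inl rfl, by rw [hn, hk]; ring⟩
      · exact ⟨-1, Or.inr rfl, by rw [hn, hk]; ring⟩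
    have hbr : b = r := by
      apply loc_one (a := a) hp hp2 hr hε hδ hc0b.1 hc0b.2 hc1b.1 hc1b.2
      rw [hsum, hKδ, h2s4] at hcount
      linear_combination hcount
    omega
  · right
    subst ha0
    refine ⟨rfl, hs2, ?_⟩
    have hmod : 5 ≤ p → ε = 1 ∧ ((p - 1 : ℕ) : ℤ) ∣ c0 := by
      intro h5
      have h1 : ∀ x, ((p - 1 : ℕ) : ℤ) ∣ C x - e x := by
        intro x
        have h2 := fibre_mod hp hcopVP hP hd hflat x
        rw [hC' x] at h2
        have h3 : ((p - 1 : ℕ) : ℤ) ∣ (p : ℤ) ^ r - 1 := by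
          rw [Nat.cast_sub hp1.le, Nat.cast_one]
          simpa using sub_dvd_pow_sub_pow (p : ℤ) 1 r
        have h4 : C x - e x = ((p : ℤ) ^ r * C x - d (x, 0)) - ((p : ℤ) ^ r - 1) * C x := by
          change C x - d (x, 0) = _
          ring
        rw [h4]
        exact dvd_sub h2 (Dvd.dvd.mul_right h3 _)
      have h2 := h1 x0
      have h3 := h1 x1
      rw [hC0, hx0, sub_zero] at h2
      rw [hC1, hx1] at h3
      have h4 : ((p - 1 : ℕ) : ℤ) ∣ ε - 1 := by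
        have h5 : ε - 1 = (c0 + ε - 1) - c0 := by ring
        rw [h5]
        exact dvd_sub h3 h2
      refine ⟨?_, h2⟩
      rcases hε with h6 | h6
      · exact h6
      · exfalso
        rw [h6] at h4
        have h7 : ((p - 1 : ℕ) : ℤ) ∣ 2 := by
          have h8 : (2 : ℤ) = -(-1 - 1) := by norm_num
          rw [h8]
          exact (dvd_neg).2 h4
        have h8 := Int.le_of_dvd (by norm_num) h7
        omega
    obtain ⟨φ, sg, hsg, hφ, hφs, hkφ, hdφ⟩ : ∃ φ sg : ℤ, (sg = 1 ∨ sg = -1) ∧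
        (0 ≤ φ ∧ φ ≤ (p : ℤ) ^ b) ∧ (0 ≤ φ + sg ∧ φ + sg ≤ (p : ℤ) ^ b) ∧
        2 ^ s * c0 + ε * K = 2 ^ s * φ + sg ∧
        (5 ≤ p → (sg = 1 ∧ ((p - 1 : ℕ) : ℤ) ∣ φ) ∨ (sg = -1 ∧ ((p - 1 : ℕ) : ℤ) ∣ φ - 1)) := by
      rcases hk with hk | hk
      · refine ⟨c0, ε, hε, hc0b, hc1b, ?_, fun h5 => ?_⟩
        · rw [hn, hk]
          push_cast
          ring
        · obtain ⟨h1, h2⟩ := hmod h5
          exact Or.inl ⟨h1, h2⟩
      · have hKs : K = 2 ^ s - 1 := by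
          rw [hn]
          have h1 : ((n + 1 : ℕ) : ℤ) = 2 ^ s := by
            rw [hk]
            push_cast
            rfl
          push_cast at h1
          linarith
        refine ⟨c0 + ε, -ε, ?_, hc1b, ?_, ?_, fun h5 => ?_⟩
        · rcases hε with h1 | h1 <;> rw [h1] <;> norm_num
        · rw [add_neg_cancel_right]
          exact hc0b
        · rw [hKs]
          ring
        · obtain ⟨h1, h2⟩ := hmod h5
          refine Or.inr ⟨by rw [h1], ?_⟩
          rw [h1, add_sub_cancel_right]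
          exact h2
    rw [hkφ] at hsum
    obtain ⟨A, B, hAB, hA, hB⟩ := loc_two hp hp2 hr hs hs2 hsg hφ.1 hφ.2 hφs.1 hφs.2 (by
      rw [hsum] at hcount
      linear_combination hcount)
    have hABs : (A : ℤ) + B = (p : ℤ) ^ b := by exact_mod_cast hAB.sum
    refine ⟨b, A, B, rfl, hAB, fun h5 => ?_, ?_⟩
    · rcases hdφ h5 with ⟨h1, h2⟩ | ⟨h1, h2⟩
      · rw [hB h1] at h2
        exact_mod_cast h2
      · rw [hA h1] at h2
        have h3 : ((p - 1 : ℕ) : ℤ) ∣ (p : ℤ) ^ b - 1 := by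
          rw [Nat.cast_sub hp1.le, Nat.cast_one]
          simpa using sub_dvd_pow_sub_pow (p : ℤ) 1 b
        have h4 : (B : ℤ) = ((p : ℤ) ^ b - 1) - ((A : ℤ) - 1) := by
          rw [← hABs]
          ring
        have h6 : ((p - 1 : ℕ) : ℤ) ∣ (B : ℤ) := by
          rw [h4]
          exact dvd_sub h3 h2
        exact_mod_cast h6
    · rcases hsg with h1 | h1
      · right
        rw [hsum, h1, hB h1, pow_add]
        have h2 : (p : ℤ) ^ b = A + B := hABs.symm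
        rw [h2]
        ring
      · left
        rw [hsum, h1, hA h1]
        ring

end Pool.Agent.McF
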