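import Pool.Agent.McF.Sec3
import Pool.Agent.McF.Split
import Pool.Agent.McF.Loc

set_option autoImplicit false

/-! McF28. From a general group to its parts. -/

namespace Pool.Agent.McF

open Finset

variable {G : Type} [AddCommGroup G] [Fintype G] {d : G → ℤ} {m : ℕ}

/-- `v = |G| = a p^l` with `p ∤ a`, `l ≥ 1`, and `a` is even, so `a > 1`. `exists_split`, transport `d` (`Flat.transport`), `prime_dvd`. -/
theorem odd_prime_dvd (hd : IsInd d) (hm : 2 ≤ m) (hflat : Flat d m) (he : Even (Fintype.card G))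
    {p : ℕ} (hp : p.Prime) (hp2 : p ≠ 2) (hpv : p ∣ Fintype.card G) : p ∣ m := by
  have hv0 : Fintype.card G ≠ 0 := Fintype.card_ne_zero
  obtain ⟨l, a, hpa, hva⟩ := Nat.exists_eq_pow_mul_and_not_dvd hv0 p hp.ne_one
  have hl : 1 ≤ l := by
    by_contra h
    have h0 : l = 0 := by omega
    rw [h0, pow_zero, one_mul] at hva
    exact hpa (hva ▸ hpv)
  have hcop : a.Coprime (p ^ l) :=
    Nat.Coprime.pow_right l ((Nat.Prime.coprime_iff_not_dvd hp).2 hpa).symm
  have ha : 1 < a := by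
    have h2 : 2 ∣ p ^ l * a := hva ▸ he.two_dvd
    have h3 : ¬ 2 ∣ p ^ l := by
      intro h
      have h4 : 2 ∣ p := Nat.prime_two.dvd_of_dvd_pow h
      exact hp2 ((Nat.prime_dvd_prime_iff_eq Nat.prime_two hp).1 h4).symm
    have h5 : 2 ∣ a := (Nat.prime_two.dvd_mul.1 h2).resolve_left h3
    have h6 : a ≠ 0 := by
      rintro rfl
      exact hpa (dvd_zero p)
    have h7 := Nat.le_of_dvd (Nat.pos_of_ne_zero h6) h5
    omega
  rw [mul_comm] at hva
  obtain ⟨N, M, i1, i2, i3, i4, e, hN, hM⟩ := exists_split hva hcop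
  have hd' : IsInd (fun y : N × M => d (e.symm y)) := fun y => hd _
  exact prime_dvd hp hp2 hl hM (by rw [hN, hM]; exact hcop) (by rw [hN]; exact ha) hd' hm
    (hflat.transport e)

/-- `G = V × P` with `|V| = 2^s`, `|P| = p^l`: `exists_split`, transport, `loc`; the sum is kept. -/
theorem gl_two {p s l a r : ℕ} (hp : p.Prime) (hp2 : p ≠ 2) (hs : 1 ≤ s) (hr : 1 ≤ r)
    (hv : Fintype.card G = 2 ^ s * p ^ l) (hd : IsInd d) (hflat : Flat d (2 ^ a * p ^ r)) :
    (s = 2 * a + 2 ∧ l = 2 * r) ∨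
      (a = 0 ∧ s ≠ 2 ∧ ∃ b A B : ℕ, l = r + b ∧ EqB p b r s A B ∧ (5 ≤ p → (p - 1) ∣ B) ∧
        ((∑ x, d x) = (p : ℤ) ^ r * (2 ^ s * A - 1) ∨
          2 ^ s * (p : ℤ) ^ l - (∑ x, d x) = (p : ℤ) ^ r * (2 ^ s * A - 1))) := by
  have hcop : (2 ^ s).Coprime (p ^ l) := by
    refine Nat.Coprime.pow s l ?_
    exact (Nat.coprime_primes Nat.prime_two hp).2 hp2.symm
  obtain ⟨V, P, i1, i2, i3, i4, e, hV, hP⟩ := exists_split hv hcop
  have hd' : IsInd (fun y : V × P => d (e.symm y)) := fun y => hd _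
  have hsum : ∑ y : V × P, d (e.symm y) = ∑ x, d x := Equiv.sum_comp e.symm.toEquiv d
  have h := loc hp hp2 hs hr hV hP hd' (hflat.transport e)
  rw [hsum] at h
  exact h

end Pool.Agent.McF
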