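import Pool.Agent.McF.GlA

set_option autoImplicit false

/-! McF30. The local alternative for a general group. -/

namespace Pool.Agent.McF

open Finset

variable {G : Type} [AddCommGroup G] [Fintype G] {d : G → ℤ} {m : ℕ}

/-- Let `s`, `l` be the exponents of `2`, `p` in `v = |G|`, `a`, `r` those in `m` (`r ≥ 1` by `odd_prime_dvd`). Split `G = N × M`, `|N| = 2^s p^l`, `|M|` = the rest (odd): by
`lemmaH` (`N` has more than one element) `e = d(·,0)` is flat for `gcd(m, 2^s p^l) = 2^a p^r` (`m ∣ v`, so `a ≤ s`, `r ≤ l`). Split `N = V × P`, `|V| = 2^s`, `|P| = p^l`, transport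
`e`, and apply `loc` (forget the statement on the sum). If `M` is trivial `lemmaH` can still be used. -/
theorem gl_local (hd : IsInd d) (hm : 2 ≤ m) (hflat : Flat d m) (he : Even (Fintype.card G))
    {p : ℕ} (hp : p.Prime) (hp2 : p ≠ 2) (hpv : p ∣ Fintype.card G) :
    ((Fintype.card G).factorization 2 = 2 * m.factorization 2 + 2 ∧
      (Fintype.card G).factorization p = 2 * m.factorization p) ∨
    (m.factorization 2 = 0 ∧ (Fintype.card G).factorization 2 ≠ 2 ∧ ∃ b A B : ℕ,
      (Fintype.card G).factorization p = m.factorization p + b ∧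
      EqB p b (m.factorization p) ((Fintype.card G).factorization 2) A B) := by
  have hvpos : 0 < Fintype.card G := Fintype.card_pos
  have hv1 : 1 < Fintype.card G := by
    rcases he with ⟨k, hk⟩
    omega
  have hmpos : 0 < m := by omega
  have hm0 : m ≠ 0 := hmpos.ne'
  have hmv : m ∣ Fintype.card G := dvd_card hd hmpos hflat hv1
  have hpm : p ∣ m := odd_prime_dvd hd hm hflat he hp hp2 hpv
  set s := (Fintype.card G).factorization 2 with hs_def
  set l := (Fintype.card G).factorization p with hl_def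
  set a := m.factorization 2 with ha_def
  set r := m.factorization p with hr_def
  have h2v : 2 ∣ Fintype.card G := he.two_dvd
  have hs1 : 1 ≤ s := (Nat.prime_two.dvd_iff_one_le_factorization hvpos.ne').1 h2v
  have hl1 : 1 ≤ l := (hp.dvd_iff_one_le_factorization hvpos.ne').1 hpv
  have hr1 : 1 ≤ r := (hp.dvd_iff_one_le_factorization hm0).1 hpm
  -- the factorization of v
  obtain ⟨n, hvn, hn2, hnp⟩ : ∃ n, Fintype.card G = (2 ^ s * p ^ l) * n ∧ ¬ 2 ∣ n ∧ ¬ p ∣ n := by
    have h2 : Nat.Coprime (2 ^ s) (p ^ l) := Nat.Coprime.pow _ _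
      ((Nat.coprime_primes Nat.prime_two hp).2 (Ne.symm hp2))
    have hd1 : 2 ^ s ∣ Fintype.card G := Nat.ordProj_dvd _ _
    have hd2 : p ^ l ∣ Fintype.card G := Nat.ordProj_dvd _ _
    obtain ⟨n, hn⟩ := h2.mul_dvd_of_dvd_of_dvd hd1 hd2
    have hn0 : n ≠ 0 := by
      rintro rfl
      simp at hn
    have hpl : p ^ l ≠ 0 := pow_ne_zero _ hp.ne_zero
    have h2s : (2 : ℕ) ^ s ≠ 0 := pow_ne_zero _ two_ne_zero
    refine ⟨n, hn, ?_, ?_⟩
    · intro h
      have h3 : 2 ^ (s + 1) ∣ Fintype.card G := by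
        rw [hn, pow_succ]
        calc 2 ^ s * 2 ∣ 2 ^ s * n := Nat.mul_dvd_mul_left _ h
          _ ∣ 2 ^ s * p ^ l * n := ⟨p ^ l, by ring⟩
      have h4 := (Nat.prime_two.pow_dvd_iff_le_factorization hvpos.ne').1 h3
      omega
    · intro h
      have h3 : p ^ (l + 1) ∣ Fintype.card G := by
        rw [hn, pow_succ]
        calc p ^ l * p ∣ p ^ l * n := Nat.mul_dvd_mul_left _ h
          _ ∣ 2 ^ s * p ^ l * n := ⟨2 ^ s, by ring⟩
      have h4 := (hp.pow_dvd_iff_le_factorization hvpos.ne').1 h3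
      omega
  have hcopn : (2 ^ s * p ^ l).Coprime n := by
    refine Nat.Coprime.mul_left ?_ ?_
    · exact Nat.Coprime.pow_left _ ((Nat.prime_two.coprime_iff_not_dvd).2 hn2)
    · exact Nat.Coprime.pow_left _ ((hp.coprime_iff_not_dvd).2 hnp)
  obtain ⟨N, M, iN, fN, iM, fM, e, hcN, hcM⟩ := exists_split hvn hcopn
  have hfl1 : Flat (fun y : N × M => d (e.symm y)) m := hflat.transport e
  have hN1 : 1 < Fintype.card N := by
    rw [hcN]
    have h1 : 2 ≤ 2 ^ s := by
      calc 2 = 2 ^ 1 := by norm_num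
        _ ≤ 2 ^ s := Nat.pow_le_pow_right (by norm_num) hs1
    have h2 : 1 ≤ p ^ l := Nat.one_le_pow _ _ hp.pos
    nlinarith
  have hfl2 : Flat (fun x : N => d (e.symm (x, 0))) (m.gcd (Fintype.card N)) :=
    (lemmaH (by rw [hcN, hcM]; exact hcopn)
      (by rw [hcM]; exact Nat.not_even_iff_odd.1 (fun h => hn2 h.two_dvd)) hN1
      (fun y => hd _) hmpos hfl1).1
  have hgcd : m.gcd (Fintype.card N) = 2 ^ a * p ^ r := by
    rw [hcN]
    have hpl : p ^ l ≠ 0 := pow_ne_zero _ hp.ne_zero
    have h2s : (2 : ℕ) ^ s ≠ 0 := pow_ne_zero _ two_ne_zero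
    have hpr : p ^ r ≠ 0 := pow_ne_zero _ hp.ne_zero
    have h2a : (2 : ℕ) ^ a ≠ 0 := pow_ne_zero _ two_ne_zero
    have has : a ≤ s := (Nat.factorization_le_iff_dvd hm0 hvpos.ne').2 hmv 2
    have hrl : r ≤ l := (Nat.factorization_le_iff_dvd hm0 hvpos.ne').2 hmv p
    refine Nat.eq_of_factorization_eq (Nat.gcd_ne_zero_left hm0) (mul_ne_zero h2a hpr) ?_
    intro q
    rw [Nat.factorization_gcd hm0 (mul_ne_zero h2s hpl), Finsupp.inf_apply,
      Nat.factorization_mul h2s hpl, Nat.factorization_mul h2a hpr,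
      Nat.prime_two.factorization_pow, Nat.prime_two.factorization_pow,
      hp.factorization_pow, hp.factorization_pow]
    simp only [Finsupp.add_apply]
    by_cases hq2 : q = 2
    · subst hq2
      have h5 : (Finsupp.single p l) 2 = 0 := Finsupp.single_eq_of_ne (Ne.symm hp2)
      have h6 : (Finsupp.single p r) 2 = 0 := Finsupp.single_eq_of_ne (Ne.symm hp2)
      rw [h5, h6, Finsupp.single_eq_same, Finsupp.single_eq_same]
      show min a (s + 0) = a + 0
      simpa using has
    · by_cases hqp : q = p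
      · subst hqp
        have h5 : (Finsupp.single 2 s) q = 0 := Finsupp.single_eq_of_ne hp2
        have h6 : (Finsupp.single 2 a) q = 0 := Finsupp.single_eq_of_ne hp2
        rw [h5, h6, Finsupp.single_eq_same, Finsupp.single_eq_same]
        show min r (0 + l) = 0 + r
        simpa using hrl
      · have h5 : (Finsupp.single p l) q = 0 := Finsupp.single_eq_of_ne hqp
        have h6 : (Finsupp.single p r) q = 0 := Finsupp.single_eq_of_ne hqp
        have h7 : (Finsupp.single 2 s) q = 0 := Finsupp.single_eq_of_ne hq2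
        have h8 : (Finsupp.single 2 a) q = 0 := Finsupp.single_eq_of_ne hq2
        rw [h5, h6, h7, h8]
        simp
  rw [hgcd] at hfl2
  have hcop2 : (2 ^ s).Coprime (p ^ l) := Nat.Coprime.pow _ _
      ((Nat.coprime_primes Nat.prime_two hp).2 (Ne.symm hp2))
  obtain ⟨V, P, iV, fV, iP, fP, e2, hcV, hcP⟩ := exists_split hcN hcop2
  have hfl3 : Flat (fun z : V × P => d (e.symm (e2.symm z, 0))) (2 ^ a * p ^ r) :=
    hfl2.transport e2
  rcases loc hp hp2 hs1 hr1 hcV hcP (fun z => hd _) hfl3 with h | ⟨h1, h2, b, A, B, h3, h4, -⟩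
  · exact Or.inl h
  · exact Or.inr ⟨h1, h2, b, A, B, h3, h4⟩

end Pool.Agent.McF
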