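import Pool.Agent.McF.Dvd

set_option autoImplicit false

/-! McF07. Character sums of fibres and of the section. -/

namespace Pool.Agent.McF

open Finset

variable {N M : Type} [AddCommGroup N] [Fintype N] [AddCommGroup M] [Fintype M]

/-- The character `χ × ψ`. -/
private noncomputable def pc (χ : AddChar N ℂ) (ψ : AddChar M ℂ) : AddChar (N × M) ℂ :=
  χ.compAddMonoidHom (AddMonoidHom.fst N M) * ψ.compAddMonoidHom (AddMonoidHom.snd N M)

omit [Fintype N] [Fintype M] in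
private theorem pc_apply (χ : AddChar N ℂ) (ψ : AddChar M ℂ) (x : N) (h : M) :
    pc χ ψ (x, h) = χ x * ψ h := rfl

omit [Fintype N] [Fintype M] in
private theorem pc_ne {χ : AddChar N ℂ} (hχ : χ ≠ 0) (ψ : AddChar M ℂ) : pc χ ψ ≠ 0 := by
  intro h0
  apply hχ
  ext x
  have h1 : pc χ ψ (x, 0) = 1 := by
    rw [h0]
    rfl
  rw [pc_apply, AddChar.map_zero_eq_one, mul_one] at h1
  rw [h1]
  rfl

private theorem hat_pc (d : N × M → ℤ) (χ : AddChar N ℂ) (ψ : AddChar M ℂ) :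
    hat d (pc χ ψ) = ∑ x, ∑ h, (d (x, h) : ℂ) * (χ x * ψ h) := by
  unfold hat
  rw [Fintype.sum_prod_type]
  rfl

/-- The character sum of the fibre function is the character sum of `d` at `χ × 1`, a nontrivial character of `N × M`. -/
theorem hat_fibre {d : N × M → ℤ} {m : ℕ} (hflat : Flat d m) {χ : AddChar N ℂ} (hχ : χ ≠ 0) :
    hat (fun x => ∑ h, d (x, h)) χ = (m : ℂ) ∨ hat (fun x => ∑ h, d (x, h)) χ = -(m : ℂ) := by
  have h1 : hat (fun x => ∑ h, d (x, h)) χ = hat d (pc χ 0) := by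
    rw [hat_pc]
    unfold hat
    refine sum_congr rfl fun x _ => ?_
    push_cast
    rw [sum_mul]
    refine sum_congr rfl fun h _ => ?_
    change (d (x, h) : ℂ) * χ x = (d (x, h) : ℂ) * (χ x * 1)
    rw [mul_one]
  rw [h1]
  exact hflat _ (pc_ne hχ 0)

/-- `|N| f(x) - ∑ f = ∑_{χ ≠ 0} hat f χ χ(-x)` is divisible by `m` (`dvd_of_flat` for `f`, by `hat_fibre`), and `∑ f = ∑ d`. -/
theorem dvd_fibre {d : N × M → ℤ} {m : ℕ} (hflat : Flat d m) (hsum : (m : ℤ) ∣ ∑ x, d x) (x : N) :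
    (m : ℤ) ∣ (Fintype.card N : ℤ) * ∑ h, d (x, h) := by
  have h1 : Flat (fun x => ∑ h, d (x, h)) m := fun χ hχ => hat_fibre hflat hχ
  have h2 : (m : ℤ) ∣ (Fintype.card N : ℤ) * ∑ h, d (x, h) - ∑ y, ∑ h, d (y, h) :=
    dvd_of_flat h1 x
  have h3 : ∑ y, ∑ h, d (y, h) = ∑ x, d x := by
    rw [Fintype.sum_prod_type]
  rw [h3] at h2
  exact (dvd_sub_left hsum).1 h2

/-- `∑_{ψ ∈ AddChar M ℂ} hat d (χ × ψ) = |M| hat (d(·,0)) χ` (exchange the sums: `∑_ψ ψ(h) = 0` for `h ≠ 0`). The left side is `m S`, `S` a sum of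
`|M|` signs (`χ × ψ ≠ 0` for all `ψ`; `AddChar.card_eq`), so `S` is odd. Let `m = m_N m_M`, `m_N = gcd(m, |N|)`, `m_M = gcd(m, |M|)` (coprime orders,
`m ∣ |N| |M|`), `|M| = m_M u`: `u E = m_N S` with `E = hat (d(·,0)) χ`. `E` is an algebraic integer (`hat_integral`), so `u ∣ m_N S`
(`dvd_of_integral`), `E` is an integer; `gcd(u, m_N) = 1` gives `m_N ∣ E`, `E = m_N s`, `u s = S` odd, so `s` is odd. -/
theorem hat_section (hcop : (Fintype.card N).Coprime (Fintype.card M))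
    (hM : Odd (Fintype.card M)) {d : N × M → ℤ} {m : ℕ} (hm : 0 < m)
    (hdvd : m ∣ Fintype.card N * Fintype.card M) (hflat : Flat d m) {χ : AddChar N ℂ}
    (hχ : χ ≠ 0) :
    ∃ s : ℤ, Odd s ∧ hat (fun x => d (x, 0)) χ = ((m.gcd (Fintype.card N) : ℕ) : ℂ) * s := by
  classical
  have he : ∀ ψ : AddChar M ℂ, ∃ e : ℤ, Odd e ∧ hat d (pc χ ψ) = (m : ℂ) * e := by
    intro ψ
    rcases hflat _ (pc_ne hχ ψ) with h | h
    · exact ⟨1, odd_one, by rw [h]; simp⟩
    · exact ⟨-1, by decide, by rw [h]; simp⟩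
  choose e heo hee using he
  set S : ℤ := ∑ ψ, e ψ with hS
  have hSo : Odd S := by
    choose f hf using heo
    obtain ⟨t, ht⟩ := hM
    refine ⟨∑ ψ, f ψ + t, ?_⟩
    rw [hS, sum_congr rfl fun ψ _ => hf ψ, sum_add_distrib, ← mul_sum, sum_const, card_univ,
      AddChar.card_eq, ht]
    rw [nsmul_eq_mul]
    push_cast
    ring
  set E : ℂ := hat (fun x => d (x, 0)) χ with hE
  have h1 : (Fintype.card M : ℂ) * E = (m : ℂ) * S := by
    have h2 : ∑ ψ : AddChar M ℂ, hat d (pc χ ψ) = (m : ℂ) * S := by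
      rw [hS]
      push_cast
      rw [mul_sum]
      exact sum_congr rfl fun ψ _ => hee ψ
    rw [← h2]
    have h3 : ∀ ψ : AddChar M ℂ, hat d (pc χ ψ) =
        ∑ x, ∑ h, ((d (x, h) : ℂ) * χ x) * ψ h := by
      intro ψ
      rw [hat_pc]
      refine sum_congr rfl fun x _ => sum_congr rfl fun h _ => ?_
      ring
    rw [sum_congr rfl fun ψ _ => h3 ψ, sum_comm]
    have h4 : ∀ x, ∑ ψ : AddChar M ℂ, ∑ h, ((d (x, h) : ℂ) * χ x) * ψ h =
        (Fintype.card M : ℂ) * ((d (x, 0) : ℂ) * χ x) := by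
      intro x
      rw [sum_comm]
      have h5 : ∀ h, ∑ ψ : AddChar M ℂ, ((d (x, h) : ℂ) * χ x) * ψ h =
          if h = 0 then ((d (x, h) : ℂ) * χ x) * (Fintype.card M : ℂ) else 0 := by
        intro h
        rw [← mul_sum, AddChar.sum_apply_eq_ite]
        split_ifs <;> simp
      rw [sum_congr rfl fun h _ => h5 h, sum_ite_eq', if_pos (mem_univ _), mul_comm]
    rw [sum_congr rfl fun x _ => h4 x, ← mul_sum]
    rfl
  have hgcd : m.gcd (Fintype.card N) * m.gcd (Fintype.card M) = m := by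
    rw [← Nat.Coprime.gcd_mul m hcop]
    exact Nat.gcd_eq_left hdvd
  obtain ⟨u, hu⟩ := Nat.gcd_dvd_right m (Fintype.card M)
  have hmM : 0 < m.gcd (Fintype.card M) := Nat.gcd_pos_of_pos_left _ hm
  have hu0 : 0 < u := by
    rcases Nat.eq_zero_or_pos u with h | h
    · rw [h, mul_zero] at hu
      exact absurd hu Fintype.card_ne_zero
    · exact h
  have h2 : (u : ℂ) * E = (m.gcd (Fintype.card N) : ℕ) * S := by
    have h3 : ((m.gcd (Fintype.card M) : ℕ) : ℂ) ≠ 0 := by exact_mod_cast hmM.ne'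
    apply mul_left_cancel₀ h3
    have h4 : (Fintype.card M : ℂ) = (m.gcd (Fintype.card M) : ℕ) * (u : ℂ) := by
      exact_mod_cast hu
    have h5 : (m : ℂ) = (m.gcd (Fintype.card N) : ℕ) * (m.gcd (Fintype.card M) : ℕ) := by
      exact_mod_cast hgcd.symm
    calc ((m.gcd (Fintype.card M) : ℕ) : ℂ) * ((u : ℂ) * E) = (Fintype.card M : ℂ) * E := by
          rw [h4]
          ring
      _ = (m : ℂ) * S := h1
      _ = _ := by
          rw [h5]
          ring
  have hu' : ((u : ℤ)) ≠ 0 := by exact_mod_cast hu0.ne'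
  have h3 : (u : ℤ) ∣ (m.gcd (Fintype.card N) : ℕ) * S := by
    refine dvd_of_integral hu' (hat_integral (fun x => d (x, 0)) χ) ?_
    rw [← hE]
    push_cast
    exact h2
  have hco : u.Coprime (m.gcd (Fintype.card N)) := by
    refine Nat.Coprime.of_dvd (Dvd.intro_left _ hu.symm) (Nat.gcd_dvd_right _ _) hcop.symm
  have h4 : (u : ℤ) ∣ S := by
    refine IsCoprime.dvd_of_dvd_mul_left ?_ h3
    exact Nat.isCoprime_iff_coprime.2 hco
  obtain ⟨s, hs⟩ := h4
  refine ⟨s, ?_, ?_⟩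
  · rw [hs] at hSo
    exact (Int.odd_mul.1 hSo).2
  · have h5 : (u : ℂ) ≠ 0 := by exact_mod_cast hu0.ne'
    apply mul_left_cancel₀ h5
    rw [h2, hs]
    push_cast
    ring

end Pool.Agent.McF
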