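import Pool.Agent.McF.HPar
import Pool.Agent.McF.HDual
import Pool.Agent.McF.Facts

set_option autoImplicit false

/-! McF08. Lemma H: sub-difference sets by a variance argument. -/

namespace Pool.Agent.McF

open Finset

variable {N M : Type} [AddCommGroup N] [Fintype N] [AddCommGroup M] [Fintype M]

private theorem hm_sum_char {χ : AddChar N ℂ} (hχ : χ ≠ 0) : ∑ x, χ x = 0 :=
  AddChar.sum_eq_zero_iff_ne_zero.2 hχ

private theorem hm_hat_lin {C e : N → ℤ} {c0 ε : ℤ} (h : ∀ x, C x = c0 + ε * e x)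
    {χ : AddChar N ℂ} (hχ : χ ≠ 0) : hat C χ = (ε : ℂ) * hat e χ := by
  unfold hat
  have h1 : ∀ x, ((C x : ℤ) : ℂ) * χ x = (c0 : ℂ) * χ x + (ε : ℂ) * ((e x : ℂ) * χ x) := by
    intro x
    rw [h x]
    push_cast
    ring
  rw [sum_congr rfl fun x _ => h1 x, sum_add_distrib, ← mul_sum, ← mul_sum, hm_sum_char hχ,
    mul_zero, zero_add]

private theorem hm_hat_smul {f C : N → ℤ} {k : ℤ} (h : ∀ x, f x = k * C x)
    (χ : AddChar N ℂ) : hat f χ = (k : ℂ) * hat C χ := by
  unfold hat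
  rw [mul_sum]
  refine sum_congr rfl fun x _ => ?_
  rw [h x]
  push_cast
  ring

private theorem hm_odd_sq {a : ℤ} (h : Odd a) : 1 ≤ a ^ 2 := by
  have h1 : a ≠ 0 := by
    rintro rfl
    exact absurd h (by decide)
  have h2 : 0 < a ^ 2 := by positivity
  omega

/-- **Lemma H.** Write `m = m_N m_M`, `m_N = gcd(m, |N|)`, `m_M = gcd(m, |M|)` (`dvd_card` for `d`:
`m ∣ |N| |M|`, coprime orders), `f(x) = ∑_h d (x, h)`, `e(x) = d (x, 0)`.
(a) `m_M ∣ f(x)`: `m ∣ |N| f(x)` (`dvd_fibre`, `dvd_sum`) and `gcd(m_M, |N|) = 1`. `C = f / m_M`.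
(b) `C = e` mod 2: `fibre_parity`, `m_M` is odd.
(c) for `χ ≠ 0`: `hat C χ = ± m_N` (`hat_fibre` divided by `m_M`).
(d) for `χ ≠ 0`: `hat e χ = m_N s`, `s` odd (`hat_section`), so `‖hat C χ‖ = m_N ≤ ‖hat e χ‖`.
(e) By `pairs_le`: `∑∑ (C x - C y)² ≤ ∑∑ (e x - e y)²`; by (b) `(e x - e y)² ≤ (C x - C y)²` for all
`x, y` (if `e x ≠ e y` then `C x - C y` is odd). So equality for all pairs. So `C = c0 ± e`
(`two_values`) or both are constant (excluded by (c)), and `hat C χ = ± hat e χ`. -/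
theorem lemmaH (hcop : (Fintype.card N).Coprime (Fintype.card M)) (hM : Odd (Fintype.card M))
    (hN : 1 < Fintype.card N) {d : N × M → ℤ} (hd : IsInd d) {m : ℕ} (hm : 0 < m)
    (hflat : Flat d m) :
    Flat (fun x => d (x, 0)) (m.gcd (Fintype.card N)) ∧
    ∃ C : N → ℤ, (∀ x, ∑ h, d (x, h) = (m.gcd (Fintype.card M) : ℤ) * C x) ∧
      Flat C (m.gcd (Fintype.card N)) ∧
      ∀ x y, (C x - C y) ^ 2 = (d (x, 0) - d (y, 0)) ^ 2 := by
  have hMpos : 0 < Fintype.card M := hM.pos
  have hG : 1 < Fintype.card (N × M) := by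
    rw [Fintype.card_prod]
    nlinarith
  have hdvd : m ∣ Fintype.card N * Fintype.card M := by
    have h := dvd_card hd hm hflat hG
    rwa [Fintype.card_prod] at h
  have hmm : m = m.gcd (Fintype.card N) * m.gcd (Fintype.card M) := by
    rw [← Nat.Coprime.gcd_mul m hcop, Nat.gcd_eq_left hdvd]
  set mN := m.gcd (Fintype.card N) with hmN
  set mM := m.gcd (Fintype.card M) with hmM
  have hmN0 : 0 < mN := Nat.gcd_pos_of_pos_left _ hm
  have hmM0 : 0 < mM := Nat.gcd_pos_of_pos_left _ hm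
  have hmMC : (mM : ℂ) ≠ 0 := by exact_mod_cast hmM0.ne'
  have hmNC : (mN : ℂ) ≠ 0 := by exact_mod_cast hmN0.ne'
  have hcop' : IsCoprime (mM : ℤ) (Fintype.card N : ℤ) := by
    rw [Nat.isCoprime_iff_coprime]
    exact (hcop.symm.coprime_dvd_left (Nat.gcd_dvd_right _ _))
  -- (a)
  have ha : ∀ x, ∃ c : ℤ, ∑ h, d (x, h) = (mM : ℤ) * c := by
    intro x
    have h1 : (m : ℤ) ∣ (Fintype.card N : ℤ) * ∑ h, d (x, h) :=
      dvd_fibre hflat (dvd_sum hd hm hflat hG) x
    have h2 : (mM : ℤ) ∣ (Fintype.card N : ℤ) * ∑ h, d (x, h) := by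
      refine dvd_trans ?_ h1
      rw [hmm]
      push_cast
      exact dvd_mul_left _ _
    exact hcop'.dvd_of_dvd_mul_left h2
  choose C hC using ha
  -- (b)
  have hmModd : Odd mM := hM.of_dvd_nat (Nat.gcd_dvd_right _ _)
  have hpar : ∀ x, (2 : ℤ) ∣ C x - d (x, 0) := by
    intro x
    have h1 := fibre_parity hcop hM hflat x
    rw [hC x] at h1
    obtain ⟨k, hk⟩ := hmModd
    have h2 : (mM : ℤ) = 2 * k + 1 := by exact_mod_cast hk
    rw [h2] at h1
    have h3 : (2 * (k : ℤ) + 1) * C x - d (x, 0) = 2 * (k * C x) + (C x - d (x, 0)) := by ring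
    rw [h3] at h1
    exact (dvd_add_right (dvd_mul_right 2 _)).1 h1
  -- (c)
  have hCflat : Flat C mN := by
    intro χ hχ
    have h1 := hat_fibre hflat hχ
    rw [hm_hat_smul (f := fun x => ∑ h, d (x, h)) hC χ] at h1
    have h2 : (m : ℂ) = (mM : ℂ) * mN := by
      rw [hmm]
      push_cast
      ring
    rw [h2, ← mul_neg] at h1
    push_cast at h1
    rcases h1 with h1 | h1
    · exact Or.inl (mul_left_cancel₀ hmMC h1)
    · exact Or.inr (mul_left_cancel₀ hmMC h1)
  -- (d), (e)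
  have hle : ∑ x, ∑ y, (C x - C y) ^ 2 ≤ ∑ x, ∑ y, (d (x, 0) - d (y, 0)) ^ 2 := by
    refine pairs_le (F := C) (F' := fun x => d (x, 0)) fun χ hχ => ?_
    obtain ⟨s, hs, h1⟩ := hat_section hcop hM hm hdvd hflat hχ
    have h2 : ‖hat C χ‖ = mN := by
      rcases hCflat χ hχ with h | h
      · rw [h, Complex.norm_natCast]
      · rw [h, norm_neg, Complex.norm_natCast]
    rw [h2, h1, norm_mul, Complex.norm_natCast, Complex.norm_intCast]
    have h3 : (1 : ℝ) ≤ |(s : ℝ)| := by
      have h4 : s ≠ 0 := by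
        rintro rfl
        exact absurd hs (by decide)
      exact_mod_cast Int.one_le_abs h4
    exact le_mul_of_one_le_right (Nat.cast_nonneg _) h3
  have hpt : ∀ x y, (d (x, 0) - d (y, 0)) ^ 2 ≤ (C x - C y) ^ 2 := by
    intro x y
    rcases eq_or_ne (d (x, 0)) (d (y, 0)) with h | h
    · rw [h, sub_self]
      positivity
    · have h1 : (d (x, 0) - d (y, 0)) ^ 2 = 1 := by
        rcases hd (x, 0) with hx | hx <;> rcases hd (y, 0) with hy | hy <;> rw [hx, hy] at h ⊢ <;>
          first | exact absurd rfl h | norm_num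
      rw [h1]
      refine hm_odd_sq ?_
      obtain ⟨a, ha⟩ := hpar x
      obtain ⟨b, hb⟩ := hpar y
      rcases hd (x, 0) with hx | hx <;> rcases hd (y, 0) with hy | hy
      · exact absurd (hx.trans hy.symm) h
      · exact ⟨a - b - 1, by omega⟩
      · exact ⟨a - b, by omega⟩
      · exact absurd (hx.trans hy.symm) h
  have hall : ∀ x y, (C x - C y) ^ 2 = (d (x, 0) - d (y, 0)) ^ 2 := by
    have h1 : ∀ x ∈ (univ : Finset N), ∑ y, (d (x, 0) - d (y, 0)) ^ 2 ≤ ∑ y, (C x - C y) ^ 2 :=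
      fun x _ => sum_le_sum fun y _ => hpt x y
    have h2 := (sum_eq_sum_iff_of_le h1).1 (le_antisymm (sum_le_sum h1) hle)
    intro x y
    have h3 := (sum_eq_sum_iff_of_le fun y _ => hpt x y).1 (h2 x (mem_univ x)) y (mem_univ y)
    exact h3.symm
  refine ⟨fun χ hχ => ?_, C, hC, hCflat, hall⟩
  by_cases h0 : ∃ x, d (x, 0) = 0
  · by_cases h1 : ∃ x, d (x, 0) = 1
    · obtain ⟨c0, ε, hε, h⟩ := two_values (C := C) (e := fun x => d (x, 0))
        (fun x => hd (x, 0)) h0 h1 hall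
      have h2 := hm_hat_lin h hχ
      have h3 := hCflat χ hχ
      rw [h2] at h3
      rcases hε with rfl | rfl
      · simpa using h3
      · push_cast at h3
        rw [neg_one_mul] at h3
        rcases h3 with h3 | h3
        · right
          rw [← h3, neg_neg]
        · left
          exact neg_injective h3
    · exfalso
      have h2 : ∀ x, d (x, 0) = 0 := fun x => (hd (x, 0)).resolve_right fun h => h1 ⟨x, h⟩
      obtain ⟨x0, _⟩ := h0
      have h3 : ∀ x, C x = C x0 + 0 * C x := by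
        intro x
        have h4 := hall x x0
        rw [h2, h2, sub_self, zero_pow two_ne_zero] at h4
        have h5 : C x - C x0 = 0 := pow_eq_zero_iff two_ne_zero |>.1 h4
        rw [zero_mul, add_zero]
        omega
      have h4 := hm_hat_lin h3 hχ
      rw [Int.cast_zero, zero_mul] at h4
      have h5 := hCflat χ hχ
      rw [h4] at h5
      rcases h5 with h5 | h5
      · exact hmNC h5.symm
      · exact hmNC (neg_eq_zero.1 h5.symm)
  · exfalso
    have h2 : ∀ x, d (x, 0) = 1 := fun x => (hd (x, 0)).resolve_left fun h => h0 ⟨x, h⟩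
    have h3 : ∀ x, C x = C 0 + 0 * C x := by
      intro x
      have h4 := hall x 0
      rw [h2, h2, sub_self, zero_pow two_ne_zero] at h4
      have h5 : C x - C 0 = 0 := pow_eq_zero_iff two_ne_zero |>.1 h4
      rw [zero_mul, add_zero]
      omega
    have h4 := hm_hat_lin h3 hχ
    rw [Int.cast_zero, zero_mul] at h4
    have h5 := hCflat χ hχ
    rw [h4] at h5
    rcases h5 with h5 | h5
    · exact hmNC h5.symm
    · exact hmNC (neg_eq_zero.1 h5.symm)

end Pool.Agent.McF
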