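import Pool.Agent.McF.Inv

set_option autoImplicit false

/-! McF05. The number of points of a fibre modulo 2. -/

namespace Pool.Agent.McF

open Finset

variable {N M : Type} [AddCommGroup N] [Fintype N] [AddCommGroup M] [Fintype M]

/-- Choose `t = 1` mod `|N|`, `t = -1` mod `|M|` (`Nat.chineseRemainder`); `t` is prime to `|N| |M| = |N × M|`, so
`d (x, h) = d (t • (x, h)) = d (x, -h)` (`inv_of_flat`). The involution `h ↦ -h` of `M` has the only fixed point `0`, as `|M|` is odd
(`h + h = 0` and `|M| h = 0` give `h = 0`). Work in `ZMod 2` with `Finset.sum_involution` on `univ.erase 0`, or pair up. -/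
theorem fibre_parity (hcop : (Fintype.card N).Coprime (Fintype.card M))
    (hM : Odd (Fintype.card M)) {d : N × M → ℤ} {m : ℕ} (hflat : Flat d m) (x : N) :
    (2 : ℤ) ∣ (∑ h, d (x, h)) - d (x, 0) := by
  classical
  have hMpos : 0 < Fintype.card M := Fintype.card_pos
  obtain ⟨t, ht1, ht2⟩ := Nat.chineseRemainder hcop 1 (Fintype.card M - 1)
  have htN : t.Coprime (Fintype.card N) := by
    have h1 := ht1.gcd_eq
    rw [Nat.gcd_one_left] at h1
    exact h1
  have htM : t.Coprime (Fintype.card M) := by
    have h1 := ht2.gcd_eq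
    have h2 : Nat.gcd (Fintype.card M - 1) (Fintype.card M) = 1 := by
      have h3 := Nat.coprime_self_sub_right (m := 1) (n := Fintype.card M) hMpos
      have h4 : (Fintype.card M - 1).Coprime (Fintype.card M) := by
        rw [Nat.coprime_comm]
        exact h3.mpr (Nat.coprime_one_right _)
      exact h4
    rw [h2] at h1
    exact h1
  have htNM : t.Coprime (Fintype.card (N × M)) := by
    rw [Fintype.card_prod]
    exact Nat.Coprime.mul_right htN htM
  have hx : t • x = x := by
    have h1 : t • x = 1 • x := by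
      have := ht1
      obtain h | h := le_total 1 t
      · obtain ⟨k, hk⟩ := (Nat.modEq_iff_dvd' h).1 ht1.symm
        have h2 : t = 1 + Fintype.card N * k := by omega
        rw [h2, add_nsmul, mul_nsmul, card_nsmul_eq_zero, nsmul_zero, add_zero]
      · obtain ⟨k, hk⟩ := (Nat.modEq_iff_dvd' h).1 ht1
        have h2 : 1 = t + Fintype.card N * k := by omega
        conv_rhs => rw [h2, add_nsmul, mul_nsmul, card_nsmul_eq_zero, nsmul_zero, add_zero]
    rw [h1, one_nsmul]
  have hneg : ∀ h : M, t • h = -h := by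
    intro h
    have h0 : (t + 1) • h = 0 := by
      have h1 : Fintype.card M ∣ t + 1 := by
        have h2 : t + 1 ≡ (Fintype.card M - 1) + 1 [MOD Fintype.card M] := ht2.add_right 1
        rw [Nat.sub_add_cancel hMpos] at h2
        have h3 : t + 1 ≡ 0 [MOD Fintype.card M] := h2.trans (by simp [Nat.ModEq])
        exact (Nat.modEq_zero_iff_dvd).1 h3
      obtain ⟨k, hk⟩ := h1
      rw [hk, mul_nsmul, card_nsmul_eq_zero, nsmul_zero]
    rw [add_nsmul, one_nsmul] at h0
    exact eq_neg_of_add_eq_zero_left h0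
  have hd : ∀ h : M, d (x, -h) = d (x, h) := by
    intro h
    have h1 := inv_of_flat hflat htNM (x, h)
    rw [Prod.smul_mk, hx, hneg] at h1
    exact h1
  have hfix : ∀ h : M, -h = h → h = 0 := by
    intro h hh
    have h2 : 2 • h = 0 := by
      rw [two_nsmul]
      nth_rewrite 1 [← hh]
      exact neg_add_cancel h
    obtain ⟨k, hk⟩ := hM
    have h3 : Fintype.card M • h = 0 := card_nsmul_eq_zero
    rw [hk, add_nsmul, mul_nsmul, h2, nsmul_zero, zero_add, one_nsmul] at h3
    exact h3
  have hsum : ∑ h ∈ univ.erase (0 : M), ((d (x, h) : ℤ) : ZMod 2) = 0 := by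
    refine Finset.sum_involution (fun h _ => -h) ?_ ?_ ?_ ?_
    · intro h _
      rw [hd h]
      exact CharTwo.add_self_eq_zero _
    · intro h hh _ he
      exact (Finset.mem_erase.1 hh).1 (hfix h he)
    · intro h hh
      rw [Finset.mem_erase] at hh ⊢
      exact ⟨fun he => hh.1 (neg_eq_zero.1 he), Finset.mem_univ _⟩
    · intro h _
      exact neg_neg h
  have hs : (∑ h, d (x, h)) - d (x, 0) = ∑ h ∈ univ.erase (0 : M), d (x, h) := by
    rw [← Finset.add_sum_erase univ (fun h => d (x, h)) (Finset.mem_univ (0 : M))]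
    ring
  rw [hs]
  have h2 : (((∑ h ∈ univ.erase (0 : M), d (x, h)) : ℤ) : ZMod 2) = 0 := by
    rw [Int.cast_sum]
    exact hsum
  exact (ZMod.intCast_zmod_eq_zero_iff_dvd _ 2).1 h2

end Pool.Agent.McF
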