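import Pool.Agent.McF.Four

set_option autoImplicit false

/-! McF03. Invariance under multiplication by integers prime to the order. -/

namespace Pool.Agent.McF

open Finset

variable {G : Type} [AddCommGroup G] [Fintype G]

/-- **Galois conjugation.** Let `v = |G|`, `ζ = exp(2πi/v)` (`Complex.isPrimitiveRoot_exp`). `χ(x)^v = 1`, so `χ(x) = ζ^{a(x)}`
(`IsPrimitiveRoot.eq_pow_of_pow_eq_one`). The integral polynomial `P = ∑ F(x) X^{a(x)} - c` vanishes at `ζ`, so it is divisible by
`minpoly ℤ ζ` (`minpoly.isIntegrallyClosed_dvd`) `= minpoly ℤ (ζ^t)` (`IsPrimitiveRoot.minpoly_eq_pow_coprime`), so `P(ζ^t) = 0`,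
and `ζ^{t a(x)} = χ(x)^t = χ(t x)`. -/
theorem hat_nsmul {F : G → ℤ} {χ : AddChar G ℂ} {c : ℤ} (h : hat F χ = (c : ℂ)) {t : ℕ}
    (ht : t.Coprime (Fintype.card G)) : ∑ x, (F x : ℂ) * χ (t • x) = (c : ℂ) := by
  have hv : Fintype.card G ≠ 0 := Fintype.card_ne_zero
  have hζ := Complex.isPrimitiveRoot_exp (Fintype.card G) hv
  set ζ := Complex.exp (2 * Real.pi * Complex.I / (Fintype.card G : ℕ)) with hζdef
  have ha : ∀ x : G, ∃ i, ζ ^ i = χ x := by
    intro x
    have h1 : χ x ^ Fintype.card G = 1 := by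
      rw [← AddChar.map_nsmul_eq_pow, card_nsmul_eq_zero, AddChar.map_zero_eq_one]
    have : NeZero (Fintype.card G) := ⟨hv⟩
    obtain ⟨i, _, hi⟩ := hζ.eq_pow_of_pow_eq_one h1
    exact ⟨i, hi⟩
  choose a ha using ha
  have hint : IsIntegral ℤ ζ := hζ.isIntegral (Nat.pos_of_ne_zero hv)
  set P : Polynomial ℤ := ∑ x, Polynomial.C (F x) * Polynomial.X ^ (a x) - Polynomial.C c with hP
  have hval : ∀ z : ℂ, Polynomial.aeval z P = ∑ x, (F x : ℂ) * z ^ (a x) - (c : ℂ) := by
    intro z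
    rw [hP, map_sub, map_sum]
    simp
  have h0 : Polynomial.aeval ζ P = 0 := by
    rw [hval, sub_eq_zero, ← h]
    unfold hat
    exact Finset.sum_congr rfl fun x _ => by rw [ha]
  have h1 : minpoly ℤ ζ ∣ P := minpoly.isIntegrallyClosed_dvd hint h0
  rw [hζ.minpoly_eq_pow_coprime ht] at h1
  have h2 : Polynomial.aeval (ζ ^ t) P = 0 := by
    obtain ⟨Q, hQ⟩ := h1
    rw [hQ, map_mul, minpoly.aeval, zero_mul]
  rw [hval, sub_eq_zero] at h2
  rw [← h2]
  refine Finset.sum_congr rfl fun x _ => ?_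
  rw [AddChar.map_nsmul_eq_pow, ← ha x, ← pow_mul, ← pow_mul, mul_comm t (a x)]

/-- Let `t t' = 1` mod `|G|`. `x ↦ t • x` is a bijection of `G` with inverse `x ↦ t' • x` (`(Fintype.card G) • x = 0`: `card_nsmul_eq_zero`).
For every `χ`: `hat (fun x => F (t • x)) χ = ∑_y F(y) χ(t' • y) = hat F χ`: for `χ ≠ 0` by `hat_nsmul` (`hat F χ = ± m` is an
integer), for `χ = 0` trivially. `hat_inj`. -/
theorem inv_of_flat {F : G → ℤ} {m : ℕ} (h : Flat F m) {t : ℕ} (ht : t.Coprime (Fintype.card G))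
    (x : G) : F (t • x) = F x := by
  rcases Nat.lt_or_ge 1 (Fintype.card G) with hv | hv
  · obtain ⟨t', _, ht'⟩ := Nat.exists_mul_mod_eq_one_of_coprime ht hv
    have hcop : t'.Coprime (Fintype.card G) := by
      have h1 : Nat.gcd t' (Fintype.card G) ∣ t * t' % Fintype.card G :=
        (Nat.dvd_mod_iff (Nat.gcd_dvd_right _ _)).2 (Dvd.dvd.mul_left (Nat.gcd_dvd_left _ _) _)
      rw [ht'] at h1
      exact Nat.dvd_one.1 h1
    have hmul : ∀ y : G, (t * t') • y = y := by
      intro y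
      rw [← Nat.div_add_mod (t * t') (Fintype.card G), ht', add_nsmul, mul_comm, mul_nsmul',
        card_nsmul_eq_zero, nsmul_zero, zero_add, one_nsmul]
    have hl : ∀ y : G, t' • (t • y) = y := fun y => by
      rw [← mul_nsmul, hmul]
    have hr : ∀ y : G, t • (t' • y) = y := fun y => by
      rw [← mul_nsmul', hmul]
    let e : G ≃ G := ⟨fun y => t • y, fun y => t' • y, hl, hr⟩
    have key : (fun x => F (t • x)) = F := by
      apply hat_inj
      intro χ
      have h1 : hat (fun x => F (t • x)) χ = ∑ y, (F y : ℂ) * χ (t' • y) := by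
        unfold hat
        rw [← Equiv.sum_comp e (fun y => (F y : ℂ) * χ (t' • y))]
        refine Finset.sum_congr rfl fun y _ => ?_
        change _ = (F (t • y) : ℂ) * χ (t' • (t • y))
        rw [hl]
      rw [h1]
      by_cases hχ : χ = 0
      · subst hχ
        unfold hat
        simp
      · rcases h χ hχ with h2 | h2
        · have h3 : hat F χ = ((m : ℤ) : ℂ) := by rw [h2]; simp
          rw [hat_nsmul h3 hcop, h3]
        · have h3 : hat F χ = ((-(m : ℤ) : ℤ) : ℂ) := by rw [h2]; simp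
          rw [hat_nsmul h3 hcop, h3]
    exact congrFun key x
  · have : Subsingleton G := Fintype.card_le_one_iff_subsingleton.1 hv
    rw [Subsingleton.elim (t • x) x]

end Pool.Agent.McF
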