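import Pool.Agent.McF.HMain

set_option autoImplicit false

/-! McF09. The odd primes of `|G|` divide `m`. -/

namespace Pool.Agent.McF

open Finset

variable {N M : Type} [AddCommGroup N] [Fintype N] [AddCommGroup M] [Fintype M]

/-- A product `c (q - c)` with `0 ≤ c ≤ q` is `0` at the ends and at least `q - 1` inside. -/
private theorem sec3_term {q c : ℤ} (h0 : 0 ≤ c) (h1 : c ≤ q) :
    (c = 0 ∨ c = q) ∨ (0 < c ∧ c < q ∧ q - 1 ≤ c * (q - c)) := by
  rcases eq_or_lt_of_le h0 with h | h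
  · exact Or.inl (Or.inl h.symm)
  rcases eq_or_lt_of_le h1 with h' | h'
  · exact Or.inl (Or.inr h')
  refine Or.inr ⟨h, h', ?_⟩
  nlinarith [mul_nonneg (sub_nonneg.2 (show 1 ≤ c by omega))
    (sub_nonneg.2 (show 1 ≤ q - c by omega))]

/-- The end of the proof. -/
private theorem sec3_arith {n q k m c0 c1 : ℤ} (hm : 2 ≤ m) (hq : 3 ≤ q) (hn : 2 ≤ n)
    (hk0 : 0 < k) (hkn : k < n) (hc : c1 = c0 + 1 ∨ c1 = c0 - 1) (h0 : 0 ≤ c0) (h0q : c0 ≤ q)
    (h1 : 0 ≤ c1) (h1q : c1 ≤ q) (hs : (n - k) * (c0 * (q - c0)) + k * (c1 * (q - c1)) =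
      m ^ 2 * (q - 1)) (he : k * (n - k) = m ^ 2 * (n - 1)) : False := by
  have hm2 : 4 ≤ m ^ 2 := by nlinarith
  have h4 : 4 * (m ^ 2 * (n - 1)) ≤ n ^ 2 := by
    rw [← he]
    nlinarith [sq_nonneg (n - 2 * k)]
  -- `n > m ^ 2`
  have hnm : m ^ 2 < n := by
    by_contra hcon
    have h5 : n ≤ m ^ 2 := by omega
    have h6 : 4 * (n * (n - 1)) ≤ n ^ 2 := by
      refine le_trans ?_ h4
      have := mul_le_mul_of_nonneg_right h5 (show (0 : ℤ) ≤ n - 1 by omega)
      omega
    nlinarith
  have hne : m ^ 2 * (n - m ^ 2) ≠ m ^ 2 * (n - 1) := by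
    intro h5
    have h6 : n - m ^ 2 = n - 1 := mul_left_cancel₀ (show m ^ 2 ≠ 0 by omega) h5
    omega
  have hq1 : q - 1 ≠ 0 := by omega
  rcases sec3_term h0 h0q with h5 | ⟨h5, h6, h7⟩
  · have hu : c0 * (q - c0) = 0 := by
      rcases h5 with h5 | h5
      · rw [h5, zero_mul]
      · rw [h5, sub_self, mul_zero]
    rcases sec3_term h1 h1q with h8 | ⟨h8, h9, -⟩
    · rcases h5 with h5 | h5 <;> rcases h8 with h8 | h8 <;> rcases hc with hc | hc <;> omega
    · have hv : c1 * (q - c1) = q - 1 := by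
        rcases h5 with h5 | h5 <;> rcases hc with hc | hc
        · rw [hc, h5]
          ring
        · omega
        · omega
        · rw [hc, h5]
          ring
      rw [hu, hv, mul_zero, zero_add] at hs
      have h10 : k = m ^ 2 := mul_right_cancel₀ hq1 hs
      rw [h10] at he
      exact hne he
  · rcases sec3_term h1 h1q with h8 | ⟨h8, h9, h10⟩
    · have hv : c1 * (q - c1) = 0 := by
        rcases h8 with h8 | h8
        · rw [h8, zero_mul]
        · rw [h8, sub_self, mul_zero]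
      have hu : c0 * (q - c0) = q - 1 := by
        rcases h8 with h8 | h8 <;> rcases hc with hc | hc
        · omega
        · have h11 : c0 = 1 := by omega
          rw [h11, one_mul]
        · have h11 : c0 = q - 1 := by omega
          rw [h11]
          ring
        · omega
      rw [hu, hv, mul_zero, add_zero] at hs
      have h11 : n - k = m ^ 2 := mul_right_cancel₀ hq1 hs
      have h12 : k = n - m ^ 2 := by omega
      rw [h11, h12, mul_comm] at he
      exact hne he
    · have h11 : (n - k) * (q - 1) + k * (q - 1) ≤ m ^ 2 * (q - 1) := by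
        rw [← hs]
        exact add_le_add (mul_le_mul_of_nonneg_left h7 (by omega))
          (mul_le_mul_of_nonneg_left h10 (by omega))
      have h12 : n * (q - 1) ≤ m ^ 2 * (q - 1) := by
        refine le_trans (le_of_eq ?_) h11
        ring
      have h13 : n ≤ m ^ 2 := le_of_mul_le_mul_right h12 (by omega)
      omega

/-- Suppose `p ∤ m`. Then `gcd(m, |M|) = 1` and `gcd(m, |N|) = m` (`m ∣ |N| |M|`, `dvd_card`), so in `lemmaH`: `f(x) = ∑_h d (x, h) = C(x)`, `C` and
`e = d(·,0)` are flat for `m`; `C = c0 + ε e` (`two_values`; both values of `e` occur, `exists_zero`, `exists_one`). Let `n = |N|`, `q = p ^ l`,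
`k = ∑ f = ∑ d`. `flat_sum` for `C`: `n ∑ C² = k² + (n - 1) m²`; `flat_count` for `d`: `k (n q - k) = m² (n q - 1)`. So
(*) `∑_x C(x) (q - C(x)) = m² (q - 1)`. Here `0 ≤ C(x) ≤ q`, and every term is `0` or `≥ q - 1`.
`flat_count` for `e`: `k_e (n - k_e) = m² (n - 1)`, so `4 m² (n - 1) ≤ n²`: `n = 2` is impossible (`m ≥ 2`), and `n ≥ 3` gives `4 m² ≤ n + 1`.
Both values `c0, c0 + ε` in `(0, q)`: `n (q - 1) ≤ m² (q - 1)`, so `n ≤ m²`, impossible. Exactly one of them in `(0, q)`: the other one is `0` or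
`q`, so it is `1` or `q - 1`, its term is `q - 1`, so by (*) it is taken exactly `m²` times: `k_e = m²` or `n - k_e = m²`, and
`m² (n - m²) = m² (n - 1)` gives `m = 1`, a contradiction. None: `{0, q}` are neighbours, `q = 1`, but `l ≥ 1`. -/
theorem prime_dvd {p l : ℕ} (hp : p.Prime) (hp2 : p ≠ 2) (hl : 1 ≤ l)
    (hM : Fintype.card M = p ^ l) (hcop : (Fintype.card N).Coprime (Fintype.card M))
    (hN : 1 < Fintype.card N) {d : N × M → ℤ} (hd : IsInd d) {m : ℕ} (hm : 2 ≤ m)
    (hflat : Flat d m) : p ∣ m := by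
  by_contra hpm
  have hp3 : 3 ≤ p := by
    have := hp.two_le
    omega
  have hq3 : 3 ≤ p ^ l := by
    calc 3 ≤ p := hp3
      _ = p ^ 1 := (pow_one p).symm
      _ ≤ p ^ l := Nat.pow_le_pow_right (by omega) hl
  have hMo : Odd (Fintype.card M) := by
    rw [hM]
    exact (hp.odd_of_ne_two hp2).pow
  have hcardNM : Fintype.card (N × M) = Fintype.card N * Fintype.card M := Fintype.card_prod N M
  have hNM : 1 < Fintype.card (N × M) := by
    rw [hcardNM, hM]
    nlinarith
  have hmM : m.Coprime (Fintype.card M) := by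
    rw [hM]
    exact (((Nat.Prime.coprime_iff_not_dvd hp).2 hpm).symm).pow_right l
  have hmN : m ∣ Fintype.card N := by
    have h1 := dvd_card hd (by omega) hflat hNM
    rw [hcardNM] at h1
    exact hmM.dvd_of_dvd_mul_right h1
  obtain ⟨he, C, hC, hCf, hCe⟩ := lemmaH hcop hMo hN hd (by omega) hflat
  rw [Nat.gcd_eq_left hmN] at he hCf
  have hgM : m.gcd (Fintype.card M) = 1 := hmM
  rw [hgM] at hC
  simp only [Nat.cast_one, one_mul] at hC
  have hei : IsInd fun x : N => d (x, 0) := fun x => hd (x, 0)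
  obtain ⟨c0, ε, hε, hCc⟩ := two_values hei (exists_zero hei (by omega) he hN)
    (exists_one hei (by omega) he hN) hCe
  -- the sums
  have hke := flat_count hei he
  have hke0 := sum_pos_of_flat hei (by omega) he hN
  have hken := sum_lt_of_flat hei (by omega) he hN
  have hCs := flat_sum hCf
  have hds := flat_count hd hflat
  have hsum : ∑ x, d x = ∑ x, C x := by
    rw [Fintype.sum_prod_type]
    exact Finset.sum_congr rfl fun x _ => hC x
  have hn0 : (0 : ℤ) < Fintype.card N := by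
    have : 0 < Fintype.card N := by omega
    exact_mod_cast this
  rw [hsum, hcardNM] at hds
  push_cast at hds
  have hstar : ∑ x, C x * ((Fintype.card M : ℤ) - C x) =
      (m : ℤ) ^ 2 * ((Fintype.card M : ℤ) - 1) := by
    have h1 : ∑ x, C x * ((Fintype.card M : ℤ) - C x) =
        (Fintype.card M : ℤ) * ∑ x, C x - ∑ x, C x ^ 2 := by
      rw [Finset.mul_sum, ← Finset.sum_sub_distrib]
      exact Finset.sum_congr rfl fun x _ => by ring
    rw [h1]
    refine mul_left_cancel₀ (ne_of_gt hn0) ?_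
    rw [mul_sub, hCs]
    linear_combination hds
  have hCb : ∀ x, 0 ≤ C x ∧ C x ≤ Fintype.card M := by
    intro x
    rw [← hC x]
    constructor
    · refine Finset.sum_nonneg fun h _ => ?_
      rcases hd (x, h) with h1 | h1 <;> rw [h1] <;> norm_num
    · calc ∑ h, d (x, h) ≤ ∑ _h : M, (1 : ℤ) := by
            refine Finset.sum_le_sum fun h _ => ?_
            rcases hd (x, h) with h1 | h1 <;> rw [h1] <;> norm_num
        _ = Fintype.card M := by simp
  obtain ⟨x0, hx0⟩ := exists_zero hei (by omega) he hN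
  obtain ⟨x1, hx1⟩ := exists_one hei (by omega) he hN
  have hv0 : C x0 = c0 := by rw [hCc, hx0, mul_zero, add_zero]
  have hv1 : C x1 = c0 + ε := by rw [hCc, hx1, mul_one]
  have hterm : ∀ x, C x * ((Fintype.card M : ℤ) - C x) =
      (1 - d (x, 0)) * (c0 * ((Fintype.card M : ℤ) - c0)) +
        d (x, 0) * ((c0 + ε) * ((Fintype.card M : ℤ) - (c0 + ε))) := by
    intro x
    rw [hCc x]
    rcases hd (x, 0) with h1 | h1 <;> rw [h1] <;> ring
  have hs2 : ((Fintype.card N : ℤ) - ∑ x, d (x, 0)) * (c0 * ((Fintype.card M : ℤ) - c0)) +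
      (∑ x, d (x, 0)) * ((c0 + ε) * ((Fintype.card M : ℤ) - (c0 + ε))) =
      (m : ℤ) ^ 2 * ((Fintype.card M : ℤ) - 1) := by
    rw [← hstar, Finset.sum_congr rfl fun x _ => hterm x, Finset.sum_add_distrib,
      ← Finset.sum_mul, ← Finset.sum_mul, Finset.sum_sub_distrib]
    simp
  have hqM : (3 : ℤ) ≤ Fintype.card M := by
    rw [hM]
    exact_mod_cast hq3
  refine sec3_arith (n := Fintype.card N) (q := Fintype.card M) (k := ∑ x, d (x, 0)) (m := m)
    (c0 := c0) (c1 := c0 + ε) (by exact_mod_cast hm) hqM (by exact_mod_cast hN) hke0 hken ?_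
    (hv0 ▸ (hCb x0).1) (hv0 ▸ (hCb x0).2) (hv1 ▸ (hCb x1).1) (hv1 ▸ (hCb x1).2) hs2 hke
  rcases hε with h | h
  · left
    rw [h]
  · right
    rw [h]
    ring

end Pool.Agent.McF
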