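import Pool.Agent.McF.Defs

set_option autoImplicit false

/-! McF16. Equation (B): divisibilities, `r > b`. -/

namespace Pool.Agent.McF

variable {p b r c A B : ℕ}

/-- Modulo `p^b`: `A = -B`, so `p^b ∣ 2 B (2^(c-1) B + 1)`, coprime factors `B`, `2^(c-1) B + 1`, `p` odd; if `p ∣ B` then `p^b ∣ B`, but
`0 < B < p^b`. So `p ∤ B`, and `p ∤ A = p^b - B`. -/
theorem EqB.not_dvd (h : EqB p b r c A B) : ¬ p ∣ A ∧ ¬ p ∣ B := by
  have hB' : ¬ p ∣ B := by
    intro hd
    have hp := h.prime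
    have hlt : B < p ^ b := by
      have := h.sum
      have := h.hA
      omega
    have hc2 : (2 : ℕ) ^ c = 2 * 2 ^ (c - 1) := by
      rw [← pow_succ', Nat.sub_add_cancel (by have := h.hc; omega)]
    have hdv : p ^ b ∣ B * (2 * (2 ^ (c - 1) * B + 1)) := by
      have hz : ((p ^ b : ℕ) : ℤ) ∣ ((B * (2 * (2 ^ (c - 1) * B + 1)) : ℕ) : ℤ) := by
        refine ⟨2 ^ c * B + 1 - p ^ r, ?_⟩
        have h1 : (A : ℤ) + B = p ^ b := by exact_mod_cast h.sum
        have h2 : (2 : ℤ) ^ c * A * B + A = p ^ (r + b) + B := by exact_mod_cast h.eq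
        have h3 : (2 : ℤ) ^ c = 2 * 2 ^ (c - 1) := by exact_mod_cast hc2
        rw [pow_add, ← h1] at h2
        push_cast
        rw [← h1]
        rw [h3] at h2 ⊢
        linear_combination -h2
      exact_mod_cast hz
    have hcop : Nat.Coprime (p ^ b) (2 * (2 ^ (c - 1) * B + 1)) := by
      apply Nat.Coprime.pow_left
      rw [hp.coprime_iff_not_dvd, hp.dvd_mul]
      rintro (h2 | h2)
      · exact h.odd ((Nat.prime_dvd_prime_iff_eq hp Nat.prime_two).1 h2)
      · have h3 : p ∣ 1 := (Nat.dvd_add_right (hd.mul_left _)).1 h2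
        exact hp.one_lt.ne' (Nat.dvd_one.1 h3)
    exact absurd (Nat.le_of_dvd h.hB (hcop.dvd_of_dvd_mul_right hdv)) (not_le.2 hlt)
  refine ⟨fun hd => hB' ?_, hB'⟩
  have h1 : p ∣ A + B := by
    rw [h.sum]
    exact dvd_pow_self p (by have := h.hb; omega)
  exact (Nat.dvd_add_right hd).1 h1

/-- A common prime divisor divides `p^b`, so it is `p`. -/
theorem EqB.coprime (h : EqB p b r c A B) : A.Coprime B := by
  have h1 : Nat.Coprime A (p ^ b) :=
    ((h.prime.coprime_iff_not_dvd).2 h.not_dvd.1).symm.pow_right b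
  rw [← h.sum] at h1
  exact (Nat.coprime_self_add_right).1 h1

/-- `2^c A B + A - B = p^r (A + B)`: modulo `A`: `A ∣ B (p^r + 1)`. -/
theorem EqB.dvd_add (h : EqB p b r c A B) : A ∣ p ^ r + 1 := by
  have h1 : A ∣ (p ^ r + 1) * B := by
    have h2 : 2 ^ c * A * B + A = p ^ r * A + (p ^ r + 1) * B := by
      rw [h.eq, pow_add, ← h.sum]
      ring
    refine (Nat.dvd_add_right (Dvd.intro_left (p ^ r) rfl)).1 ?_
    rw [← h2]
    exact ⟨2 ^ c * B + 1, by ring⟩
  exact h.coprime.dvd_of_dvd_mul_right h1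

/-- Modulo `B`: `B ∣ A (p^r - 1)`. -/
theorem EqB.dvd_sub (h : EqB p b r c A B) : B ∣ p ^ r - 1 := by
  obtain ⟨k, hk⟩ : ∃ k, p ^ r = k + 1 :=
    ⟨p ^ r - 1, (Nat.sub_add_cancel (Nat.one_le_pow _ _ h.prime.pos)).symm⟩
  have h1 : B ∣ k * A := by
    have h2 : 2 ^ c * A * B = (k + 2) * B + k * A := by
      have h3 := h.eq
      rw [pow_add, ← h.sum, hk] at h3
      have h4 : 2 ^ c * A * B + A = (k + 2) * B + k * A + A := by
        rw [h3]
        ring
      exact Nat.add_right_cancel h4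
    refine (Nat.dvd_add_right (Dvd.intro_left (k + 2) rfl)).1 ?_
    rw [← h2]
    exact Dvd.intro_left _ rfl
  rw [hk, Nat.add_sub_cancel]
  exact h.coprime.symm.dvd_of_dvd_mul_right h1

/-- `p^r + 1 = A α`, `p^r - 1 = B β` and `α + β = 2^c`. -/
theorem EqB.quot (h : EqB p b r c A B) :
    ∃ α β : ℕ, p ^ r + 1 = A * α ∧ p ^ r = B * β + 1 ∧ α + β = 2 ^ c := by
  obtain ⟨α, hα⟩ := h.dvd_add
  obtain ⟨β, hβ⟩ := h.dvd_sub
  have hβ' : p ^ r = B * β + 1 := by
    have := Nat.one_le_pow r p h.prime.pos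
    omega
  refine ⟨α, β, hα, hβ', ?_⟩
  have h3 := h.eq
  rw [pow_add, ← h.sum] at h3
  have hAB : 0 < A * B := Nat.mul_pos h.hA h.hB
  have h4 : A * B * (α + β) = A * B * 2 ^ c := by
    have hz1 : ((p : ℤ) ^ r + 1) = A * α := by exact_mod_cast hα
    have hz2 : (p : ℤ) ^ r = B * β + 1 := by exact_mod_cast hβ'
    have hz3 : (2 : ℤ) ^ c * A * B + A = p ^ r * (A + B) + B := by exact_mod_cast h3
    have hz4 : (A : ℤ) * B * (α + β) = A * B * 2 ^ c := by
      linear_combination (-(B : ℤ)) * hz1 - (A : ℤ) * hz2 - hz3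
    exact_mod_cast hz4
  exact Nat.eq_of_mul_eq_mul_left hAB h4

/-- Suppose `r ≤ b`. `p^b = A + B ≤ (p^r + 1) + (p^r - 1) = 2 p^r < p^(r+1)`, so `b = r`. If `B = p^r - 1` then `A = 1` and
`2^c (p^r - 1) = p^(2r) + p^r - 2 = (p^r - 1) (p^r + 2)`, `2^c = p^r + 2` is odd: a contradiction. Otherwise `B ≤ (p^r - 1) / 2`, so
`A = p^r - B ≥ (p^r + 1) / 2`; `A ∣ p^r + 1` and `A ≤ p^r`, so `A ≤ (p^r + 1) / 2`: equalities, `4 A B = p^(2r) - 1`, `A - B = 1`, so
`2^c (p^(2r) - 1) = 4 (p^(2r) - 1)`, `c = 2`: a contradiction. -/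
theorem EqB.lt (h : EqB p b r c A B) : b < r := by
  by_contra hle
  rw [not_lt] at hle
  obtain ⟨α, β, hα, hβ, hs⟩ := h.quot
  have hA := h.hA
  have hB := h.hB
  have hp := h.prime.two_le
  have hpr : 1 < p ^ r := Nat.one_lt_pow (by have := h.hr; omega) h.prime.one_lt
  have hα1 : α ≠ 0 := by
    rintro rfl
    omega
  have hβ1 : β ≠ 0 := by
    rintro rfl
    omega
  have hAle : A ≤ p ^ r + 1 := by
    rw [hα]
    exact Nat.le_mul_of_pos_right _ (Nat.pos_of_ne_zero hα1)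
  have hBle : B + 1 ≤ p ^ r := by
    rw [hβ]
    exact Nat.succ_le_succ (Nat.le_mul_of_pos_right _ (Nat.pos_of_ne_zero hβ1))
  have hp3 : 3 ≤ p := by
    have := h.odd
    omega
  have hbr : b = r := by
    have h1 : p ^ b < p ^ (r + 1) := by
      rw [← h.sum, pow_succ]
      have h5 : p ^ r * 3 ≤ p ^ r * p := Nat.mul_le_mul_left _ hp3
      omega
    have h2 := (Nat.pow_lt_pow_iff_right h.prime.one_lt).1 h1
    omega
  have hsum := h.sum
  rw [hbr] at hsum
  have hpow : 8 ≤ 2 ^ c := by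
    have h1 : (2 : ℕ) ^ 3 ≤ 2 ^ c := Nat.pow_le_pow_right (by norm_num) h.hc
    omega
  rcases Nat.lt_or_ge β 2 with hβ2 | hβ2
  · have hβ3 : β = 1 := by omega
    subst hβ3
    have hA1 : A = 1 := by omega
    subst hA1
    have hpodd : Odd (p ^ r) := (h.prime.odd_of_ne_two h.odd).pow
    have he : Even (2 ^ c) := by
      rw [Nat.even_pow]
      exact ⟨even_two, by have := h.hc; omega⟩
    rw [← hs] at he
    obtain ⟨k, hk⟩ := hpodd
    obtain ⟨j, hj⟩ := he
    omega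
  · have hB2 : B * 2 ≤ B * β := Nat.mul_le_mul_left _ hβ2
    have hα2 : α ≤ 2 := by
      by_contra hα3
      have h1 : A * 3 ≤ A * α := Nat.mul_le_mul_left _ (by omega)
      omega
    have hα3 : α ≠ 1 := by
      rintro rfl
      omega
    have hα4 : α = 2 := by omega
    subst hα4
    have h6 : B * β = B * 2 := by omega
    have h7 := Nat.eq_of_mul_eq_mul_left hB h6
    omega

end Pool.Agent.McF
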