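import Pool.Agent.McF.Defs

set_option autoImplicit false

/-! McF25. Difference sets: counting and the absolute value of the character sums. -/

namespace Pool.Agent.McF

open Finset

variable {G : Type} [AddCommGroup G] [Fintype G] [DecidableEq G]

theorem sum_ind (D : Finset G) : ∑ x, ind D x = (D.card : ℤ) := by
  simp [ind]

theorem hat_ind (D : Finset G) (χ : AddChar G ℂ) : hat (ind D) χ = ∑ x ∈ D, χ x := by
  unfold hat ind
  have h : ∀ x : G, (((if x ∈ D then 1 else 0 : ℤ) : ℂ) * χ x) = if x ∈ D then χ x else 0 := by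
    intro x
    split_ifs <;> simp
  rw [Finset.sum_congr rfl fun x _ => h x, Finset.sum_ite_mem, Finset.univ_inter]

omit [Fintype G] in
private theorem card_zero (D : Finset G) :
    ((D ×ˢ D).filter (fun p => p.1 - p.2 = 0)).card = D.card := by
  have h : (D ×ˢ D).filter (fun p => p.1 - p.2 = 0) = D.image fun x => (x, x) := by
    ext p
    simp only [Finset.mem_filter, Finset.mem_product, Finset.mem_image, sub_eq_zero]
    constructor
    · rintro ⟨⟨h1, _⟩, h2⟩
      exact ⟨p.1, h1, Prod.ext rfl h2⟩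
    · rintro ⟨x, hx, rfl⟩
      exact ⟨⟨hx, hx⟩, rfl⟩
  rw [h, Finset.card_image_of_injective _ fun a b hab => congrArg Prod.fst hab]

/-- Count the pairs of `D × D` by their difference: `k` pairs with difference 0, `lam` for every other value. -/
theorem card_sq {D : Finset G} {lam : ℕ}
    (h : ∀ x : G, x ≠ 0 → ((D ×ˢ D).filter (fun p => p.1 - p.2 = x)).card = lam) :
    (D.card : ℤ) ^ 2 = (D.card : ℤ) - lam + lam * (Fintype.card G : ℤ) := by
  have h1 := Finset.card_eq_sum_card_fiberwise (s := D ×ˢ D) (t := (univ : Finset G))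
    (f := fun p => p.1 - p.2) fun _ _ => Finset.mem_coe.2 (Finset.mem_univ _)
  rw [Finset.card_product, ← Finset.add_sum_erase _ _ (Finset.mem_univ (0 : G)), card_zero D,
    Finset.sum_congr rfl fun x hx => h x (Finset.ne_of_mem_erase hx), Finset.sum_const,
    Finset.card_erase_of_mem (Finset.mem_univ _), Finset.card_univ, smul_eq_mul] at h1
  have h2 : 1 ≤ Fintype.card G := Fintype.card_pos
  have h3 : ((D.card * D.card : ℕ) : ℤ) = ((D.card + (Fintype.card G - 1) * lam : ℕ) : ℤ) := by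
    rw [h1]
  push_cast [Nat.cast_sub h2] at h3
  linarith

/-- `‖hat (ind D) χ‖² = ∑_{d1,d2} χ(d1 - d2) = k + lam ∑_{x ≠ 0} χ(x) = k - lam`. -/
theorem norm_sq_hat {D : Finset G} {lam : ℕ}
    (h : ∀ x : G, x ≠ 0 → ((D ×ˢ D).filter (fun p => p.1 - p.2 = x)).card = lam)
    {χ : AddChar G ℂ} (hχ : χ ≠ 0) : ‖hat (ind D) χ‖ ^ 2 = (D.card : ℝ) - lam := by
  have h0 : (‖hat (ind D) χ‖ ^ 2 : ℂ) = ((D.card : ℝ) - lam : ℝ) := by
    rw [← Complex.mul_conj', hat_ind, map_sum, Finset.sum_mul_sum, ← Finset.sum_product']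
    have h1 : ∀ p ∈ D ×ˢ D, χ p.1 * (starRingEnd ℂ) (χ p.2) = χ (p.1 - p.2) := by
      intro p _
      rw [sub_eq_add_neg, AddChar.map_add_eq_mul, AddChar.map_neg_eq_conj]
    rw [Finset.sum_congr rfl h1, ← Finset.sum_fiberwise_of_maps_to (s := D ×ˢ D)
      (t := (univ : Finset G)) (g := fun p => p.1 - p.2) fun _ _ => Finset.mem_univ _]
    have h2 : ∀ x : G, ∑ p ∈ (D ×ˢ D).filter (fun p => p.1 - p.2 = x), χ (p.1 - p.2) =
        (((D ×ˢ D).filter (fun p => p.1 - p.2 = x)).card : ℂ) * χ x := by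
      intro x
      rw [Finset.sum_congr rfl fun p hp => by rw [(Finset.mem_filter.1 hp).2], Finset.sum_const,
        nsmul_eq_mul]
    rw [Finset.sum_congr rfl fun x _ => h2 x, ← Finset.add_sum_erase _ _
      (Finset.mem_univ (0 : G)), card_zero D, AddChar.map_zero_eq_one, mul_one,
      Finset.sum_congr rfl fun x hx => by rw [h x (Finset.ne_of_mem_erase hx)],
      ← Finset.mul_sum]
    have h3 : ∑ x ∈ (univ : Finset G).erase 0, χ x = -1 := by
      have h4 := AddChar.sum_eq_zero_iff_ne_zero.2 hχ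
      rw [← Finset.add_sum_erase _ _ (Finset.mem_univ (0 : G)), AddChar.map_zero_eq_one] at h4
      linear_combination h4
    rw [h3]
    push_cast
    ring
  exact_mod_cast h0

/-- With `n = k - lam`, `v = |G|`: `k (v - k) = n (v - 1)` (`card_sq`), so `(k - 1) (v - 1 - k) = (n - 1) (v - 1)` is positive. -/
theorem two_le_order {D : Finset G} {lam : ℕ} (h1 : 1 < D.card) (h2 : D.card + 1 < Fintype.card G)
    (h : ∀ x : G, x ≠ 0 → ((D ×ˢ D).filter (fun p => p.1 - p.2 = x)).card = lam) :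
    lam + 2 ≤ D.card := by
  have h3 := card_sq h
  have h4 : (1 : ℤ) < D.card := by exact_mod_cast h1
  have h5 : (D.card : ℤ) + 1 < Fintype.card G := by exact_mod_cast h2
  by_contra h6
  have h7 : (D.card : ℤ) - 1 ≤ lam := by omega
  nlinarith [mul_le_mul_of_nonneg_right h7 (show (0 : ℤ) ≤ (Fintype.card G : ℤ) - 1 by linarith),
    mul_pos (show (0 : ℤ) < (D.card : ℤ) - 1 by linarith)
      (show (0 : ℤ) < (Fintype.card G : ℤ) - 1 - D.card by linarith)]

end Pool.Agent.McF
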